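import Mathlib

/-!
# Self-dual intervals for the multivariate Tutte polynomial (Jackson-Sokal), MP_58ca84_co Q2

Definitions shared by all modules.
-/

namespace Pool.Agent.H194R2.JS

open Finset

/-! ## Multigraphs: `en : E → V × V` gives the two ends of every edge; `S : Finset E` is the
set of present edges. -/

section Multi

variable {V E : Type} [DecidableEq V] [DecidableEq E]

/-- the vertices touched by the edges of `A` -/
def vs (en : E → V × V) (A : Finset E) : Finset V :=
  A.image (fun e => (en e).1) ∪ A.image (fun e => (en e).2)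

/-- 2-connected (non-separable), in terms of edge partitions -/
def TC (en : E → V × V) (S : Finset E) : Prop :=
  2 ≤ S.card ∧ ∀ A ⊆ S, A.Nonempty → A ≠ S → 2 ≤ (vs en A ∩ vs en (S \ A)).card

/-- no 2-separation -/
def N2 (en : E → V × V) (S : Finset E) : Prop :=
  ∀ A ⊆ S, 2 ≤ A.card → 2 ≤ (S \ A).card → 3 ≤ (vs en A ∩ vs en (S \ A)).card

/-- redirect every occurrence of `y` to `x` -/
def red (x y : V) (en : E → V × V) : E → V × V :=
  fun e => (if (en e).1 = y then x else (en e).1, if (en e).2 = y then x else (en e).2)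

/-- number of connected components of `(V, A)` -/
noncomputable def kk (en : E → V × V) (A : Finset E) : ℕ :=
  Nat.card (Quot fun u v : V => ∃ e ∈ A, en e = (u, v))

/-- partition function over subsets `A ⊆ S` of the free edges, the edges of `T` being forced -/
noncomputable def F (q : ℝ) (en : E → V × V) (wt : E → ℝ) (T S : Finset E) : ℝ :=
  ∑ A ∈ S.powerset, q ^ kk en (T ∪ A) * ∏ e ∈ A, wt e

/-- for a graph `S` with root edge `r`: `F ∅ S = P + wt r * R` with
`P = q * aa + bb`, `R = aa + bb`; `bb / aa` is the effective weight of `S - r`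
between the ends of `r` -/
noncomputable def aa (q : ℝ) (en : E → V × V) (wt : E → ℝ) (r : E) (S : Finset E) : ℝ :=
  (F q en wt ∅ (S.erase r) - F q en wt {r} (S.erase r)) / (q - 1)

noncomputable def bb (q : ℝ) (en : E → V × V) (wt : E → ℝ) (r : E) (S : Finset E) : ℝ :=
  (q * F q en wt {r} (S.erase r) - F q en wt ∅ (S.erase r)) / (q - 1)

/-- effective weight -/
noncomputable def ww (q : ℝ) (en : E → V × V) (wt : E → ℝ) (r : E) (S : Finset E) : ℝ :=
  bb q en wt r S / aa q en wt r S

/-- a labelled weighted multigraph -/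
structure St (V E : Type) where
  en : E → V × V
  S : Finset E
  lab : E → ℕ
  wt : E → ℝ

/-- delete `e` -/
def St.del (σ : St V E) (e : E) : St V E := { σ with S := σ.S.erase e }

/-- contract `e` (ends `x`, `y`), the vertex `y` is absorbed by `x` -/
def St.con (σ : St V E) (e : E) (x y : V) : St V E :=
  { σ with en := red x y σ.en, S := σ.S.erase e }

/-- replace the subnetwork `A` (attached at `x`, `y`) by the single edge `g` of weight `w` -/
def St.comp (σ : St V E) (A : Finset E) (g : E) (x y : V) (w : ℝ) : St V E :=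
  { en := Function.update σ.en g (x, y)
    S := insert g (σ.S \ A)
    lab := Function.update σ.lab g (∑ e ∈ A, σ.lab e)
    wt := Function.update σ.wt g w }

end Multi

/-! ## The game on simple graphs -/

section Simple

variable {V : Type} [Fintype V] [DecidableEq V]

open Classical in
/-- neighbours of `v` -/
noncomputable def nb (G : SimpleGraph V) (v : V) : Finset V :=
  Finset.univ.filter (fun u => G.Adj v u)

omit [DecidableEq V] in
theorem mem_nb {G : SimpleGraph V} {u v : V} : u ∈ nb G v ↔ G.Adj v u := by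
  simp [nb]

/-- degree -/
noncomputable def dg (G : SimpleGraph V) (v : V) : ℕ := (nb G v).card

/-- delete the edge `xy` -/
def sdel (G : SimpleGraph V) (x y : V) : SimpleGraph V where
  Adj a b := G.Adj a b ∧ ¬ ((a = x ∧ b = y) ∨ (a = y ∧ b = x))
  symm := ⟨by
    intro a b h
    refine ⟨h.1.symm, ?_⟩
    rintro (⟨h1, h2⟩ | ⟨h1, h2⟩)
    · exact h.2 (Or.inr ⟨h2, h1⟩)
    · exact h.2 (Or.inl ⟨h2, h1⟩)⟩
  loopless := ⟨fun a h => G.loopless.irrefl a h.1⟩

/-- contract the edge `xy`: `y` is absorbed by `x` and becomes isolated -/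
def scon (G : SimpleGraph V) (x y : V) : SimpleGraph V where
  Adj a b := a ≠ b ∧ a ≠ y ∧ b ≠ y ∧
    (G.Adj a b ∨ (a = x ∧ G.Adj y b) ∨ (b = x ∧ G.Adj y a))
  symm := ⟨by
    rintro a b ⟨h1, h2, h3, h4⟩
    refine ⟨h1.symm, h3, h2, ?_⟩
    rcases h4 with h | h | h
    · exact Or.inl h.symm
    · exact Or.inr (Or.inr h)
    · exact Or.inr (Or.inl h)⟩
  loopless := ⟨fun a h => h.1 rfl⟩

/-- positions where the game is over (good for the player) -/
def Fin0 (Δ : ℕ) (G : SimpleGraph V) : Prop :=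
  (∃ v, 1 ≤ dg G v ∧ dg G v ≤ 2) ∨ (∃ v, Δ < dg G v)

/-- the player, who picks edges `xy` outside the frozen set `W`, wins within `n` moves:
his opponent chooses whether the edge is deleted or contracted; a contraction that creates
parallel edges is an immediate win -/
def Win (Δ : ℕ) (W : Finset V) : ℕ → SimpleGraph V → Prop
  | 0, G => Fin0 Δ G
  | n + 1, G => Fin0 Δ G ∨
      ∃ x y, G.Adj x y ∧ x ∉ W ∧ y ∉ W ∧ Win Δ W n (sdel G x y) ∧
        ((∃ z, G.Adj x z ∧ G.Adj y z) ∨ Win Δ W n (scon G x y))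

/-- there is a walk of length at most `n` from `a` to `b`, all vertices after `a` outside `Y` -/
def Near (G : SimpleGraph V) (Y : Finset V) : ℕ → V → V → Prop
  | 0, a, b => a = b
  | n + 1, a, b => a = b ∨ ∃ u, u ∉ Y ∧ G.Adj a u ∧ Near G Y n u b

/-- apart from `c` no vertex within distance `R` of `c` has a neighbour in `W` -/
def Far (G : SimpleGraph V) (W : Finset V) (c : V) (R : ℕ) : Prop :=
  ∀ u, u ≠ c → Near G W R c u → ∀ w ∈ W, ¬ G.Adj u w

/-- at most `k` moves, edges outside `Y`, vertices of `P` are never absorbed -/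
inductive Rch (Y P : Finset V) : ℕ → SimpleGraph V → SimpleGraph V → Prop
  | refl (k : ℕ) (G : SimpleGraph V) : Rch Y P k G G
  | del (k : ℕ) (G G' : SimpleGraph V) (x y : V) : G.Adj x y → x ∉ Y → y ∉ Y →
      Rch Y P k (sdel G x y) G' → Rch Y P (k + 1) G G'
  | con (k : ℕ) (G G' : SimpleGraph V) (x y : V) : G.Adj x y → x ∉ Y → y ∉ Y → y ∉ P →
      (∀ z, ¬ (G.Adj x z ∧ G.Adj y z)) → Rch Y P k (scon G x y) G' → Rch Y P (k + 1) G G'

end Simple

/-- the player can force `c` to have degree `3` or degree at least `h` -/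
def Claim (Δ h : ℕ) : Prop := ∃ R T : ℕ, ∀ (V : Type) [Fintype V] [DecidableEq V]
    (G : SimpleGraph V) (W0 W : Finset V) (c : V) (n : ℕ), W0 ⊆ W → c ∉ W → 1 ≤ dg G c →
    (nb G c ∩ W).card ≤ 3 → Far G W c R → ¬ Win Δ W0 (n + T) G →
    ∃ G' : SimpleGraph V, Rch W {c} T G G' ∧ ¬ Win Δ W0 n G' ∧ (dg G' c = 3 ∨ h ≤ dg G' c)

/-! ## Real numbers -/

/-- an interval of negative weights closed under series and parallel connection -/
structure KK (q lo hi : ℝ) : Prop where
  q0 : 0 < q
  q1 : q ≠ 1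
  lohi : lo ≤ hi
  hi0 : hi < 0
  sneg : q + 2 * hi < 0
  par : ∀ a ∈ Set.Icc lo hi, ∀ b ∈ Set.Icc lo hi, (1 + a) * (1 + b) - 1 ∈ Set.Icc lo hi
  ser : ∀ a ∈ Set.Icc lo hi, ∀ b ∈ Set.Icc lo hi, a * b / (q + a + b) ∈ Set.Icc lo hi

/-- the range of `q` -/
def InR (q : ℝ) : Prop := (0 < q ∧ q < 1) ∨ (1 < q ∧ q < 32 / 27)

/-- right end of the basic interval -/
noncomputable def cb (q : ℝ) : ℝ := if q < 1 then -q else (3 * q - 8) / 5

/-- the sign condition for two parallel edges -/
def Good (q a b : ℝ) : Prop :=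
  (q < 1 → (1 + a) * (1 + b) < 1 - q) ∧ (1 < q → 1 - q < (1 + a) * (1 + b))

/-- the middle root -/
def IsMid (q v : ℝ) : Prop :=
  v ^ 3 - 2 * q * v - q ^ 2 = 0 ∧ (∃ u < v, u ^ 3 - 2 * q * u - q ^ 2 = 0) ∧
    (∃ u > v, u ^ 3 - 2 * q * u - q ^ 2 = 0)

end Pool.Agent.H194R2.JS
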