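import Pool.Agent.H194R2.JS.Defs

/-! Module D (helper496): dynamics of the intervals. -/

namespace Pool.Agent.H194R2.JS

open Finset

namespace DynAux

/-- `ka = 1 + q/c`, `kb = 1 + c` -/
structure KB (q ka kb : ℝ) : Prop where
  q0 : 0 < q
  e : (ka - 1) * (kb - 1) = q
  a0 : ka ≤ 0
  a1 : -1 < ka
  b0 : 0 < kb
  b1 : kb < 1
  ab : ka ^ 2 < kb

theorem kb_of {q c : ℝ} (hq : InR q) (hc1 : cb q ≤ c) (hc0 : c < 0)
    (hp : 0 < c ^ 3 - 2 * q * c - q ^ 2) : KB q (1 + q / c) (1 + c) ∧ c ^ 2 ≤ q ∧ q + 2 * c < 0 := by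
  have hcne : c ≠ 0 := hc0.ne
  have hcsq : 0 < c ^ 2 := by positivity
  have hq0 : 0 < q := by rcases hq with h | h <;> linarith [h.1]
  have hc1' : -1 < c ∧ -c ≤ q ∧ c ^ 2 ≤ q := by
    unfold cb at hc1
    rcases hq with ⟨h0, h1⟩ | ⟨h0, h1⟩
    · rw [if_pos h1] at hc1
      refine ⟨by linarith, by linarith, by nlinarith⟩
    · rw [if_neg (by linarith)] at hc1
      have : -1 < c := by linarith
      refine ⟨this, by linarith, by nlinarith⟩
  obtain ⟨h1, h2, h3⟩ := hc1'
  have hs : q + 2 * c < 0 := by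
    by_contra hcon
    push Not at hcon
    have h4 : c ^ 3 < 0 := by
      have : c ^ 3 = c ^ 2 * c := by ring
      rw [this]
      exact mul_neg_of_pos_of_neg hcsq hc0
    have h5 : 0 ≤ q * (q + 2 * c) := mul_nonneg hq0.le hcon
    have h6 : c ^ 3 - 2 * q * c - q ^ 2 = c ^ 3 - q * (q + 2 * c) := by ring
    linarith
  refine ⟨⟨hq0, ?_, ?_, ?_, by linarith, by linarith, ?_⟩, h3, hs⟩
  · field_simp; ring
  · have : q / c ≤ -1 := by
      rw [div_le_iff_of_neg hc0]; linarith
    linarith
  · have : -2 < q / c := by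
      rw [lt_div_iff_of_neg hc0]; linarith
    linarith
  · have e : (1 + c) - (1 + q / c) ^ 2 = (c ^ 3 - 2 * q * c - q ^ 2) / c ^ 2 := by
      field_simp; ring
    have : 0 < (c ^ 3 - 2 * q * c - q ^ 2) / c ^ 2 := by positivity
    linarith

variable {q ka kb : ℝ}

theorem par_range (h : KB q ka kb) {s t : ℝ} (hs : ka ≤ s) (hs' : s ≤ kb) (ht : ka ≤ t)
    (ht' : t ≤ kb) : ka ≤ s * t ∧ s * t ≤ kb := by
  obtain ⟨_, _, h1, h2, h3, h4, h5⟩ := h
  rcases le_or_gt 0 s with h6 | h6 <;> rcases le_or_gt 0 t with h7 | h7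
  · constructor
    · nlinarith
    · nlinarith
  · constructor
    · nlinarith
    · nlinarith
  · constructor
    · nlinarith
    · nlinarith
  · constructor
    · nlinarith
    · nlinarith

theorem inv_range (hq : 0 < q) {T v : ℝ} (hT : T < 0) (h1 : T ≤ v) (h2 : v ≤ q / T) :
    T ≤ q / v ∧ q / v ≤ q / T := by
  have h3 : q / T < 0 := div_neg_of_pos_of_neg hq hT
  have hv : v < 0 := lt_of_le_of_lt h2 h3
  constructor
  · rw [le_div_iff_of_neg hv]
    rw [le_div_iff_of_neg hT] at h2
    linarith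
  · rw [div_le_iff_of_neg hv, div_mul_eq_mul_div, div_le_iff_of_neg hT]
    nlinarith

theorem series_eq (hq : q ≠ 0) {k z : ℝ} (hk : k ≠ 0) (hz : z ≠ 0) :
    k * z / (q + k + z) = q / ((1 + q / k) * (1 + q / z) - 1) := by
  have e : (1 + q / k) * (1 + q / z) - 1 = q * (q + k + z) / (k * z) := by
    field_simp; ring
  rw [e, div_div_eq_mul_div, mul_div_mul_left _ _ hq]

theorem kk_of (h : KB q ka kb) (hq1 : q ≠ 1) (hc : (kb - 1) ^ 2 ≤ q) (hs : q + 2 * (kb - 1) < 0) :
    KK q (ka - 1) (kb - 1) := by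
  have hq0 := h.q0
  have hkm : ka - 1 < 0 := by linarith [h.a0]
  have hkp : kb - 1 < 0 := by linarith [h.b1]
  have hq2 : q / (ka - 1) = kb - 1 := by
    rw [div_eq_iff hkm.ne]; linarith [h.e]
  refine ⟨hq0, hq1, ?_, hkp, hs, ?_, ?_⟩
  · have := h.e
    nlinarith
  · rintro a ⟨ha, ha'⟩ b ⟨hb, hb'⟩
    have := par_range h (s := 1 + a) (t := 1 + b) (by linarith) (by linarith) (by linarith)
      (by linarith)
    exact ⟨by linarith, by linarith⟩
  · rintro a ⟨ha, ha'⟩ b ⟨hb, hb'⟩
    have ha0 : a < 0 := by linarith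
    have hb0 : b < 0 := by linarith
    rw [series_eq hq0.ne' ha0.ne hb0.ne]
    have i1 := inv_range hq0 hkm ha (by rw [hq2]; exact ha')
    have i2 := inv_range hq0 hkm hb (by rw [hq2]; exact hb')
    rw [hq2] at i1 i2
    have := par_range h (s := 1 + q / a) (t := 1 + q / b) (by linarith) (by linarith)
      (by linarith) (by linarith)
    have i3 := inv_range hq0 hkm (v := (1 + q / a) * (1 + q / b) - 1) (by linarith)
      (by rw [hq2]; linarith)
    rw [hq2] at i3
    exact ⟨i3.1, i3.2⟩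

/-- one step of the dynamics: parallel connection -/
theorem step_par (h : KB q ka kb) {A T : ℝ} (hA1 : A < -1) (hAq : A < -q) (hT : T < 0)
    (t1 : T ≤ ka * (1 + q / A) - 1) (t2 : T ≤ kb * (1 + A) - 1)
    (t3 : q ≤ T * (ka * (1 + A) - 1)) (t4 : q ≤ T * (kb * (1 + q / A) - 1))
    {k z : ℝ} (hk : ka - 1 ≤ k) (hk' : k ≤ kb - 1) (hz : A ≤ z) (hz' : z ≤ q / A) :
    T ≤ (1 + k) * (1 + z) - 1 ∧ (1 + k) * (1 + z) - 1 ≤ q / T := by
  obtain ⟨h0, _, h1, h2, h3, h4, h5⟩ := h
  have hA0 : A < 0 := by linarith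
  have hB : 0 < 1 + q / A := by
    have : -1 < q / A := by rw [lt_div_iff_of_neg hA0]; linarith
    linarith
  have hB' : q / A < 0 := div_neg_of_pos_of_neg h0 hA0
  have t3' : ka * (1 + A) - 1 ≤ q / T := by rw [le_div_iff_of_neg hT]; linarith
  have t4' : kb * (1 + q / A) - 1 ≤ q / T := by rw [le_div_iff_of_neg hT]; linarith
  generalize q / A = B at *
  have e1 : 1 + k ≤ kb := by linarith
  have e2 : ka ≤ 1 + k := by linarith
  generalize 1 + k = s at *
  have e3 : 1 + A ≤ 1 + z := by linarith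
  have e4 : 1 + z ≤ 1 + B := by linarith
  have e5 : 1 + A < 0 := by linarith
  generalize 1 + z = t at *
  generalize 1 + A = a at *
  generalize 1 + B = b at *
  rcases le_or_gt 0 s with h6 | h6 <;> rcases le_or_gt 0 t with h7 | h7
  · have m1 : s * t ≤ kb * b := mul_le_mul e1 e4 h7 h3.le
    have m2 : 0 ≤ s * t := mul_nonneg h6 h7
    have m3 : ka * b ≤ 0 := mul_nonpos_of_nonpos_of_nonneg h1 hB.le
    constructor <;> linarith
  · have m1 : s * t ≤ 0 := mul_nonpos_of_nonneg_of_nonpos h6 h7.le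
    have m2 : kb * a ≤ s * t := by nlinarith
    have m3 : 0 ≤ kb * b := by positivity
    constructor <;> linarith
  · have m1 : s * t ≤ 0 := mul_nonpos_of_nonpos_of_nonneg h6.le h7
    have m2 : ka * b ≤ s * t := by nlinarith
    have m3 : 0 ≤ kb * b := by positivity
    constructor <;> linarith
  · have m1 : 0 < s * t := mul_pos_of_neg_of_neg h6 h7
    have m2 : s * t ≤ ka * a := by nlinarith
    have m3 : ka * b ≤ 0 := mul_nonpos_of_nonpos_of_nonneg h1 hB.le
    constructor <;> linarith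

/-- one step of the dynamics -/
theorem step (h : KB q ka kb) {A T : ℝ} (hA1 : A < -1) (hAq : A < -q) (hT : T < 0)
    (t1 : T ≤ ka * (1 + q / A) - 1) (t2 : T ≤ kb * (1 + A) - 1)
    (t3 : q ≤ T * (ka * (1 + A) - 1)) (t4 : q ≤ T * (kb * (1 + q / A) - 1))
    {k z : ℝ} (hk : k ∈ Set.Icc (ka - 1) (kb - 1)) (hz : z ∈ Set.Icc A (q / A)) :
    (1 + k) * (1 + z) - 1 ∈ Set.Icc T (q / T) ∧ k * z / (q + k + z) ∈ Set.Icc T (q / T) := by
  have hA0 : A < 0 := by linarith
  have hkm : ka - 1 < 0 := by linarith [h.a0]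
  have hkp : kb - 1 < 0 := by linarith [h.b1]
  have hq2 : q / (ka - 1) = kb - 1 := by
    rw [div_eq_iff hkm.ne]; linarith [h.e]
  refine ⟨step_par h hA1 hAq hT t1 t2 t3 t4 hk.1 hk.2 hz.1 hz.2, ?_⟩
  have hk0 : k < 0 := lt_of_le_of_lt hk.2 hkp
  have hz0 : z < 0 := lt_of_le_of_lt hz.2 (div_neg_of_pos_of_neg h.q0 hA0)
  rw [series_eq h.q0.ne' hk0.ne hz0.ne]
  have i1 := inv_range h.q0 hkm hk.1 (by rw [hq2]; exact hk.2)
  rw [hq2] at i1
  have i2 := inv_range h.q0 hA0 hz.1 hz.2
  have i3 := step_par h hA1 hAq hT t1 t2 t3 t4 i1.1 i1.2 i2.1 i2.2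
  exact inv_range h.q0 hT i3.1 i3.2

/-- uniform progress -/
theorem progress (h : KB q ka kb) {D : ℝ} (hD1 : D < -1) (hDq : D < -q)
    (hG : 0 < D ^ 2 - (ka - 1) * D - q * ka) (hF : 0 < ka * D ^ 2 + (ka - 1) * D - q) :
    ∃ η : ℝ, 0 < η ∧ ∀ A, ka - 1 ≤ A → A ≤ D →
      A + η ≤ ka * (1 + q / A) - 1 ∧ A + η ≤ kb * (1 + A) - 1 ∧
      q ≤ (A + η) * (ka * (1 + A) - 1) ∧ q ≤ (A + η) * (kb * (1 + q / A) - 1) := by
  obtain ⟨h0, he, h1, h2, h3, h4, h5⟩ := h
  -- the value at the left end
  have hFk : 0 < ka * (ka - 1) ^ 2 + (ka - 1) * (ka - 1) - q := by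
    have h6 : (1 - ka) * (1 - kb) = q := by linarith
    have h7 : ka * (ka - 1) ^ 2 + (ka - 1) * (ka - 1) - q = (1 - ka) * (kb - ka ^ 2) := by
      rw [← h6]; ring
    rw [h7]
    exact mul_pos (by linarith) (by linarith)
  set η := min (min ((kb - 1) * (1 + D)) ((kb - 1) * (D + q)))
    (min ((D ^ 2 - (ka - 1) * D - q * ka) / 2)
      (min (ka * (ka - 1) ^ 2 + (ka - 1) * (ka - 1) - q) (ka * D ^ 2 + (ka - 1) * D - q))) with hη
  have e1 : η ≤ (kb - 1) * (1 + D) := (min_le_left _ _).trans (min_le_left _ _)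
  have e2 : η ≤ (kb - 1) * (D + q) := (min_le_left _ _).trans (min_le_right _ _)
  have e3 : η ≤ (D ^ 2 - (ka - 1) * D - q * ka) / 2 := (min_le_right _ _).trans (min_le_left _ _)
  have e4 : η ≤ ka * (ka - 1) ^ 2 + (ka - 1) * (ka - 1) - q :=
    (min_le_right _ _).trans ((min_le_right _ _).trans (min_le_left _ _))
  have e5 : η ≤ ka * D ^ 2 + (ka - 1) * D - q :=
    (min_le_right _ _).trans ((min_le_right _ _).trans (min_le_right _ _))
  have hη0 : 0 < η := by
    refine lt_min (lt_min ?_ ?_) (lt_min (by linarith) (lt_min hFk hF))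
    · exact mul_pos_of_neg_of_neg (by linarith) (by linarith)
    · exact mul_pos_of_neg_of_neg (by linarith) (by linarith)
  refine ⟨η, hη0, fun A hA hAD => ?_⟩
  have hA0 : A < 0 := by linarith
  have hA2 : -2 < A := by linarith
  have hB0 : 0 < 1 + q / A := by
    have : -1 < q / A := by rw [lt_div_iff_of_neg hA0]; linarith
    linarith
  have hB1 : q / A < 0 := div_neg_of_pos_of_neg h0 hA0
  refine ⟨?_, ?_, ?_, ?_⟩
  · -- a1
    have hAne : A ≠ 0 := hA0.ne
    have g1 : ka * (1 + q / A) - 1 - A = (A ^ 2 - (ka - 1) * A - q * ka) / (-A) := by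
      field_simp; ring
    have g2 : D ^ 2 - (ka - 1) * D - q * ka ≤ A ^ 2 - (ka - 1) * A - q * ka := by
      have g21 : 0 ≤ (D - A) * ((ka - 1) - A - D) := mul_nonneg (by linarith) (by linarith)
      have g22 : (D - A) * ((ka - 1) - A - D)
        = (A ^ 2 - (ka - 1) * A - q * ka) - (D ^ 2 - (ka - 1) * D - q * ka) := by ring
      linarith
    have g3 : (D ^ 2 - (ka - 1) * D - q * ka) / 2 ≤ (A ^ 2 - (ka - 1) * A - q * ka) / (-A) := by
      rw [div_le_div_iff₀ (by norm_num) (by linarith)]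
      have g31 : (D ^ 2 - (ka - 1) * D - q * ka) * (-A) ≤ (D ^ 2 - (ka - 1) * D - q * ka) * 2 :=
        mul_le_mul_of_nonneg_left (by linarith) hG.le
      linarith
    linarith
  · have g1 : kb * (1 + A) - 1 - A = (kb - 1) * (1 + A) := by ring
    have g2 : (kb - 1) * (1 + D) ≤ (kb - 1) * (1 + A) := by nlinarith
    linarith
  · -- a3
    have g1 : A * (ka * (1 + A) - 1) - q = ka * A ^ 2 + (ka - 1) * A - q := by ring
    have g2 : η ≤ ka * A ^ 2 + (ka - 1) * A - q := by
      rcases hA.eq_or_lt with h6 | h6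
      · rw [← h6]; exact e4
      · -- concavity
        have hpos : 0 < D - (ka - 1) := by linarith
        have e6 : (D - (ka - 1)) * (ka * A ^ 2 + (ka - 1) * A - q)
            = (D - A) * (ka * (ka - 1) ^ 2 + (ka - 1) * (ka - 1) - q)
              + (A - (ka - 1)) * (ka * D ^ 2 + (ka - 1) * D - q)
              + (-ka) * (A - (ka - 1)) * (D - A) * (D - (ka - 1)) := by ring
        have e7 : 0 ≤ (-ka) * (A - (ka - 1)) * (D - A) * (D - (ka - 1)) := by
          have a1 : 0 ≤ -ka := by linarith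
          have a2 : 0 ≤ A - (ka - 1) := by linarith
          have a3 : 0 ≤ D - A := by linarith
          positivity
        have e8 : (D - A) * η ≤ (D - A) * (ka * (ka - 1) ^ 2 + (ka - 1) * (ka - 1) - q) :=
          mul_le_mul_of_nonneg_left e4 (by linarith)
        have e9 : (A - (ka - 1)) * η ≤ (A - (ka - 1)) * (ka * D ^ 2 + (ka - 1) * D - q) :=
          mul_le_mul_of_nonneg_left e5 (by linarith)
        have e10 : (D - (ka - 1)) * η ≤ (D - (ka - 1)) * (ka * A ^ 2 + (ka - 1) * A - q) := by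
          nlinarith
        exact le_of_mul_le_mul_left e10 hpos
    have g3 : 0 ≤ ka * (1 + A) := mul_nonneg_of_nonpos_of_nonpos h1 (by linarith)
    have g4 : η * (-1) ≤ η * (ka * (1 + A) - 1) := mul_le_mul_of_nonneg_left (by linarith) hη0.le
    have g5 : (A + η) * (ka * (1 + A) - 1)
      = A * (ka * (1 + A) - 1) + η * (ka * (1 + A) - 1) := by ring
    rw [g5]
    linarith
  · -- a4
    have hAne : A ≠ 0 := hA0.ne
    have g1 : A * (kb * (1 + q / A) - 1) - q = (kb - 1) * (A + q) := by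
      field_simp; ring
    have g2 : (kb - 1) * (D + q) ≤ (kb - 1) * (A + q) :=
      mul_le_mul_of_nonpos_left (by linarith) (by linarith)
    have g3 : 0 ≤ kb * (1 + q / A) := mul_nonneg h3.le hB0.le
    have g4 : η * (-1) ≤ η * (kb * (1 + q / A) - 1) :=
      mul_le_mul_of_nonneg_left (by linarith) hη0.le
    have g5 : (A + η) * (kb * (1 + q / A) - 1)
      = A * (kb * (1 + q / A) - 1) + η * (kb * (1 + q / A) - 1) := by ring
    rw [g5]
    linarith

/-- the chain of intervals -/
theorem chain (h : KB q ka kb) (hc : (kb - 1) ^ 2 ≤ q) {D : ℝ} (hD1 : D < -1) (hDq : D < -q)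
    (hG : 0 < D ^ 2 - (ka - 1) * D - q * ka) (hF : 0 < ka * D ^ 2 + (ka - 1) * D - q)
    (hgood : ∀ A, D < A → A < 0 → ∀ z ∈ Set.Icc A (q / A),
      ∀ v ∈ Set.Icc (ka - 1) (kb - 1), Good q v z) :
    ∃ (N : ℕ) (A : ℕ → ℝ), A 0 = ka - 1 ∧
      (∀ i ≤ N, A i ≤ q / A i ∧ A i < 0) ∧
      (∀ i < N, A i ≤ A (i + 1)) ∧
      (∀ i < N, ∀ k ∈ Set.Icc (ka - 1) (kb - 1), ∀ z ∈ Set.Icc (A i) (q / A i),
        (1 + k) * (1 + z) - 1 ∈ Set.Icc (A (i + 1)) (q / A (i + 1)) ∧
        k * z / (q + k + z) ∈ Set.Icc (A (i + 1)) (q / A (i + 1))) ∧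
      (∀ z ∈ Set.Icc (A N) (q / A N), ∀ v ∈ Set.Icc (ka - 1) (kb - 1), Good q v z) := by
  have hq0 := h.q0
  have hkm : ka - 1 < 0 := by linarith [h.a0]
  have hq2 : q / (ka - 1) = kb - 1 := by
    rw [div_eq_iff hkm.ne]; linarith [h.e]
  obtain ⟨η, hη, hpr⟩ := progress h hD1 hDq hG hF
  have hs0 : 0 ≤ Real.sqrt q := Real.sqrt_nonneg q
  have hs1 : Real.sqrt q * Real.sqrt q = q := Real.mul_self_sqrt hq0.le
  have hDs : D < -Real.sqrt q := by
    rcases le_or_gt (Real.sqrt q) 1 with h1 | h1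
    · linarith
    · have : Real.sqrt q < q := by nlinarith
      linarith
  set ε := min η (-Real.sqrt q - D) with hε
  have hε0 : 0 < ε := lt_min hη (by linarith)
  have hex : ∃ i : ℕ, D < ka - 1 + i * ε := by
    obtain ⟨i, hi⟩ := exists_nat_gt ((D - (ka - 1)) / ε)
    refine ⟨i, ?_⟩
    rw [div_lt_iff₀ hε0] at hi
    linarith
  classical
  set N := Nat.find hex with hN
  have hlt : ∀ i < N, ka - 1 + i * ε ≤ D := by
    intro i hi
    have := Nat.find_min hex hi
    push Not at this
    exact this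
  have hbd : ∀ i < N, ka - 1 + ((i + 1 : ℕ) : ℝ) * ε ≤ -Real.sqrt q := by
    intro i hi
    have h1 := hlt i hi
    have h2 : ε ≤ -Real.sqrt q - D := min_le_right _ _
    push_cast
    linarith
  have hneg : ∀ i ≤ N, (ka - 1 + (i : ℝ) * ε ≤ q / (ka - 1 + (i : ℝ) * ε)) ∧
      ka - 1 + (i : ℝ) * ε < 0 := by
    intro i hi
    rcases i with _ | i
    · simp only [Nat.cast_zero, zero_mul, add_zero]
      refine ⟨?_, hkm⟩
      rw [hq2]
      have := h.e
      nlinarith [h.b1]
    · have h1 := hbd i (Nat.lt_of_succ_le hi)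
      have hsp : 0 < Real.sqrt q := Real.sqrt_pos.2 hq0
      have h2 : ka - 1 + ((i + 1 : ℕ) : ℝ) * ε < 0 := by linarith
      refine ⟨?_, h2⟩
      rw [le_div_iff_of_neg h2]
      nlinarith
  refine ⟨N, fun i => ka - 1 + i * ε, by simp, hneg, ?_, ?_, ?_⟩
  · intro i _
    push_cast
    nlinarith
  · intro i hi k hk z hz
    have hAD := hlt i hi
    have hkA : ka - 1 ≤ ka - 1 + i * ε := by
      have : (0 : ℝ) ≤ i * ε := by positivity
      linarith
    obtain ⟨p1, p2, p3, p4⟩ := hpr _ hkA hAD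
    have hT := (hneg (i + 1) hi).2
    have heq : ka - 1 + ((i + 1 : ℕ) : ℝ) * ε = (ka - 1 + i * ε) + ε := by push_cast; ring
    simp only [] at hz ⊢
    rw [heq] at hT ⊢
    set A := ka - 1 + (i : ℝ) * ε with hA
    have hεη : ε ≤ η := min_le_left _ _
    have hA1 : A < -1 := by linarith
    have hAq : A < -q := by linarith
    have hA0 : A < 0 := by linarith
    have hB0 : 0 < 1 + q / A := by
      have : -1 < q / A := by rw [lt_div_iff_of_neg hA0]; linarith
      linarith
    have hB1 : q / A < 0 := div_neg_of_pos_of_neg hq0 hA0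
    have n3 : ka * (1 + A) - 1 ≤ 0 := by nlinarith [h.a0, h.a1, h.b0, h.b1]
    have n4 : kb * (1 + q / A) - 1 ≤ 0 := by nlinarith [h.a0, h.a1, h.b0, h.b1]
    refine step h hA1 hAq hT (by linarith) (by linarith) ?_ ?_ hk hz
    · have : (A + η) * (ka * (1 + A) - 1) ≤ (A + ε) * (ka * (1 + A) - 1) :=
        mul_le_mul_of_nonpos_right (by linarith) n3
      linarith
    · have : (A + η) * (kb * (1 + q / A) - 1) ≤ (A + ε) * (kb * (1 + q / A) - 1) :=
        mul_le_mul_of_nonpos_right (by linarith) n4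
      linarith
  · exact hgood _ (Nat.find_spec hex) (hneg N le_rfl).2

/-- the same with names for the end points -/
theorem chain' (h : KB q ka kb) {km kp : ℝ} (e1 : ka - 1 = km) (e2 : kb - 1 = kp)
    (hc : kp ^ 2 ≤ q) {D : ℝ} (hD1 : D < -1) (hDq : D < -q)
    (hG : 0 < D ^ 2 - (ka - 1) * D - q * ka) (hF : 0 < ka * D ^ 2 + (ka - 1) * D - q)
    (hgood : ∀ A, D < A → A < 0 → ∀ z ∈ Set.Icc A (q / A),
      ∀ v ∈ Set.Icc km kp, Good q v z) :
    ∃ (N : ℕ) (A : ℕ → ℝ), A 0 = km ∧
      (∀ i ≤ N, A i ≤ q / A i ∧ A i < 0) ∧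
      (∀ i < N, A i ≤ A (i + 1)) ∧
      (∀ i < N, ∀ k ∈ Set.Icc km kp, ∀ z ∈ Set.Icc (A i) (q / A i),
        (1 + k) * (1 + z) - 1 ∈ Set.Icc (A (i + 1)) (q / A (i + 1)) ∧
        k * z / (q + k + z) ∈ Set.Icc (A (i + 1)) (q / A (i + 1))) ∧
      (∀ z ∈ Set.Icc (A N) (q / A N), ∀ v ∈ Set.Icc km kp, Good q v z) := by
  subst e1 e2
  exact chain h hc hD1 hDq hG hF hgood

end DynAux

open DynAux

theorem dyn {q c : ℝ} (hq : InR q) (hc1 : cb q ≤ c) (hc0 : c < 0)
    (hp : 0 < c ^ 3 - 2 * q * c - q ^ 2) :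
    KK q (q / c) c ∧ ∃ (N : ℕ) (A : ℕ → ℝ), A 0 = q / c ∧
      (∀ i ≤ N, A i ≤ q / A i ∧ A i < 0) ∧
      (∀ i < N, A i ≤ A (i + 1)) ∧
      (∀ i < N, ∀ k ∈ Set.Icc (q / c) c, ∀ z ∈ Set.Icc (A i) (q / A i),
        (1 + k) * (1 + z) - 1 ∈ Set.Icc (A (i + 1)) (q / A (i + 1)) ∧
        k * z / (q + k + z) ∈ Set.Icc (A (i + 1)) (q / A (i + 1))) ∧
      (∀ z ∈ Set.Icc (A N) (q / A N), ∀ v ∈ Set.Icc (q / c) c, Good q v z) := by
  obtain ⟨h, h2, h3⟩ := kb_of hq hc1 hc0 hp
  have hq0 := h.q0
  have e1 : (1 + q / c) - 1 = q / c := by ring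
  have e2 : (1 + c) - 1 = c := by ring
  have hq1 : q ≠ 1 := by rcases hq with h | h <;> [exact h.2.ne; exact h.1.ne']
  constructor
  · have := kk_of h hq1 (by rw [e2]; exact h2) (by rw [e2]; exact h3)
    rwa [e1, e2] at this
  · have hKB := h
    obtain ⟨_, he, ha0, ha1, hb0, hb1, hab⟩ := h
    set ka := 1 + q / c with hka
    set kb := 1 + c with hkb
    have hqc : q / c = ka - 1 := by rw [hka]; ring
    have hcc : c = kb - 1 := by rw [hkb]; ring
    have hab2 : ka + kb = ka * kb + 1 - q := by linarith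
    rcases hq with ⟨q0, q1⟩ | ⟨q0, q1⟩
    · -- q < 1
      rcases ha0.eq_or_lt with hz | hneg
      · -- ka = 0
        refine ⟨0, fun _ => q / c, rfl, ?_, by simp, by simp, ?_⟩
        · intro i _
          have hkm : q / c < 0 := div_neg_of_pos_of_neg hq0 hc0
          refine ⟨?_, hkm⟩
          have : q / (q / c) = c := by field_simp
          rw [this, div_le_iff_of_neg hc0]
          nlinarith
        · intro z hz' v hv
          have : q / (q / c) = c := by field_simp
          simp only [this] at hz'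
          refine ⟨fun _ => ?_, fun h => by linarith⟩
          have a1 : 0 ≤ 1 + z := by have := hz'.1; linarith
          have a2 : 0 ≤ 1 + v := by have := hv.1; linarith
          have a3 : 1 + z ≤ kb := by have := hz'.2; linarith
          have a4 : 1 + v ≤ kb := by have := hv.2; linarith
          have a5 : kb = 1 - q := by rw [hz] at hab2; linarith
          have a6 : (1 + v) * (1 + z) ≤ kb * kb := mul_le_mul a4 a3 a1 hb0.le
          nlinarith
      · -- ka < 0
        have hkane : ka ≠ 0 := hneg.ne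
        have hD : (1 + ((1 - q) / ka - 1)) * ka = 1 - q := by
          rw [show 1 + ((1 - q) / ka - 1) = (1 - q) / ka by ring, div_mul_cancel₀ _ hkane]
        set D := (1 - q) / ka - 1 with hDdef
        have hD1 : D < -1 := by
          have : (1 - q) / ka < 0 := div_neg_of_pos_of_neg (by linarith) hneg
          linarith
        have hDq : D < -q := by linarith
        have hD0 : D < 0 := by linarith
        -- D * (1 - q - kb) = q * kb
        have hDB : D * (1 - q - kb) = q * kb := by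
          have e3 : ka * (D * (1 - q - kb)) = ka * (q * kb) := by
            have e4 : ka * D = 1 - q - ka := by linarith
            calc ka * (D * (1 - q - kb)) = (ka * D) * (1 - q - kb) := by ring
              _ = (1 - q - ka) * (1 - q - kb) := by rw [e4]
              _ = (1 - q) ^ 2 - (1 - q) * (ka + kb) + ka * kb := by ring
              _ = ka * (q * kb) := by rw [hab2]; ring
          exact mul_left_cancel₀ hneg.ne e3
        refine chain' hKB e1 e2 h2 hD1 hDq ?_ ?_ ?_
        · -- G(D) > 0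
          have e3 : (ka * kb) * (D ^ 2 - (ka - 1) * D - q * ka)
              = D * ((1 - q) * (kb - ka ^ 2)) := by
            have e4 : ka * D = 1 - q - ka := by linarith
            have e5 : q * kb = D * (1 - q - kb) := hDB.symm
            calc (ka * kb) * (D ^ 2 - (ka - 1) * D - q * ka)
                = kb * D * (ka * D) - (ka - 1) * kb * (ka * D) - ka ^ 2 * (q * kb) := by ring
              _ = kb * D * (1 - q - ka) - (ka - 1) * kb * (ka * D)
                  - ka ^ 2 * (D * (1 - q - kb)) := by rw [e4, e5, ← e4]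
              _ = D * ((1 - q) * (kb - ka ^ 2)) := by ring
          have e6 : ka * kb < 0 := mul_neg_of_neg_of_pos hneg hb0
          have e7 : D * ((1 - q) * (kb - ka ^ 2)) < 0 :=
            mul_neg_of_neg_of_pos hD0 (mul_pos (by linarith) (by linarith))
          by_contra hcon
          push Not at hcon
          have := mul_nonneg_of_nonpos_of_nonpos e6.le hcon
          linarith
        · have e4 : ka * D = 1 - q - ka := by linarith
          have e5 : ka * D ^ 2 + (ka - 1) * D - q = -q * (1 + D) := by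
            have : ka * D ^ 2 = (ka * D) * D := by ring
            rw [this, e4]
            ring
          rw [e5]
          nlinarith
        · intro A hA hA0 z hz v hv
          refine ⟨fun _ => ?_, fun h => by linarith⟩
          have a3 : 1 + v ≤ kb := by have := hv.2; linarith
          have a4 : ka ≤ 1 + v := by have := hv.1; linarith
          rcases le_or_gt 0 (1 + z) with h6 | h6
          · have a5 : (1 + v) * (1 + z) ≤ kb * (1 + z) := mul_le_mul_of_nonneg_right a3 h6
            -- kb (1+z) < 1 - q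
            have a6 : z ≤ q / A := hz.2
            have a7 : q / A < q / D := by
              rw [div_eq_mul_inv, div_eq_mul_inv]
              exact mul_lt_mul_of_pos_left ((inv_lt_inv_of_neg hA0 hD0).2 hA) hq0
            have a8 : kb * (1 + q / D) = 1 - q := by
              have a81 : kb * (1 + q / D) * D = (1 - q) * D := by
                have a80 : (1 + q / D) * D = D + q := by
                  rw [add_mul, div_mul_cancel₀ _ hD0.ne, one_mul]
                rw [mul_assoc, a80]
                linarith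
              exact mul_right_cancel₀ hD0.ne a81
            have a9 : kb * (1 + z) < kb * (1 + q / D) :=
              mul_lt_mul_of_pos_left (by linarith) hb0
            linarith
          · have a5 : (1 + v) * (1 + z) ≤ ka * (1 + z) :=
              mul_le_mul_of_nonpos_right a4 h6.le
            have a6 : D < z := lt_of_lt_of_le hA hz.1
            have a9 : ka * (1 + z) < ka * (1 + D) :=
              mul_lt_mul_of_neg_left (by linarith) hneg
            linarith [mul_comm (1 + D) ka]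
    · -- q > 1
      have hneg : ka < 0 := by
        have h5 : -c < q := by
          have : -1 < c := by linarith
          linarith
        have : q / c < -1 := by
          rw [div_lt_iff_of_neg hc0]; linarith
        linarith
      have hkbne : kb ≠ 0 := hb0.ne'
      have hD : (1 + ((1 - q) / kb - 1)) * kb = 1 - q := by
        rw [show 1 + ((1 - q) / kb - 1) = (1 - q) / kb by ring, div_mul_cancel₀ _ hkbne]
      set D := (1 - q) / kb - 1 with hDdef
      have hDq : D < -q := by
        have : (1 - q) / kb < 1 - q := by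
          rw [div_lt_iff₀ hb0]; nlinarith
        linarith
      have hD1 : D < -1 := by linarith
      have hD0 : D < 0 := by linarith
      have hDB : D * (1 - q - ka) = q * ka := by
        have e3 : kb * (D * (1 - q - ka)) = kb * (q * ka) := by
          have e4 : kb * D = 1 - q - kb := by linarith
          calc kb * (D * (1 - q - ka)) = (kb * D) * (1 - q - ka) := by ring
            _ = (1 - q - kb) * (1 - q - ka) := by rw [e4]
            _ = (1 - q) ^ 2 - (1 - q) * (ka + kb) + ka * kb := by ring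
            _ = kb * (q * ka) := by rw [hab2]; ring
        exact mul_left_cancel₀ hb0.ne' e3
      refine chain' hKB e1 e2 h2 hD1 hDq ?_ ?_ ?_
      · have e3 : D ^ 2 - (ka - 1) * D - q * ka = D * (D + q) := by
          rw [← hDB]; ring
        rw [e3]
        exact mul_pos_of_neg_of_neg hD0 (by linarith)
      · have e4 : kb * D = 1 - q - kb := by linarith
        -- kb * ka * Fq(D) = ...
        have e3 : (kb * ka) * (ka * D ^ 2 + (ka - 1) * D - q)
            = D * ((1 - q) * (ka ^ 2 - kb)) := by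
          have e5 : q * ka = D * (1 - q - ka) := hDB.symm
          calc (kb * ka) * (ka * D ^ 2 + (ka - 1) * D - q)
              = ka ^ 2 * D * (kb * D) + ka * (ka - 1) * (kb * D) - kb * (q * ka) := by ring
            _ = ka ^ 2 * D * (1 - q - kb) + ka * (ka - 1) * (kb * D)
                - kb * (D * (1 - q - ka)) := by rw [e4, e5, ← e4]
            _ = D * ((1 - q) * (ka ^ 2 - kb)) := by ring
        have e6 : kb * ka < 0 := mul_neg_of_pos_of_neg hb0 hneg
        have e7 : D * ((1 - q) * (ka ^ 2 - kb)) < 0 :=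
          mul_neg_of_neg_of_pos hD0 (mul_pos_of_neg_of_neg (by linarith) (by linarith))
        by_contra hcon
        push Not at hcon
        have := mul_nonneg_of_nonpos_of_nonpos e6.le hcon
        linarith
      · intro A hA hA0 z hz v hv
        refine ⟨fun h => by linarith, fun _ => ?_⟩
        have a3 : 1 + v ≤ kb := by have := hv.2; linarith
        have a4 : ka ≤ 1 + v := by have := hv.1; linarith
        rcases le_or_gt 0 (1 + z) with h6 | h6
        · have a5 : ka * (1 + z) ≤ (1 + v) * (1 + z) := mul_le_mul_of_nonneg_right a4 h6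
          have a6 : z ≤ q / A := hz.2
          have a7 : q / A < q / D := by
            rw [div_eq_mul_inv, div_eq_mul_inv]
            exact mul_lt_mul_of_pos_left ((inv_lt_inv_of_neg hA0 hD0).2 hA) hq0
          have a8 : ka * (1 + q / D) = 1 - q := by
            have a81 : ka * (1 + q / D) * D = (1 - q) * D := by
              have a80 : (1 + q / D) * D = D + q := by
                rw [add_mul, div_mul_cancel₀ _ hD0.ne, one_mul]
              rw [mul_assoc, a80]
              linarith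
            exact mul_right_cancel₀ hD0.ne a81
          have a9 : ka * (1 + q / D) < ka * (1 + z) :=
            mul_lt_mul_of_neg_left (by linarith) hneg
          linarith
        · have a5 : kb * (1 + z) ≤ (1 + v) * (1 + z) :=
            mul_le_mul_of_nonpos_right a3 h6.le
          have a6 : D < z := lt_of_lt_of_le hA hz.1
          have a9 : kb * (1 + D) < kb * (1 + z) :=
            mul_lt_mul_of_pos_left (by linarith) hb0
          linarith [mul_comm (1 + D) kb]

/-- the basic interval is good from the start -/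
theorem dyn_base {q : ℝ} (hq : InR q) :
    cb q < 0 ∧ 0 < (cb q) ^ 3 - 2 * q * (cb q) - q ^ 2 ∧
      ∀ z ∈ Set.Icc (q / cb q) (cb q), ∀ v ∈ Set.Icc (q / cb q) (cb q), Good q v z := by
  rcases hq with ⟨q0, q1⟩ | ⟨q0, q1⟩
  · have hcb : cb q = -q := by unfold cb; rw [if_pos q1]
    rw [hcb]
    refine ⟨by linarith, ?_, ?_⟩
    · have : (-q) ^ 3 - 2 * q * (-q) - q ^ 2 = q ^ 2 * (1 - q) := by ring
      rw [this]
      exact mul_pos (by positivity) (by linarith)
    · intro z hz v hv
      have e : q / -q = -1 := by field_simp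
      rw [e] at hz hv
      refine ⟨fun _ => ?_, fun h => by linarith⟩
      have a1 : (1 + v) * (1 + z) ≤ (1 - q) * (1 - q) :=
        mul_le_mul (by linarith [hv.2]) (by linarith [hz.2]) (by linarith [hz.1]) (by linarith)
      nlinarith
  · have hcb : cb q = (3 * q - 8) / 5 := by unfold cb; rw [if_neg (by linarith)]
    have hc0 : cb q < 0 := by rw [hcb]; linarith
    have hp : 0 < (cb q) ^ 3 - 2 * q * (cb q) - q ^ 2 := by
      have : (cb q) ^ 3 - 2 * q * (cb q) - q ^ 2
          = (q - 1) * ((32 - 27 * q) * (16 - q)) / 125 := by rw [hcb]; ring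
      rw [this]
      have h1 : 0 < q - 1 := by linarith
      have h2 : 0 < 32 - 27 * q := by linarith
      have h3 : 0 < 16 - q := by linarith
      positivity
    refine ⟨hc0, hp, ?_⟩
    intro z hz v hv
    refine ⟨fun h => by linarith, fun _ => ?_⟩
    obtain ⟨⟨_, he, ha0, ha1, hb0, hb1, hab⟩, _, _⟩ :=
      kb_of (Or.inr ⟨q0, q1⟩) le_rfl hc0 hp
    have hcne : cb q ≠ 0 := hc0.ne
    have hk : 1 - q < (1 + q / cb q) * (1 + cb q) := by
      have e1 : (1 + q / cb q) * (1 + cb q) - (1 - q) = ((cb q) ^ 2 + 2 * q * cb q + q) / cb q := by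
        field_simp; ring
      have e2 : (cb q) ^ 2 + 2 * q * cb q + q = (39 * q - 64) * (q - 1) / 25 := by
        rw [hcb]; ring
      have e3 : (cb q) ^ 2 + 2 * q * cb q + q < 0 := by
        rw [e2]
        have : (39 * q - 64) * (q - 1) < 0 := mul_neg_of_neg_of_pos (by linarith) (by linarith)
        linarith
      have e4 : 0 < ((cb q) ^ 2 + 2 * q * cb q + q) / cb q := div_pos_of_neg_of_neg e3 hc0
      linarith
    set ka := 1 + q / cb q with hka
    set kb := 1 + cb q with hkb
    have b1 : ka ≤ 1 + v := by linarith [hv.1]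
    have b2 : 1 + v ≤ kb := by linarith [hv.2]
    have b3 : ka ≤ 1 + z := by linarith [hz.1]
    have b4 : 1 + z ≤ kb := by linarith [hz.2]
    have b5 : ka * kb ≤ (1 + v) * (1 + z) := by
      rcases le_or_gt 0 (1 + v) with h6 | h6 <;> rcases le_or_gt 0 (1 + z) with h7 | h7
      · have c1 : 0 ≤ (1 + v) * (1 + z) := mul_nonneg h6 h7
        have c2 : ka * kb ≤ 0 := mul_nonpos_of_nonpos_of_nonneg ha0 hb0.le
        linarith
      · have c1 : kb * (1 + z) ≤ (1 + v) * (1 + z) := mul_le_mul_of_nonpos_right b2 h7.le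
        have c2 : kb * ka ≤ kb * (1 + z) := mul_le_mul_of_nonneg_left b3 hb0.le
        linarith [mul_comm ka kb]
      · have c1 : ka * (1 + z) ≤ (1 + v) * (1 + z) := mul_le_mul_of_nonneg_right b1 h7
        have c2 : ka * kb ≤ ka * (1 + z) := mul_le_mul_of_nonpos_left b4 ha0
        linarith
      · have c1 : 0 < (1 + v) * (1 + z) := mul_pos_of_neg_of_neg h6 h7
        have c2 : ka * kb ≤ 0 := mul_nonpos_of_nonpos_of_nonneg ha0 hb0.le
        linarith
    linarith

theorem mid_exists {q : ℝ} (hq : InR q) :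
    ∃ v, IsMid q v ∧ cb q < v ∧ v < 0 ∧
      ∀ c, cb q ≤ c → c < v → 0 < c ^ 3 - 2 * q * c - q ^ 2 := by
  obtain ⟨h1, h2, _⟩ := dyn_base hq
  have hq0 : 0 < q := by rcases hq with h | h <;> linarith [h.1]
  have hq2 : q < 2 := by rcases hq with h | h <;> linarith [h.2]
  have hcb : -10 < cb q := by
    unfold cb
    split_ifs <;> linarith
  have hcont : Continuous (fun x : ℝ => x ^ 3 - 2 * q * x - q ^ 2) := by fun_prop
  obtain ⟨v, hv, hv0⟩ := intermediate_value_Ioo' (le_of_lt h1)
    (f := fun x : ℝ => x ^ 3 - 2 * q * x - q ^ 2) hcont.continuousOn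
    (show (0 : ℝ) ∈ Set.Ioo _ _ from
      ⟨show (0 : ℝ) ^ 3 - 2 * q * 0 - q ^ 2 < 0 by nlinarith, h2⟩)
  obtain ⟨u, hu, hu0⟩ := intermediate_value_Ioo (le_of_lt hcb)
    (f := fun x : ℝ => x ^ 3 - 2 * q * x - q ^ 2) hcont.continuousOn
    (show (0 : ℝ) ∈ Set.Ioo _ _ from
      ⟨show (-10 : ℝ) ^ 3 - 2 * q * (-10) - q ^ 2 < 0 by nlinarith, h2⟩)
  obtain ⟨w, hw, hw0⟩ := intermediate_value_Ioo (show (0 : ℝ) ≤ 10 by norm_num)
    (f := fun x : ℝ => x ^ 3 - 2 * q * x - q ^ 2) hcont.continuousOn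
    (show (0 : ℝ) ∈ Set.Ioo _ _ from
      ⟨show (0 : ℝ) ^ 3 - 2 * q * 0 - q ^ 2 < 0 by nlinarith,
        show 0 < (10 : ℝ) ^ 3 - 2 * q * 10 - q ^ 2 by nlinarith⟩)
  beta_reduce at hv0 hu0 hw0
  have huv : u < v := hu.2.trans hv.1
  have hvw : v < w := hv.2.trans hw.1
  refine ⟨v, ⟨hv0, ⟨u, huv, hu0⟩, ⟨w, hvw, hw0⟩⟩, hv.1, hv.2, fun c hc hcv => ?_⟩
  have e1 : u ^ 2 + u * v + v ^ 2 = 2 * q := by
    have : (u - v) * (u ^ 2 + u * v + v ^ 2 - 2 * q) = 0 := by linarith
    rcases mul_eq_zero.1 this with h | h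
    · linarith
    · linarith
  have e2 : ∀ x : ℝ, x ^ 3 - 2 * q * x - q ^ 2 = (x - u) * ((x - v) * (x + u + v)) := by
    intro x
    have e3 : q ^ 2 = u ^ 3 - 2 * q * u := by linarith
    rw [e3, ← e1]; ring
  have e4 : w = -(u + v) := by
    have h3 := e2 w
    rw [hw0] at h3
    rcases mul_eq_zero.1 h3.symm with h | h
    · linarith
    · rcases mul_eq_zero.1 h with h | h
      · linarith
      · linarith
  rw [e2 c]
  have : u < c := lt_of_lt_of_le hu.2 hc
  exact mul_pos (by linarith) (mul_pos_of_neg_of_neg (by linarith) (by linarith))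

end Pool.Agent.H194R2.JS
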