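import Pool.Agent.H194R2.JS.Thresh

/-! From thresholds to nested self-dual intervals. -/

namespace Pool.Agent.H194R2.JS

open Finset Filter Topology

/-- a slowly growing index function -/
theorem slow (M : ℕ → ℕ) : ∃ f : ℕ → ℕ, Monotone f ∧ Tendsto f atTop atTop ∧
    ∀ m, f m = 0 ∨ M (f m) ≤ m := by
  classical
  let P : ℕ → ℕ → Prop := fun m i => ∀ i' ≤ i, 1 ≤ i' → M i' ≤ m
  have hP0 : ∀ m, P m 0 := fun m i' h1 h2 => by omega
  have hspec : ∀ m, P m (Nat.findGreatest (P m) m) := fun m =>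
    Nat.findGreatest_spec (Nat.zero_le m) (hP0 m)
  refine ⟨fun m => Nat.findGreatest (P m) m, ?_, ?_, ?_⟩
  · refine monotone_nat_of_le_succ ?_
    intro m
    refine Nat.le_findGreatest ((Nat.findGreatest_le m).trans (Nat.le_succ m)) ?_
    intro i' h1 h2
    exact (hspec m i' h1 h2).trans (Nat.le_succ m)
  · rw [tendsto_atTop]
    intro b
    rw [eventually_atTop]
    refine ⟨b + ∑ i ∈ range (b + 1), M i, ?_⟩
    intro m hm
    refine Nat.le_findGreatest (by omega) ?_
    intro i' h1 _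
    have : M i' ≤ ∑ i ∈ range (b + 1), M i :=
      single_le_sum (f := M) (fun _ _ => Nat.zero_le _) (mem_range.2 (by omega))
    omega
  · intro m
    rcases Nat.eq_zero_or_pos (Nat.findGreatest (P m) m) with h | h
    · exact Or.inl h
    · exact Or.inr (hspec m _ le_rfl h)

theorem cb_sq {q : ℝ} (hq : InR q) : -cb q * -cb q < q := by
  unfold cb
  rcases hq with ⟨h0, h1⟩ | ⟨h1, h2⟩
  · rw [if_pos h1]; nlinarith
  · rw [if_neg (by linarith)]; nlinarith

/-- nested self-dual intervals filling the interval -/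
theorem intervals {q : ℝ} (hq : InR q) : ∃ vp : ℝ, IsMid q vp ∧ vp < 0 ∧
    ∃ lo hi : ℕ → ℝ,
      (∀ m, lo m < hi m ∧ lo (m + 1) ≤ lo m ∧ hi m ≤ hi (m + 1) ∧
        ∀ v ∈ Set.Icc (lo m) (hi m), q / v ∈ Set.Icc (lo m) (hi m)) ∧
      Tendsto lo atTop (𝓝 (q / vp)) ∧ Tendsto hi atTop (𝓝 vp) ∧
      ∀ m, ∀ (V E : Type) [Fintype V] [DecidableEq V] [Fintype E] [DecidableEq E]
        (en : E → V × V) (S : Finset E) (wt : E → ℝ), TC en S → m ≤ S.card →
        (∀ e ∈ S, wt e ∈ Set.Icc (lo m) (hi m)) →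
        0 < (-1 : ℝ) ^ ((vs en S).card + al q) * F q en wt ∅ S := by
  have hq0 : 0 < q := by rcases hq with h | h <;> linarith [h.1]
  obtain ⟨vp, hmid, hlt, hneg, hpos⟩ := mid_exists hq
  have hcb2 := cb_sq hq
  -- the sequence of right ends
  let c : ℕ → ℝ := fun i => vp - (vp - cb q) / ((i : ℝ) + 1)
  have hc0 : c 0 = cb q := by simp [c]
  have hcmono : Monotone c := by
    refine monotone_nat_of_le_succ ?_
    intro i
    have h1 : (vp - cb q) / ((((i + 1 : ℕ)) : ℝ) + 1) ≤ (vp - cb q) / ((i : ℝ) + 1) := by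
      apply div_le_div_of_nonneg_left (by linarith) (by positivity)
      push_cast
      linarith
    show vp - (vp - cb q) / ((i : ℝ) + 1) ≤ vp - (vp - cb q) / ((((i + 1 : ℕ)) : ℝ) + 1)
    linarith
  have hccb : ∀ i, cb q ≤ c i := fun i => hc0 ▸ hcmono (Nat.zero_le i)
  have hcvp : ∀ i, c i < vp := by
    intro i
    have : 0 < (vp - cb q) / ((i : ℝ) + 1) := div_pos (by linarith) (by positivity)
    show vp - (vp - cb q) / ((i : ℝ) + 1) < vp
    linarith
  have hcneg : ∀ i, c i < 0 := fun i => (hcvp i).trans hneg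
  have hclim : Tendsto c atTop (𝓝 vp) := by
    have h1 : Tendsto (fun i : ℕ => (vp - cb q) / ((i : ℝ) + 1)) atTop (𝓝 0) := by
      have h2 := (tendsto_one_div_add_atTop_nhds_zero_nat (𝕜 := ℝ)).const_mul (vp - cb q)
      rw [mul_zero] at h2
      refine h2.congr ?_
      intro i
      ring
    have h3 := h1.const_sub vp
    rw [sub_zero] at h3
    exact h3
  -- thresholds
  have hM : ∀ i, ∃ m : ℕ, ∀ (V E : Type) [Fintype V] [DecidableEq V] [Fintype E]
      [DecidableEq E] (en : E → V × V) (S : Finset E) (wt : E → ℝ), TC en S → m ≤ S.card →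
      (∀ e ∈ S, wt e ∈ Set.Icc (q / c i) (c i)) →
      0 < (-1 : ℝ) ^ ((vs en S).card + al q) * F q en wt ∅ S :=
    fun i => thresh hq (hccb i) (hcneg i) (hpos _ (hccb i) (hcvp i))
  choose M hM using hM
  obtain ⟨f, hf1, hf2, hf3⟩ := slow M
  refine ⟨vp, hmid, hneg, fun m => q / c (f m), fun m => c (f m), ?_, ?_, ?_, ?_⟩
  · intro m
    have hcm := hcneg (f m)
    have hsq : c (f m) * c (f m) < q := by
      have := hccb (f m)
      nlinarith
    refine ⟨?_, ?_, hcmono (hf1 (Nat.le_succ m)), ?_⟩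
    · show q / c (f m) < c (f m)
      rw [div_lt_iff_of_neg hcm]
      exact hsq
    · show q / c (f (m + 1)) ≤ q / c (f m)
      have h1 := hcmono (hf1 (Nat.le_succ m))
      have h2 := hcneg (f (m + 1))
      have h3 : q / (-c (f m)) ≤ q / (-c (f (m + 1))) :=
        div_le_div_of_nonneg_left hq0.le (by linarith) (by simpa using h1)
      rw [div_neg, div_neg] at h3
      linarith
    · rintro v ⟨hv1, hv2⟩
      have hv0 : v < 0 := lt_of_le_of_lt hv2 hcm
      rw [div_le_iff_of_neg hcm] at hv1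
      constructor
      · show q / c (f m) ≤ q / v
        rw [div_le_iff_of_neg hcm, div_mul_eq_mul_div, div_le_iff_of_neg hv0]
        nlinarith
      · show q / v ≤ c (f m)
        rw [div_le_iff_of_neg hv0]
        linarith
  · exact Tendsto.div tendsto_const_nhds (hclim.comp hf2) hneg.ne
  · exact hclim.comp hf2
  · intro m V E _ _ _ _ en S wt hT hmS hw
    rcases hf3 m with h | h
    · have hw' : ∀ e ∈ S, wt e ∈ Set.Icc (q / cb q) (cb q) := by
        intro e he
        have := hw e he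
        simp only [h, hc0] at this
        exact this
      exact thresh_base hq V E en S wt hT hw'
    · exact hM (f m) V E en S wt hT (h.trans hmS) hw

end Pool.Agent.H194R2.JS
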