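import Pool.Agent.H194R2.JS.Defs

/-!
# Module G1: the game on simple graphs, basic facts
-/

namespace Pool.Agent.H194R2.JS

open Finset

section G

set_option linter.unusedSectionVars false

variable {V : Type} [Fintype V] [DecidableEq V]
variable {G G' G1 G2 : SimpleGraph V} {Δ n m k k' R : ℕ} {W W' Y Y' P P' Z : Finset V}
  {x y v a b c d : V}

theorem win_mono (h : n ≤ m) : Win Δ W n G → Win Δ W m G := by
  induction n generalizing m G with
  | zero =>
    intro hw
    cases m with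
    | zero => exact hw
    | succ m => exact Or.inl hw
  | succ n ih =>
    intro hw
    cases m with
    | zero => omega
    | succ m =>
      rcases hw with hw | ⟨x, y, h1, h2, h3, h4, h5⟩
      · exact Or.inl hw
      · refine Or.inr ⟨x, y, h1, h2, h3, ih (by omega) h4, ?_⟩
        rcases h5 with h5 | h5
        · exact Or.inl h5
        · exact Or.inr (ih (by omega) h5)

theorem not_win_deg (h : ¬ Win Δ W n G) (v : V) : (dg G v = 0 ∨ 3 ≤ dg G v) ∧ dg G v ≤ Δ := by
  have h0 : ¬ Fin0 Δ G := by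
    intro hf
    exact h (win_mono (Nat.zero_le n) hf)
  unfold Fin0 at h0
  push Not at h0
  obtain ⟨h1, h2⟩ := h0
  have := h1 v
  have := h2 v
  omega

theorem not_win_step (h : ¬ Win Δ W (n + 1) G) (hxy : G.Adj x y) (hx : x ∉ W) (hy : y ∉ W) :
    ¬ Win Δ W n (sdel G x y) ∨
      ((∀ z, ¬ (G.Adj x z ∧ G.Adj y z)) ∧ ¬ Win Δ W n (scon G x y)) := by
  by_contra hcon
  push Not at hcon
  obtain ⟨h1, h2⟩ := hcon
  refine h (Or.inr ⟨x, y, hxy, hx, hy, h1, ?_⟩)
  by_cases h3 : ∃ z, G.Adj x z ∧ G.Adj y z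
  · exact Or.inl h3
  · push Not at h3
    exact Or.inr (h2 h3)

theorem nb_sdel_left (hxy : G.Adj x y) : nb (sdel G x y) x = (nb G x).erase y := by
  ext z
  simp only [mem_nb, mem_erase, sdel]
  constructor
  · rintro ⟨h1, h2⟩
    refine ⟨?_, h1⟩
    rintro rfl
    exact h2 (Or.inl ⟨by trivial, rfl⟩)
  · rintro ⟨h1, h2⟩
    refine ⟨h2, ?_⟩
    rintro (⟨_, h3⟩ | ⟨h3, _⟩)
    · exact h1 h3
    · exact hxy.ne h3

theorem nb_sdel_right (hxy : G.Adj x y) : nb (sdel G x y) y = (nb G y).erase x := by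
  ext z
  simp only [mem_nb, mem_erase, sdel]
  constructor
  · rintro ⟨h1, h2⟩
    refine ⟨?_, h1⟩
    rintro rfl
    exact h2 (Or.inr ⟨by trivial, rfl⟩)
  · rintro ⟨h1, h2⟩
    refine ⟨h2, ?_⟩
    rintro (⟨h3, _⟩ | ⟨_, h3⟩)
    · exact hxy.ne h3.symm
    · exact h1 h3

theorem nb_sdel_other (hx : v ≠ x) (hy : v ≠ y) : nb (sdel G x y) v = nb G v := by
  ext z
  simp only [mem_nb, sdel]
  constructor
  · rintro ⟨h1, _⟩
    exact h1
  · intro h1
    refine ⟨h1, ?_⟩
    rintro (⟨h3, _⟩ | ⟨h3, _⟩)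
    · exact hx h3
    · exact hy h3

theorem nb_scon_left (hxy : G.Adj x y) :
    nb (scon G x y) x = (nb G x).erase y ∪ (nb G y).erase x := by
  ext z
  simp only [mem_nb, mem_erase, mem_union, scon]
  constructor
  · rintro ⟨h1, _, h3, h4⟩
    rcases h4 with h | ⟨_, h⟩ | ⟨h, _⟩
    · exact Or.inl ⟨h3, h⟩
    · exact Or.inr ⟨h1.symm, h⟩
    · exact absurd h.symm h1
  · rintro (⟨h1, h2⟩ | ⟨h1, h2⟩)
    · exact ⟨h2.ne, hxy.ne, h1, Or.inl h2⟩
    · exact ⟨h1.symm, hxy.ne, h2.ne.symm, Or.inr (Or.inl ⟨by trivial, h2⟩)⟩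

theorem nb_scon_right : nb (scon G x y) y = ∅ := by
  ext z
  simp only [mem_nb, scon, notMem_empty, iff_false]
  rintro ⟨_, h2, _⟩
  exact h2 rfl

/-- (the hypothesis `x ≠ y` is needed) -/
theorem nb_scon_other (hne : x ≠ y) (hx : v ≠ x) (hy : v ≠ y) :
    nb (scon G x y) v = if y ∈ nb G v then insert x ((nb G v).erase y) else nb G v := by
  split_ifs with hyv
  · ext z
    rw [mem_nb] at hyv
    simp only [mem_nb, mem_insert, mem_erase, scon]
    constructor
    · rintro ⟨h1, _, h3, h4⟩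
      rcases h4 with h | ⟨h, _⟩ | ⟨h, _⟩
      · exact Or.inr ⟨h3, h⟩
      · exact absurd h hx
      · exact Or.inl h
    · rintro (h1 | ⟨h1, h2⟩)
      · subst h1
        exact ⟨hx, hy, hne, Or.inr (Or.inr ⟨rfl, hyv.symm⟩)⟩
      · exact ⟨h2.ne, hy, h1, Or.inl h2⟩
  · ext z
    rw [mem_nb] at hyv
    simp only [mem_nb, scon]
    constructor
    · rintro ⟨h1, _, h3, h4⟩
      rcases h4 with h | ⟨h, _⟩ | ⟨_, h⟩
      · exact h
      · exact absurd h hx
      · exact absurd h.symm hyv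
    · intro h
      refine ⟨h.ne, hy, ?_, Or.inl h⟩
      rintro rfl
      exact hyv h

theorem dg_scon_left (hxy : G.Adj x y) (hc : ∀ z, ¬ (G.Adj x z ∧ G.Adj y z)) :
    dg (scon G x y) x + 2 = dg G x + dg G y := by
  unfold dg
  rw [nb_scon_left hxy, card_union_of_disjoint]
  · have h1 : y ∈ nb G x := mem_nb.mpr hxy
    have h2 : x ∈ nb G y := mem_nb.mpr hxy.symm
    rw [card_erase_of_mem h1, card_erase_of_mem h2]
    have h3 : 0 < (nb G x).card := card_pos.mpr ⟨_, h1⟩
    have h4 : 0 < (nb G y).card := card_pos.mpr ⟨_, h2⟩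
    omega
  · rw [disjoint_left]
    intro z hz1 hz2
    exact hc z ⟨mem_nb.mp (mem_of_mem_erase hz1), mem_nb.mp (mem_of_mem_erase hz2)⟩

theorem dg_scon_other (hc : ∀ z, ¬ (G.Adj x z ∧ G.Adj y z)) (hx : v ≠ x) (hy : v ≠ y) :
    dg (scon G x y) v = dg G v := by
  unfold dg
  by_cases hne : x = y
  · subst hne
    congr 1
    ext z
    simp only [mem_nb, scon]
    constructor
    · rintro ⟨h1, _, h3, h4⟩
      rcases h4 with h | ⟨h, _⟩ | ⟨h, _⟩
      · exact h
      · exact absurd h hx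
      · exact absurd h h3
    · intro h
      refine ⟨h.ne, hx, ?_, Or.inl h⟩
      rintro rfl
      exact hc v ⟨h.symm, h.symm⟩
  · rw [nb_scon_other hne hx hy]
    split_ifs with h
    · have hxv : x ∉ nb G v := fun h' => hc v ⟨(mem_nb.mp h').symm, (mem_nb.mp h).symm⟩
      rw [card_insert_of_notMem (fun h' => hxv (mem_of_mem_erase h')), card_erase_of_mem h]
      have : 0 < (nb G v).card := card_pos.mpr ⟨_, h⟩
      omega
    · rfl

theorem Rch.mono (h : Rch Y P k G G') (hk : k ≤ k') : Rch Y P k' G G' := by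
  induction h generalizing k' with
  | refl k G => exact Rch.refl _ _
  | del k G G' x y h1 h2 h3 _ ih =>
    obtain ⟨k'', rfl⟩ : ∃ k'', k' = k'' + 1 := ⟨k' - 1, by omega⟩
    exact Rch.del _ _ _ x y h1 h2 h3 (ih (by omega))
  | con k G G' x y h1 h2 h3 h4 h5 _ ih =>
    obtain ⟨k'', rfl⟩ : ∃ k'', k' = k'' + 1 := ⟨k' - 1, by omega⟩
    exact Rch.con _ _ _ x y h1 h2 h3 h4 h5 (ih (by omega))

theorem Rch.trans (h : Rch Y P k G G1) (h' : Rch Y P k' G1 G2) : Rch Y P (k + k') G G2 := by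
  induction h with
  | refl k G => exact h'.mono (by omega)
  | del k G G' x y h1 h2 h3 _ ih =>
    have := Rch.del _ _ _ x y h1 h2 h3 (ih h')
    exact this.mono (by omega)
  | con k G G' x y h1 h2 h3 h4 h5 _ ih =>
    have := Rch.con _ _ _ x y h1 h2 h3 h4 h5 (ih h')
    exact this.mono (by omega)

theorem Rch.weaken (h : Rch Y P k G G') (hY : Y' ⊆ Y) (hP : P' ⊆ P ∪ Y) :
    Rch Y' P' k G G' := by
  induction h with
  | refl k G => exact Rch.refl _ _
  | del k G G' x y h1 h2 h3 _ ih =>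
    exact Rch.del _ _ _ x y h1 (fun h => h2 (hY h)) (fun h => h3 (hY h)) ih
  | con k G G' x y h1 h2 h3 h4 h5 _ ih =>
    refine Rch.con _ _ _ x y h1 (fun h => h2 (hY h)) (fun h => h3 (hY h)) ?_ h5 ih
    intro h
    rcases mem_union.mp (hP h) with h | h
    · exact h4 h
    · exact h3 h

theorem Rch.nb_eq (h : Rch Y P k G G') (hc : c ∈ Y) (hP : nb G c ⊆ P ∪ Y) :
    nb G' c = nb G c := by
  induction h with
  | refl k G => rfl
  | del k G G' x y h1 h2 h3 _ ih =>
    have e : nb (sdel G x y) c = nb G c :=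
      nb_sdel_other (by rintro rfl; exact h2 hc) (by rintro rfl; exact h3 hc)
    rw [ih (by rw [e]; exact hP), e]
  | con k G G' x y h1 h2 h3 h4 h5 _ ih =>
    have hy : y ∉ nb G c := by
      intro h
      rcases mem_union.mp (hP h) with h | h
      · exact h4 h
      · exact h3 h
    have e : nb (scon G x y) c = nb G c := by
      rw [nb_scon_other h1.ne (fun h => h2 (h ▸ hc)) (fun h => h3 (h ▸ hc)), if_neg hy]
    rw [ih (by rw [e]; exact hP), e]

theorem Rch.dg_eq (h : Rch Y P k G G') (hc : c ∈ Y) : dg G' c = dg G c := by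
  induction h with
  | refl k G => rfl
  | del k G G' x y h1 h2 h3 _ ih =>
    rw [ih]
    unfold dg
    rw [nb_sdel_other (by rintro rfl; exact h2 hc) (by rintro rfl; exact h3 hc)]
  | con k G G' x y h1 h2 h3 h4 h5 _ ih =>
    rw [ih, dg_scon_other h5 (fun h => h2 (h ▸ hc)) (fun h => h3 (h ▸ hc))]

theorem near_refl : Near G Y n a a := by
  cases n with
  | zero => rfl
  | succ n => exact Or.inl rfl

theorem Near.mono (h : Near G Y n a b) (hn : n ≤ m) (hY : Y' ⊆ Y) : Near G Y' m a b := by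
  induction n generalizing m a with
  | zero =>
    have : a = b := h
    subst this
    exact near_refl
  | succ n ih =>
    obtain ⟨m, rfl⟩ : ∃ m', m = m' + 1 := ⟨m - 1, by omega⟩
    rcases h with h | ⟨u, h1, h2, h3⟩
    · exact Or.inl h
    · exact Or.inr ⟨u, fun h => h1 (hY h), h2, ih h3 (by omega)⟩

/-- append an edge at the end -/
theorem near_append {u : V} (h : Near G Y n a u) (hub : G.Adj u b) (hb : b ∉ Y) :
    Near G Y (n + 1) a b := by
  induction n generalizing a with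
  | zero =>
    have : a = u := h
    subst this
    exact Or.inr ⟨b, hb, hub, near_refl⟩
  | succ n ih =>
    rcases h with h | ⟨v, h1, h2, h3⟩
    · subst h
      exact Or.inr ⟨b, hb, hub, near_refl⟩
    · exact Or.inr ⟨v, h1, h2, ih h3⟩

theorem Near.symm (h : Near G Y n a b) (ha : a ∉ Y) : Near G Y n b a := by
  induction n generalizing a with
  | zero => exact Eq.symm h
  | succ n ih =>
    rcases h with h | ⟨u, h1, h2, h3⟩
    · subst h
      exact near_refl
    · exact near_append (ih h3 h1) h2.symm ha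

/-- walks compose -/
theorem near_trans {u : V} (h : Near G Y n a u) (h' : Near G Y m u b) :
    Near G Y (n + m) a b := by
  induction n generalizing a with
  | zero =>
    have : a = u := h
    subst this
    exact h'.mono (by omega) (Subset.refl _)
  | succ n ih =>
    rcases h with h | ⟨v, h1, h2, h3⟩
    · subst h
      exact h'.mono (by omega) (Subset.refl _)
    · have : Near G Y (n + m + 1) a b := Or.inr ⟨v, h1, h2, ih h3⟩
      exact this.mono (by omega) (Subset.refl _)

theorem near_last_aux (a : V) : ∀ (n : ℕ) (s : V), Near G Y n s b →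
    Near G (insert a Y) n s b ∨ ∃ k, k < n ∧ Near G Y k a b := by
  intro n
  induction n with
  | zero =>
    intro s h
    exact Or.inl h
  | succ n ih =>
    intro s h
    rcases h with h | ⟨u, h1, h2, h3⟩
    · exact Or.inl (Or.inl h)
    · by_cases hua : u = a
      · subst hua
        exact Or.inr ⟨n, by omega, h3⟩
      · rcases ih u h3 with h | ⟨k, hk, h⟩
        · refine Or.inl (Or.inr ⟨u, ?_, h2, h⟩)
          rw [mem_insert]
          push Not
          exact ⟨hua, h1⟩
        · exact Or.inr ⟨k, by omega, h⟩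

/-- the last visit to the starting point -/
theorem Near.last (h : Near G Y n a b) (hab : a ≠ b) :
    ∃ u, u ∉ Y ∧ G.Adj a u ∧ ∃ k, k + 1 ≤ n ∧ Near G (insert a Y) k u b := by
  induction n using Nat.strong_induction_on with
  | _ n ih =>
    cases n with
    | zero => exact absurd h hab
    | succ n =>
      rcases h with h | ⟨u, h1, h2, h3⟩
      · exact absurd h hab
      · rcases near_last_aux a n u h3 with h | ⟨k, hk, h⟩
        · exact ⟨u, h1, h2, n, le_refl _, h⟩
        · obtain ⟨u', h1', h2', k', hk', h'⟩ := ih k (by omega) h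
          exact ⟨u', h1', h2', k', by omega, h'⟩

theorem near_sdel (h : Near (sdel G x y) Z n a b) : Near G Z n a b := by
  induction n generalizing a with
  | zero => exact h
  | succ n ih =>
    rcases h with h | ⟨u, h1, h2, h3⟩
    · exact Or.inl h
    · exact Or.inr ⟨u, h1, h2.1, ih h3⟩

theorem near_scon (hxy : G.Adj x y) (hx : x ∉ Z) (hy : y ∉ Z)
    (h : Near (scon G x y) Z n a b) : Near G Z (2 * n) a b := by
  induction n generalizing a with
  | zero => exact h
  | succ n ih =>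
    rcases h with h | ⟨u, h1, h2, h3⟩
    · subst h; exact near_refl
    · have h4 := ih h3
      have e : 2 * (n + 1) = 2 * n + 1 + 1 := by ring
      rw [e]
      obtain ⟨_, _, _, h5⟩ := h2
      rcases h5 with h5 | ⟨h5, h6⟩ | ⟨h5, h6⟩
      · have : Near G Z (2 * n + 1) a b := Or.inr ⟨u, h1, h5, h4⟩
        exact this.mono (by omega) (Subset.refl _)
      · subst h5
        exact Or.inr ⟨y, hy, hxy, Or.inr ⟨u, h1, h6, h4⟩⟩
      · subst h5
        exact Or.inr ⟨y, hy, h6.symm, Or.inr ⟨u, h1, hxy.symm, h4⟩⟩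

theorem Rch.near (h : Rch Y P k G G') (hZ : Z ⊆ Y) (ha : a ∈ P ∪ Y) (hb : b ∈ P ∪ Y)
    (hn : Near G' Z R a b) : Near G Z (2 ^ k * R) a b := by
  induction h with
  | refl k G =>
    refine hn.mono ?_ (Subset.refl _)
    exact Nat.le_mul_of_pos_left _ (Nat.pos_of_ne_zero (by positivity))
  | del k G G' x y h1 h2 h3 _ ih =>
    refine (near_sdel (ih hn)).mono ?_ (Subset.refl _)
    rw [pow_succ]
    nlinarith [Nat.zero_le (2 ^ k * R)]
  | con k G G' x y h1 h2 h3 h4 h5 _ ih =>
    have := near_scon h1 (fun h => h2 (hZ h)) (fun h => h3 (hZ h)) (ih hn)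
    refine this.mono ?_ (Subset.refl _)
    rw [pow_succ]
    apply le_of_eq
    ring

theorem far_mono (h : Far G W c n) (hn : m ≤ n) : Far G W c m := by
  intro u hu h1
  exact h u hu (h1.mono hn (Subset.refl _))

theorem far_sdel (h : Far G W c n) : Far (sdel G x y) W c n := by
  intro u hu h1 w hw h2
  exact h u hu (near_sdel h1) w hw h2.1

theorem far_scon (hxy : G.Adj x y) (hx : x ∉ W) (hy : y ∉ W) (hyc : y ≠ c)
    (h : Far G W c (2 * n + 1)) : Far (scon G x y) W c n := by
  intro u hu h1 w hw h2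
  have h3 := near_scon hxy hx hy h1
  obtain ⟨_, _, _, h5⟩ := h2
  rcases h5 with h5 | ⟨h5, h6⟩ | ⟨h5, h6⟩
  · exact h u hu (h3.mono (by omega) (Subset.refl _)) w hw h5
  · subst h5
    exact h y hyc (near_append h3 hxy hy) w hw h6
  · subst h5
    exact hx hw

theorem rch_far_aux (h : Rch W P k G G') (hc : c ∈ P) (hcW : c ∉ W)
    (hF : Far G W c (2 ^ k * (R + 1) - 1)) :
    Far G' W c R ∧ nb G' c ∩ W = nb G c ∩ W := by
  induction h with
  | refl k G =>
    refine ⟨far_mono hF ?_, rfl⟩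
    have : 1 ≤ 2 ^ k := Nat.one_le_two_pow
    have : 1 * (R + 1) ≤ 2 ^ k * (R + 1) := Nat.mul_le_mul_right _ this
    omega
  | del k G G' x y h1 h2 h3 _ ih =>
    have e : 2 ^ (k + 1) * (R + 1) = 2 * (2 ^ k * (R + 1)) := by rw [pow_succ]; ring
    rw [e] at hF
    obtain ⟨ih1, ih2⟩ := ih (far_sdel (far_mono hF (by omega)))
    refine ⟨ih1, ?_⟩
    rw [ih2]
    ext w
    simp only [mem_inter, mem_nb, sdel]
    constructor
    · rintro ⟨⟨h4, _⟩, h5⟩
      exact ⟨h4, h5⟩
    · rintro ⟨h4, h5⟩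
      refine ⟨⟨h4, ?_⟩, h5⟩
      rintro (⟨_, h6⟩ | ⟨_, h6⟩)
      · exact h3 (h6 ▸ h5)
      · exact h2 (h6 ▸ h5)
  | con k G G' x y h1 h2 h3 h4 h5 _ ih =>
    have e : 2 ^ (k + 1) * (R + 1) = 2 * (2 ^ k * (R + 1)) := by rw [pow_succ]; ring
    have e1 : 1 ≤ 2 ^ k * (R + 1) := Nat.one_le_iff_ne_zero.mpr (by positivity)
    have e2 : 2 ^ (k + 1) * (R + 1) - 1 = 2 * (2 ^ k * (R + 1) - 1) + 1 := by omega
    rw [e2] at hF
    have hyc : y ≠ c := fun h => h4 (h ▸ hc)
    obtain ⟨ih1, ih2⟩ := ih (far_scon h1 h2 h3 hyc hF)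
    refine ⟨ih1, ?_⟩
    rw [ih2]
    ext w
    simp only [mem_inter, mem_nb, scon]
    constructor
    · rintro ⟨⟨h6, _, h7, h8⟩, h9⟩
      refine ⟨?_, h9⟩
      rcases h8 with h8 | ⟨h8, h10⟩ | ⟨h8, h10⟩
      · exact h8
      · exfalso
        subst h8
        refine hF y hyc ?_ w h9 h10
        have : Near G W 1 c y := Or.inr ⟨y, h3, h1, rfl⟩
        exact this.mono (by omega) (Subset.refl _)
      · exact absurd (h8 ▸ h9) h2
    · rintro ⟨h6, h7⟩
      exact ⟨⟨h6.ne, hyc.symm, fun h => h3 (h ▸ h7), Or.inl h6⟩, h7⟩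

theorem Rch.far (h : Rch W P k G G') (hc : c ∈ P) (hcW : c ∉ W)
    (hF : Far G W c (2 ^ k * (R + 1))) :
    Far G' W c R ∧ nb G' c ∩ W = nb G c ∩ W :=
  rch_far_aux h hc hcW (far_mono hF (by omega))

/-- balls are finite -/
theorem near_card (hd : ∀ v, dg G v ≤ Δ) (a : V) (s : Finset V) (hs : ∀ b ∈ s, Near G Y n a b) :
    s.card ≤ (Δ + 1) ^ n := by
  classical
  induction n generalizing a s with
  | zero =>
    have : s ⊆ {a} := by
      intro b hb
      rw [mem_singleton]
      have : a = b := hs b hb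
      exact this.symm
    simpa using card_le_card this
  | succ n ih =>
    have h1 : s ⊆ {a} ∪ (nb G a).biUnion (fun u => s.filter (fun b => Near G Y n u b)) := by
      intro b hb
      rcases hs b hb with h | ⟨u, _, h2, h3⟩
      · exact mem_union_left _ (mem_singleton.mpr h.symm)
      · exact mem_union_right _ (mem_biUnion.mpr ⟨u, mem_nb.mpr h2, mem_filter.mpr ⟨hb, h3⟩⟩)
    have h2 : ((nb G a).biUnion (fun u => s.filter (fun b => Near G Y n u b))).card ≤
        Δ * (Δ + 1) ^ n := by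
      calc _ ≤ ∑ u ∈ nb G a, (s.filter (fun b => Near G Y n u b)).card := card_biUnion_le
        _ ≤ ∑ _u ∈ nb G a, (Δ + 1) ^ n := by
            refine sum_le_sum fun u _ => ih u _ ?_
            intro b hb
            exact (mem_filter.mp hb).2
        _ = dg G a * (Δ + 1) ^ n := by rw [sum_const, smul_eq_mul, dg]
        _ ≤ Δ * (Δ + 1) ^ n := Nat.mul_le_mul_right _ (hd a)
    have h3 : 1 ≤ (Δ + 1) ^ n := Nat.one_le_pow _ _ (by omega)
    calc s.card ≤ _ := card_le_card h1
      _ ≤ ({a} : Finset V).card + _ := card_union_le _ _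
      _ ≤ (Δ + 1) ^ n + Δ * (Δ + 1) ^ n := by
          rw [card_singleton]
          omega
      _ = (Δ + 1) ^ (n + 1) := by ring

end G

end Pool.Agent.H194R2.JS
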