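import Pool.Agent.H194R2.JS.GBasic

/-!
# Module G2: separating the neighbours of `c`
-/

namespace Pool.Agent.H194R2.JS

open Finset

section G2

variable {V : Type} [Fintype V] [DecidableEq V]
variable {G : SimpleGraph V} {Z : Finset V} {n : ℕ} {a b x y : V}

set_option linter.unusedSectionVars false in
/-- a walk of the contracted graph that avoids the contracted vertex -/
theorem g2_near_scon (hx : x ∈ Z) (ha : a ≠ x) (h : Near (scon G x y) Z n a b) :
    Near G Z n a b ∧ (a ≠ y → b ≠ y) := by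
  induction n generalizing a with
  | zero =>
    have e : a = b := h
    subst e
    exact ⟨near_refl, fun h => h⟩
  | succ n ih =>
    rcases h with h | ⟨u, h1, h2, h3⟩
    · subst h
      exact ⟨near_refl, fun h => h⟩
    · have hu : u ≠ x := fun h => h1 (h ▸ hx)
      obtain ⟨h4, h5⟩ := ih hu h3
      obtain ⟨_, _, h6, h7⟩ := h2
      rcases h7 with h7 | ⟨h7, _⟩ | ⟨h7, _⟩
      · exact ⟨Or.inr ⟨u, h1, h7, h4⟩, fun _ => h5 h6⟩
      · exact absurd h7 ha
      · exact absurd h7 hu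

open Classical in
/-- the vertices near the children other than `d` -/
noncomputable def g2U (H : SimpleGraph V) (Y X : Finset V) (d : V) (ρ : ℕ) : Finset V :=
  univ.filter (fun u => u ∉ X ∧ u ≠ d ∧ u ∉ Y ∧ ∃ x' ∈ X, Near H (insert d Y) ρ x' u)

/-- the measure -/
noncomputable def g2M (Δ : ℕ) (H : SimpleGraph V) (Y X : Finset V) (d : V) (ρ : ℕ) : ℕ :=
  (Δ + 1) * (g2U H Y X d ρ).card + (nb H d ∩ (g2U H Y X d ρ ∪ X)).card

theorem mem_g2U {H : SimpleGraph V} {Y X : Finset V} {d u : V} {ρ : ℕ} :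
    u ∈ g2U H Y X d ρ ↔ u ∉ X ∧ u ≠ d ∧ u ∉ Y ∧ ∃ x' ∈ X, Near H (insert d Y) ρ x' u := by
  classical
  simp [g2U]

/-- deleting an edge `d u` with `u ∈ U ∪ X` lowers the measure -/
theorem g2_del {Δ ρ : ℕ} {H : SimpleGraph V} {Y X : Finset V} {d u : V} (hdu : H.Adj d u)
    (hu : u ∈ g2U H Y X d ρ ∪ X) :
    g2M Δ (sdel H d u) Y X d ρ + 1 ≤ g2M Δ H Y X d ρ := by
  have h1 : g2U (sdel H d u) Y X d ρ ⊆ g2U H Y X d ρ := by
    intro v hv
    rw [mem_g2U] at hv ⊢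
    obtain ⟨h1, h2, h3, x', h4, h5⟩ := hv
    exact ⟨h1, h2, h3, x', h4, near_sdel h5⟩
  have h2 : nb (sdel H d u) d ∩ (g2U (sdel H d u) Y X d ρ ∪ X) ⊆
      (nb H d ∩ (g2U H Y X d ρ ∪ X)).erase u := by
    intro v hv
    rw [mem_inter, nb_sdel_left hdu, mem_erase, mem_union] at hv
    rw [mem_erase, mem_inter, mem_union]
    refine ⟨hv.1.1, hv.1.2, ?_⟩
    rcases hv.2 with h | h
    · exact Or.inl (h1 h)
    · exact Or.inr h
  have h3 : u ∈ nb H d ∩ (g2U H Y X d ρ ∪ X) := mem_inter.mpr ⟨mem_nb.mpr hdu, hu⟩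
  have h4 := card_le_card h2
  rw [card_erase_of_mem h3] at h4
  have h5 : 0 < (nb H d ∩ (g2U H Y X d ρ ∪ X)).card := card_pos.mpr ⟨u, h3⟩
  have h6 : (Δ + 1) * (g2U (sdel H d u) Y X d ρ).card ≤ (Δ + 1) * (g2U H Y X d ρ).card :=
    Nat.mul_le_mul_left _ (card_le_card h1)
  unfold g2M
  omega

/-- contracting an edge `d u` with `u ∈ U` lowers the measure -/
theorem g2_con {Δ ρ : ℕ} {H : SimpleGraph V} {Y X : Finset V} {d u : V}
    (hdX : d ∉ X) (hu : u ∈ g2U H Y X d ρ) (hdeg : dg (scon H d u) d ≤ Δ) :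
    g2M Δ (scon H d u) Y X d ρ + 1 ≤ g2M Δ H Y X d ρ := by
  have huX : u ∉ X := (mem_g2U.mp hu).1
  have h1 : g2U (scon H d u) Y X d ρ ⊆ (g2U H Y X d ρ).erase u := by
    intro v hv
    rw [mem_erase]
    rw [mem_g2U] at hv ⊢
    obtain ⟨h1, h2, h3, x', h4, h5⟩ := hv
    have hx'd : x' ≠ d := fun h => hdX (h ▸ h4)
    have hx'u : x' ≠ u := fun h => huX (h ▸ h4)
    obtain ⟨h6, h7⟩ := g2_near_scon (mem_insert_self _ _) hx'd h5
    exact ⟨h7 hx'u, h1, h2, h3, x', h4, h6⟩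
  have h2 := card_le_card h1
  rw [card_erase_of_mem hu] at h2
  have h3 : 0 < (g2U H Y X d ρ).card := card_pos.mpr ⟨u, hu⟩
  have h4 : (nb (scon H d u) d ∩ (g2U (scon H d u) Y X d ρ ∪ X)).card ≤ Δ :=
    (card_le_card inter_subset_left).trans hdeg
  have h5 : (Δ + 1) * (g2U (scon H d u) Y X d ρ).card + (Δ + 1) ≤
      (Δ + 1) * (g2U H Y X d ρ).card := by
    calc _ = (Δ + 1) * ((g2U (scon H d u) Y X d ρ).card + 1) := by ring
      _ ≤ _ := Nat.mul_le_mul_left _ (by omega)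
  unfold g2M
  omega

theorem g2_main {Δ ρ n : ℕ} {W0 W N : Finset V} {c d : V} (hW : W0 ⊆ W) (hcW : c ∉ W)
    (hdW : d ∉ W) (hcd : d ∈ N) : ∀ (m : ℕ) (H : SimpleGraph V), nb H c = N →
      ¬ Win Δ W0 (n + m) H →
      g2M Δ H (insert c W) ((N \ W).erase d) d ρ ≤ m →
      ∃ H' : SimpleGraph V, Rch (insert c W) N m H H' ∧ ¬ Win Δ W0 n H' ∧
        ∀ d' ∈ (N \ W).erase d, ¬ Near H' (insert c W) ρ d d' := by
  intro m
  induction m with
  | zero =>
    intro H hN hwin hM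
    refine ⟨H, Rch.refl _ _, hwin, ?_⟩
    intro d' hd' hnear
    exfalso
    have hdd' : d ≠ d' := fun h => (mem_erase.mp hd').1 h.symm
    obtain ⟨u, hu1, hu2, k, hk, hu3⟩ := hnear.last hdd'
    have hu4 := hu3.symm (by
      rw [mem_insert]; push Not; exact ⟨hu2.ne.symm, hu1⟩)
    have hmem : u ∈ g2U H (insert c W) ((N \ W).erase d) d ρ ∪ (N \ W).erase d := by
      by_cases hX : u ∈ (N \ W).erase d
      · exact mem_union_right _ hX
      · refine mem_union_left _ (mem_g2U.mpr ⟨hX, hu2.ne.symm, hu1, d', hd', ?_⟩)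
        exact hu4.mono (by omega) (Subset.refl _)
    have : 0 < (nb H d ∩ (g2U H (insert c W) ((N \ W).erase d) d ρ ∪ (N \ W).erase d)).card :=
      card_pos.mpr ⟨u, mem_inter.mpr ⟨mem_nb.mpr hu2, hmem⟩⟩
    unfold g2M at hM
    omega
  | succ m ih =>
    intro H hN hwin hM
    by_cases hv : ∀ d' ∈ (N \ W).erase d, ¬ Near H (insert c W) ρ d d'
    · refine ⟨H, Rch.refl _ _, ?_, hv⟩
      intro h
      exact hwin (win_mono (by omega) h)
    · push Not at hv
      obtain ⟨d', hd', hnear⟩ := hv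
      have hdd' : d ≠ d' := fun h => (mem_erase.mp hd').1 h.symm
      obtain ⟨u, hu1, hu2, k, hk, hu3⟩ := hnear.last hdd'
      have hu4 := hu3.symm (by
        rw [mem_insert]; push Not; exact ⟨hu2.ne.symm, hu1⟩)
      have huc : u ≠ c := fun h => hu1 (h ▸ mem_insert_self _ _)
      have huW : u ∉ W := fun h => hu1 (mem_insert_of_mem h)
      have hdc : d ≠ c := by
        rintro rfl
        rw [← hN, mem_nb] at hcd
        exact hcd.ne rfl
      have hdY : d ∉ insert c W := by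
        rw [mem_insert]; push Not; exact ⟨hdc, hdW⟩
      have hU : u ∉ (N \ W).erase d → u ∈ g2U H (insert c W) ((N \ W).erase d) d ρ := by
        intro hX
        refine mem_g2U.mpr ⟨hX, hu2.ne.symm, hu1, d', hd', ?_⟩
        exact hu4.mono (by omega) (Subset.refl _)
      have hmem : u ∈ g2U H (insert c W) ((N \ W).erase d) d ρ ∪ (N \ W).erase d := by
        by_cases hX : u ∈ (N \ W).erase d
        · exact mem_union_right _ hX
        · exact mem_union_left _ (hU hX)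
      have hwin' : ¬ Win Δ W0 (n + m + 1) H := hwin
      rcases not_win_step hwin' hu2 (fun h => hdW (hW h)) (fun h => huW (hW h)) with h | ⟨hc, h⟩
      · have hnb : nb (sdel H d u) c = N := by
          rw [nb_sdel_other hdc.symm huc.symm, hN]
        have hM' := g2_del (Δ := Δ) hu2 hmem
        obtain ⟨H', h1, h2, h3⟩ := ih (sdel H d u) hnb h (by omega)
        exact ⟨H', Rch.del _ _ _ d u hu2 hdY hu1 h1, h2, h3⟩
      · have hX : u ∉ (N \ W).erase d := by
          intro hX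
          have h1 : u ∈ N := (mem_sdiff.mp (mem_erase.mp hX).2).1
          rw [← hN, mem_nb] at h1 hcd
          exact hc c ⟨hcd.symm, h1.symm⟩
        have huN : u ∉ N := by
          intro h1
          exact hX (mem_erase.mpr ⟨hu2.ne.symm, mem_sdiff.mpr ⟨h1, huW⟩⟩)
        have hnb : nb (scon H d u) c = N := by
          rw [nb_scon_other hu2.ne hdc.symm huc.symm, if_neg (by rw [hN]; exact huN), hN]
        have hM' := g2_con (Δ := Δ) (notMem_erase _ _) (hU hX) (not_win_deg h d).2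
        obtain ⟨H', h1, h2, h3⟩ := ih (scon H d u) hnb h (by omega)
        exact ⟨H', Rch.con _ _ _ d u hu2 hdY hu1 huN hc h1, h2, h3⟩

end G2

theorem sep_one (Δ ρ : ℕ) : ∃ T : ℕ, ∀ (V : Type) [Fintype V] [DecidableEq V]
    (G : SimpleGraph V) (W0 W : Finset V) (c d : V) (n : ℕ), W0 ⊆ W → c ∉ W → d ∉ W →
    G.Adj c d → ¬ Win Δ W0 (n + T) G →
    ∃ G' : SimpleGraph V, Rch (insert c W) (nb G c) T G G' ∧ ¬ Win Δ W0 n G' ∧
      ∀ d', d' ≠ d → G.Adj c d' → d' ∉ W → ¬ Near G' (insert c W) ρ d d' := by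
  classical
  refine ⟨(Δ + 1) * (Δ * (Δ + 1) ^ ρ) + Δ, ?_⟩
  intro V _ _ G W0 W c d n hW hcW hdW hcd hwin
  have hdeg : ∀ v, dg G v ≤ Δ := fun v => (not_win_deg hwin v).2
  have hX : ((nb G c \ W).erase d).card ≤ Δ :=
    (card_le_card ((erase_subset _ _).trans sdiff_subset)).trans (hdeg c)
  have hM : g2M Δ G (insert c W) ((nb G c \ W).erase d) d ρ ≤
      (Δ + 1) * (Δ * (Δ + 1) ^ ρ) + Δ := by
    unfold g2M
    refine Nat.add_le_add (Nat.mul_le_mul_left _ ?_)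
      ((card_le_card inter_subset_left).trans (hdeg d))
    have h1 : g2U G (insert c W) ((nb G c \ W).erase d) d ρ ⊆
        ((nb G c \ W).erase d).biUnion
          (fun x' => univ.filter (fun u => Near G (insert d (insert c W)) ρ x' u)) := by
      intro u hu
      obtain ⟨_, _, _, x', h4, h5⟩ := mem_g2U.mp hu
      exact mem_biUnion.mpr ⟨x', h4, mem_filter.mpr ⟨mem_univ _, h5⟩⟩
    calc _ ≤ _ := card_le_card h1
      _ ≤ ∑ x' ∈ (nb G c \ W).erase d, _ := card_biUnion_le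
      _ ≤ ∑ _x' ∈ (nb G c \ W).erase d, (Δ + 1) ^ ρ := by
          refine sum_le_sum fun x' _ => near_card (Y := insert d (insert c W)) hdeg x' _ ?_
          intro b hb
          exact (mem_filter.mp hb).2
      _ = ((nb G c \ W).erase d).card * (Δ + 1) ^ ρ := by rw [sum_const, smul_eq_mul]
      _ ≤ Δ * (Δ + 1) ^ ρ := Nat.mul_le_mul_right _ hX
  obtain ⟨G', h1, h2, h3⟩ := g2_main (ρ := ρ) hW hcW hdW (mem_nb.mpr hcd) _ G rfl hwin hM
  refine ⟨G', h1, h2, ?_⟩
  intro d' hd' hcd' hd'W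
  exact h3 d' (mem_erase.mpr ⟨hd', mem_sdiff.mpr ⟨mem_nb.mpr hcd', hd'W⟩⟩)

theorem g2_sep_list (Δ ρ : ℕ) : ∀ k : ℕ, ∃ T : ℕ, ∀ (V : Type) [Fintype V] [DecidableEq V]
    (G : SimpleGraph V) (W0 W : Finset V) (c : V) (n : ℕ) (L : Finset V), W0 ⊆ W → c ∉ W →
    L ⊆ nb G c \ W → L.card ≤ k →
    ¬ Win Δ W0 (n + T) G →
    ∃ G' : SimpleGraph V, Rch (insert c W) (nb G c) T G G' ∧ ¬ Win Δ W0 n G' ∧
      ∀ d ∈ L, ∀ d', d' ≠ d → G.Adj c d' → d' ∉ W → ¬ Near G' (insert c W) ρ d d' := by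
  intro k
  induction k with
  | zero =>
    refine ⟨0, ?_⟩
    intro V _ _ G W0 W c n L hW hcW hL hLk hwin
    refine ⟨G, Rch.refl _ _, hwin, ?_⟩
    intro d hd
    have : L = ∅ := card_eq_zero.mp (by omega)
    rw [this] at hd
    exact absurd hd (notMem_empty _)
  | succ k ih =>
    obtain ⟨T', hT'⟩ := ih
    obtain ⟨T1, hT1⟩ := sep_one Δ (2 ^ T' * ρ)
    refine ⟨T1 + T', ?_⟩
    intro V _ _ G W0 W c n L hW hcW hL hLk hwin
    rcases L.eq_empty_or_nonempty with h | ⟨d, hd⟩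
    · subst h
      refine ⟨G, Rch.refl _ _, fun h => hwin (win_mono (by omega) h), ?_⟩
      intro d hd
      exact absurd hd (notMem_empty _)
    · have hd1 := mem_sdiff.mp (hL hd)
      have hcd : G.Adj c d := mem_nb.mp hd1.1
      obtain ⟨G1, hR1, hwin1, hsep1⟩ := hT1 V G W0 W c d (n + T') hW hcW hd1.2 hcd (by
        rw [add_assoc, add_comm T' T1]; exact hwin)
      have hnb : nb G1 c = nb G c := hR1.nb_eq (mem_insert_self _ _) subset_union_left
      obtain ⟨G2, hR2, hwin2, hsep2⟩ := hT' V G1 W0 W c n (L.erase d) hW hcW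
        (by rw [hnb]; exact (erase_subset _ _).trans hL)
        (by rw [card_erase_of_mem hd]; omega) hwin1
      rw [hnb] at hR2
      refine ⟨G2, hR1.trans hR2, hwin2, ?_⟩
      intro d1 hd1L d' hd'1 hcd' hd'W hnear
      by_cases he : d1 = d
      · subst he
        have h1 := hR2.near (Subset.refl _) (mem_union_left _ (mem_nb.mpr hcd))
          (mem_union_left _ (mem_nb.mpr hcd')) hnear
        exact hsep1 d' hd'1 hcd' hd'W h1
      · refine hsep2 d1 (mem_erase.mpr ⟨he, hd1L⟩) d' hd'1 ?_ hd'W hnear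
        rw [← mem_nb, hnb, mem_nb]
        exact hcd'

theorem sep_all (Δ ρ : ℕ) : ∃ T : ℕ, ∀ (V : Type) [Fintype V] [DecidableEq V]
    (G : SimpleGraph V) (W0 W : Finset V) (c : V) (n : ℕ), W0 ⊆ W → c ∉ W →
    ¬ Win Δ W0 (n + T) G →
    ∃ G' : SimpleGraph V, Rch (insert c W) (nb G c) T G G' ∧ ¬ Win Δ W0 n G' ∧
      ∀ d d', d' ≠ d → G.Adj c d → G.Adj c d' → d ∉ W → d' ∉ W →
        ¬ Near G' (insert c W) ρ d d' := by
  obtain ⟨T, hT⟩ := g2_sep_list Δ ρ Δ
  refine ⟨T, ?_⟩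
  intro V _ _ G W0 W c n hW hcW hwin
  obtain ⟨G', h1, h2, h3⟩ := hT V G W0 W c n (nb G c \ W) hW hcW (Subset.refl _)
    ((card_le_card sdiff_subset).trans (not_win_deg hwin c).2) hwin
  refine ⟨G', h1, h2, ?_⟩
  intro d d' hdd' hcd hcd' hdW hd'W
  exact h3 d (mem_sdiff.mpr ⟨mem_nb.mpr hcd, hdW⟩) d' hdd' hcd' hd'W

end Pool.Agent.H194R2.JS
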