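import Pool.Agent.H194R2.JS.GBasic
import Pool.Agent.H194R2.JS.GSep

/-!
# Module G3: forcing degree 3 or a large degree (MP_58ca84_co Q2)
-/

namespace Pool.Agent.H194R2.JS

open Finset

set_option linter.unusedSectionVars false
set_option linter.unusedVariables false

section G3

variable {V : Type} [Fintype V] [DecidableEq V]
variable {G G' H : SimpleGraph V} {Δ n m k R R' : ℕ} {W W0 Y : Finset V} {a b c d u : V}

theorem G3_near_refl (G : SimpleGraph V) (Y : Finset V) (n : ℕ) (a : V) : Near G Y n a a := by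
  cases n with
  | zero => exact rfl
  | succ n => exact Or.inl rfl

theorem G3_near_notMem : ∀ {n : ℕ} {a b : V}, Near G Y n a b → a ≠ b → b ∉ Y
  | 0, a, b, h, hab => absurd h hab
  | n + 1, a, b, h, hab => by
      rcases h with h | ⟨u, hu, hau, h⟩
      · exact absurd h hab
      · by_cases hub : u = b
        · rw [← hub]; exact hu
        · exact G3_near_notMem h hub

theorem G3_near_append : ∀ {n : ℕ} {a u : V}, Near G Y n a u → G.Adj u b → b ∉ Y →
    Near G Y (n + 1) a b
  | 0, a, u, h, hub, hb => by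
      have h' : a = u := h
      subst h'
      exact Or.inr ⟨b, hb, hub, rfl⟩
  | n + 1, a, u, h, hub, hb => by
      rcases h with h | ⟨v, hv, hav, h⟩
      · subst h
        exact Or.inr ⟨b, hb, hub, G3_near_refl _ _ _ _⟩
      · exact Or.inr ⟨v, hv, hav, G3_near_append h hub hb⟩

theorem G3_far_mono (h : Far G W c R) (hR : R' ≤ R) : Far G W c R' :=
  fun u hu hn w hw => h u hu (hn.mono hR (Subset.refl _)) w hw

theorem G3_not_win_mono (h : ¬ Win Δ W m G) (hn : n ≤ m) : ¬ Win Δ W n G :=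
  fun h' => h (win_mono hn h')

theorem G3_dg_pos (h : G.Adj c d) : 1 ≤ dg G c := by
  unfold dg
  exact card_pos.2 ⟨d, mem_nb.2 h⟩

/-- absorbing a child of degree 3 -/
theorem G3_absorb (hW : W0 ⊆ W) (hc : c ∉ W) (hd : d ∉ W) (hcd : G.Adj c d) (h3 : dg G d = 3)
    (hs : ¬ Win Δ W0 (n + 1) G) :
    ¬ Win Δ W0 n (scon G c d) ∧ dg (scon G c d) c = dg G c + 1 ∧
      Rch W {c} 1 G (scon G c d) := by
  rcases not_win_step hs hcd (fun h => hc (hW h)) (fun h => hd (hW h)) with h | ⟨h1, h2⟩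
  · exfalso
    have h4 := (not_win_deg h d).1
    have h5 : dg (sdel G c d) d = 2 := by
      unfold dg
      rw [nb_sdel_right hcd, card_erase_of_mem (mem_nb.2 hcd.symm)]
      unfold dg at h3
      omega
    omega
  · refine ⟨h2, ?_, ?_⟩
    · have := dg_scon_left hcd h1
      omega
    · refine Rch.con 0 G _ c d hcd hc hd ?_ h1 (Rch.refl _ _)
      rw [mem_singleton]
      exact hcd.ne'

/-- dropping big children -/
theorem G3_drop (hW : W0 ⊆ W) (hc : c ∉ W) (h : ℕ) : ∀ (δ n : ℕ) (G : SimpleGraph V)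
    (B : Finset V), dg G c = δ → 3 ≤ δ → B ⊆ nb G c → (∀ d ∈ B, d ∉ W ∧ h ≤ dg G d) →
    δ ≤ B.card + 3 → ¬ Win Δ W0 (n + δ) G →
    ∃ G' : SimpleGraph V, Rch W {c} δ G G' ∧ ¬ Win Δ W0 n G' ∧
      (dg G' c = 3 ∨ h + 1 ≤ dg G' c) := by
  intro δ
  induction δ with
  | zero => intro n G B h1 h2; omega
  | succ δ ih =>
    intro n G B h1 h2 hB hBW hcard hs
    by_cases h3 : δ + 1 = 3
    · exact ⟨G, Rch.refl _ _, G3_not_win_mono hs (by omega), Or.inl (h1.trans h3)⟩
    have hBpos : 0 < B.card := by omega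
    obtain ⟨d, hd⟩ := card_pos.1 hBpos
    have hcd : G.Adj c d := mem_nb.1 (hB hd)
    obtain ⟨hdW, hdh⟩ := hBW d hd
    have hs' : ¬ Win Δ W0 (n + δ + 1) G := hs
    rcases not_win_step hs' hcd (fun h => hc (hW h)) (fun h => hdW (hW h)) with h4 | ⟨h4, h5⟩
    · have hnc : nb (sdel G c d) c = (nb G c).erase d := nb_sdel_left hcd
      obtain ⟨G', hG1, hG2, hG3⟩ := ih n (sdel G c d) (B.erase d)
        (by
          unfold dg at h1 ⊢
          rw [hnc, card_erase_of_mem (hB hd)]
          omega)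
        (by omega)
        (by
          rw [hnc]
          exact erase_subset_erase _ hB)
        (by
          intro d' hd'
          rw [mem_erase] at hd'
          have h6 := hBW d' hd'.2
          have h7 : d' ≠ c := by
            have := mem_nb.1 (hB hd'.2)
            exact this.ne'
          refine ⟨h6.1, ?_⟩
          unfold dg
          rw [nb_sdel_other h7 hd'.1]
          exact h6.2)
        (by
          rw [card_erase_of_mem hd]
          omega)
        h4
      exact ⟨G', Rch.del δ G G' c d hcd hc hdW hG1, hG2, hG3⟩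
    · have h6 := dg_scon_left hcd h4
      refine ⟨scon G c d, ?_, G3_not_win_mono h5 (by omega), Or.inr (by omega)⟩
      refine Rch.mono (Rch.con 0 G _ c d hcd hc hdW ?_ h4 (Rch.refl _ _)) (by omega)
      rw [mem_singleton]
      exact hcd.ne'

/-- radii for the second phase of `prep` -/
def ra (R1 T1 : ℕ) : ℕ → ℕ
  | 0 => R1 + 1
  | m + 1 => 2 ^ T1 * (ra R1 T1 m + 1)

theorem G3_ra_step (R1 T1 m : ℕ) : ra R1 T1 m ≤ ra R1 T1 (m + 1) := by
  show ra R1 T1 m ≤ 2 ^ T1 * (ra R1 T1 m + 1)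
  have : 1 ≤ 2 ^ T1 := Nat.one_le_two_pow
  nlinarith

theorem G3_ra_ge (R1 T1 m : ℕ) : R1 + 1 ≤ ra R1 T1 m := by
  induction m with
  | zero => exact le_refl _
  | succ m ih => exact ih.trans (G3_ra_step R1 T1 m)

end G3

/-- the second phase of `prep` -/
theorem G3_phase2 {Δ h R1 T1 : ℕ}
    (hcl : ∀ (V : Type) [Fintype V] [DecidableEq V]
      (G : SimpleGraph V) (W0 W : Finset V) (c : V) (n : ℕ), W0 ⊆ W → c ∉ W → 1 ≤ dg G c →
      (nb G c ∩ W).card ≤ 3 → Far G W c R1 → ¬ Win Δ W0 (n + T1) G →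
      ∃ G' : SimpleGraph V, Rch W {c} T1 G G' ∧ ¬ Win Δ W0 n G' ∧ (dg G' c = 3 ∨ h ≤ dg G' c))
    {V : Type} [Fintype V] [DecidableEq V] {W0 W : Finset V} {c : V} (hW : W0 ⊆ W)
    (hc : c ∉ W) :
    ∀ (m n : ℕ) (H : SimpleGraph V) (L : Finset V), L ⊆ nb H c → (∀ d ∈ L, d ∉ W) →
      L.card ≤ m → Far H W c (ra R1 T1 m) →
      (∀ d d', d' ≠ d → H.Adj c d → H.Adj c d' → d ∉ W → d' ∉ W →
        ¬ Near H (insert c W) (ra R1 T1 m) d d') →
      ¬ Win Δ W0 (n + m * T1) H →
      ∃ H' : SimpleGraph V, Rch (insert c W) (nb H c) (m * T1) H H' ∧ ¬ Win Δ W0 n H' ∧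
        (∀ d ∈ L, dg H' d = 3 ∨ h ≤ dg H' d) ∧ (∀ d ∈ nb H c, d ∉ L → dg H' d = dg H d) := by
  intro m
  induction m with
  | zero =>
    intro n H L hL hLW hcard hfar hsep hs
    have hL0 : L = ∅ := card_eq_zero.1 (by omega)
    subst hL0
    refine ⟨H, Rch.refl _ _, G3_not_win_mono hs (by omega), by simp, by simp⟩
  | succ m ih =>
    intro n H L hL hLW hcard hfar hsep hs
    rcases L.eq_empty_or_nonempty with hL0 | ⟨d, hdL⟩
    · subst hL0
      refine ⟨H, Rch.refl _ _, G3_not_win_mono hs (by omega), by simp, by simp⟩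
    have hdW : d ∉ W := hLW d hdL
    have hdc : d ∈ nb H c := hL hdL
    have hcd : H.Adj c d := mem_nb.1 hdc
    have hdne : d ≠ c := hcd.ne'
    have hR1 : R1 + 1 ≤ ra R1 T1 (m + 1) := G3_ra_ge R1 T1 (m + 1)
    have hfar1 : Far H W c (R1 + 1) := G3_far_mono hfar hR1
    have hsep1 : ∀ d', d' ≠ d → H.Adj c d' → d' ∉ W → ¬ Near H (insert c W) (R1 + 1) d d' :=
      fun d' h1 h2 h3 h4 => hsep d d' h1 hcd h2 hdW h3 (h4.mono hR1 (Subset.refl _))
    set Wd : Finset V := insert c (W ∪ (nb H c).erase d) with hWd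
    have hmemWd : ∀ v, v ∈ Wd ↔ v = c ∨ v ∈ W ∨ (v ≠ d ∧ H.Adj c v) := by
      intro v
      rw [hWd, mem_insert, mem_union, mem_erase, mem_nb]
    have hWWd : W ⊆ Wd := fun v hv => (hmemWd v).2 (Or.inr (Or.inl hv))
    have hcWWd : insert c W ⊆ Wd := by
      intro v hv
      rw [mem_insert] at hv
      rcases hv with hv | hv
      · exact (hmemWd v).2 (Or.inl hv)
      · exact hWWd hv
    have hdWd : d ∉ Wd := by
      rw [hmemWd]
      rintro (h | h | h)
      · exact hdne h
      · exact hdW h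
      · exact h.1 rfl
    have hnearcd : Near H W (R1 + 1) c d :=
      Or.inr ⟨d, hdW, hcd, G3_near_refl _ _ _ _⟩
    -- the neighbourhood of `d` meets `Wd` only in `c`
    have hint : nb H d ∩ Wd ⊆ {c} := by
      intro w hw
      rw [mem_inter, mem_nb] at hw
      rw [mem_singleton]
      obtain ⟨hdw, hw⟩ := hw
      rcases (hmemWd w).1 hw with h | h | h
      · exact h
      · exact absurd hdw (hfar1 d hdne hnearcd w h)
      · exfalso
        by_cases hwW : w ∈ W
        · exact hfar1 d hdne hnearcd w hwW hdw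
        · refine hsep1 w h.1 h.2 hwW ?_
          have hwc : w ∉ insert c W := by
            rw [mem_insert]
            rintro (h' | h')
            · exact h.2.ne' h'
            · exact hwW h'
          exact Or.inr ⟨w, hwc, hdw, G3_near_refl _ _ _ _⟩
    have hfard : Far H Wd d R1 := by
      intro u hud hnear w hw huw
      have huWd : u ∉ Wd := G3_near_notMem hnear (Ne.symm hud)
      have huc : u ≠ c := by
        rintro rfl
        exact huWd ((hmemWd _).2 (Or.inl rfl))
      have hnear' : Near H W (R1 + 1) c u :=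
        Or.inr ⟨d, hdW, hcd, hnear.mono (le_refl _) hWWd⟩
      rcases (hmemWd w).1 hw with h | h | h
      · subst h
        exact huWd ((hmemWd _).2 (Or.inr (Or.inr ⟨hud, huw.symm⟩)))
      · exact hfar1 u huc hnear' w h huw
      · by_cases hwW : w ∈ W
        · exact hfar1 u huc hnear' w hwW huw
        · refine hsep1 w h.1 h.2 hwW ?_
          have hwc : w ∉ insert c W := by
            rw [mem_insert]
            rintro (h' | h')
            · exact h.2.ne' h'
            · exact hwW h'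
          exact G3_near_append (hnear.mono (le_refl _) hcWWd) huw hwc
    have hs' : ¬ Win Δ W0 ((n + m * T1) + T1) H := by
      have : n + (m + 1) * T1 = (n + m * T1) + T1 := by ring
      rwa [this] at hs
    obtain ⟨H1, hr1, hs1, hd1⟩ := hcl V H W0 Wd d (n + m * T1) (hW.trans hWWd) hdWd
      (G3_dg_pos hcd.symm)
      ((card_le_card hint).trans (by simp)) hfard hs'
    have hr1' : Rch (insert c W) (nb H c) T1 H H1 := by
      refine hr1.weaken hcWWd ?_
      intro v hv
      rw [mem_union, mem_singleton, hmemWd]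
      by_cases hvd : v = d
      · exact Or.inl hvd
      · exact Or.inr (Or.inr (Or.inr ⟨hvd, mem_nb.1 hv⟩))
    have hr1c : Rch W {c} T1 H H1 := by
      refine hr1.weaken hWWd ?_
      intro v hv
      rw [mem_singleton] at hv
      subst hv
      rw [mem_union]
      exact Or.inr ((hmemWd _).2 (Or.inl rfl))
    have hnb : nb H1 c = nb H c := hr1'.nb_eq (mem_insert_self _ _) subset_union_left
    have hadj : ∀ v, H1.Adj c v ↔ H.Adj c v := by
      intro v
      rw [← mem_nb, ← mem_nb, hnb]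
    have hfar2 : Far H1 W c (ra R1 T1 m) :=
      (hr1c.far (mem_singleton_self _) hc hfar).1
    have hsep2 : ∀ d d', d' ≠ d → H1.Adj c d → H1.Adj c d' → d ∉ W → d' ∉ W →
        ¬ Near H1 (insert c W) (ra R1 T1 m) d d' := by
      intro d1 d2 h1 h2 h3 h4 h5 h6
      rw [hadj] at h2 h3
      have h7 := hr1'.near (Subset.refl _) (mem_union_left _ (mem_nb.2 h2))
        (mem_union_left _ (mem_nb.2 h3)) h6
      refine hsep d1 d2 h1 h2 h3 h4 h5 (h7.mono ?_ (Subset.refl _))
      show 2 ^ T1 * ra R1 T1 m ≤ 2 ^ T1 * (ra R1 T1 m + 1)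
      exact Nat.mul_le_mul_left _ (Nat.le_succ _)
    obtain ⟨H', hr2, hs2, hd2, hd3⟩ := ih n H1 (L.erase d)
      (by rw [hnb]; exact (erase_subset _ _).trans hL)
      (fun v hv => hLW v (mem_of_mem_erase hv))
      (by rw [card_erase_of_mem hdL]; omega) hfar2 hsep2 hs1
    refine ⟨H', ?_, hs2, ?_, ?_⟩
    · rw [hnb] at hr2
      have := hr1'.trans hr2
      have h8 : T1 + m * T1 = (m + 1) * T1 := by ring
      rwa [h8] at this
    · intro v hv
      by_cases hvd : v = d
      · subst hvd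
        rw [hd3 v (by rw [hnb]; exact hdc) (by simp)]
        exact hd1
      · exact hd2 v (mem_erase.2 ⟨hvd, hv⟩)
    · intro v hv hvL
      have hvd : v ≠ d := by
        rintro rfl
        exact hvL hdL
      rw [hd3 v (by rw [hnb]; exact hv) (fun h => hvL (mem_of_mem_erase h))]
      exact hr1.dg_eq ((hmemWd v).2 (Or.inr (Or.inr ⟨hvd, mem_nb.1 hv⟩)))

theorem prep (Δ h : ℕ) (hc : Claim Δ h) : ∃ R T : ℕ, ∀ (V : Type) [Fintype V] [DecidableEq V]
    (G : SimpleGraph V) (W0 W : Finset V) (c : V) (n : ℕ), W0 ⊆ W → c ∉ W →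
    Far G W c R → ¬ Win Δ W0 (n + T) G →
    ∃ G' : SimpleGraph V, Rch (insert c W) (nb G c) T G G' ∧ ¬ Win Δ W0 n G' ∧
      ∀ d, G.Adj c d → d ∉ W → dg G' d = 3 ∨ h ≤ dg G' d := by
  obtain ⟨R1, T1, hcl⟩ := hc
  obtain ⟨Ts, hsep⟩ := sep_all Δ (ra R1 T1 Δ)
  refine ⟨2 ^ Ts * (ra R1 T1 Δ + 1), Ts + Δ * T1, ?_⟩
  intro V _ _ G W0 W c n hW hcW hfar hs
  have hs' : ¬ Win Δ W0 ((n + Δ * T1) + Ts) G := by
    have : n + (Ts + Δ * T1) = (n + Δ * T1) + Ts := by ring
    rwa [this] at hs
  obtain ⟨H0, hr0, hs0, hsep0⟩ := hsep V G W0 W c (n + Δ * T1) hW hcW hs'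
  have hnb : nb H0 c = nb G c := hr0.nb_eq (mem_insert_self _ _) subset_union_left
  have hadj : ∀ v, H0.Adj c v ↔ G.Adj c v := by
    intro v
    rw [← mem_nb, ← mem_nb, hnb]
  have hr0c : Rch W {c} Ts G H0 := by
    refine hr0.weaken (subset_insert _ _) ?_
    intro v hv
    rw [mem_singleton] at hv
    subst hv
    exact mem_union_right _ (mem_insert_self _ _)
  have hfar0 : Far H0 W c (ra R1 T1 Δ) := (hr0c.far (mem_singleton_self _) hcW hfar).1
  have hdeg : (nb G c).card ≤ Δ := (not_win_deg hs c).2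
  obtain ⟨H', hr1, hs1, hd1, _⟩ := G3_phase2 hcl hW hcW Δ n H0 (nb G c \ W)
    (by rw [hnb]; exact sdiff_subset)
    (fun d hd => (mem_sdiff.1 hd).2)
    ((card_le_card sdiff_subset).trans hdeg) hfar0
    (fun d d' h1 h2 h3 h4 h5 =>
      hsep0 d d' h1 ((hadj _).1 h2) ((hadj _).1 h3) h4 h5) hs0
  rw [hnb] at hr1
  exact ⟨H', hr0.trans hr1, hs1, fun d hd1' hd2 =>
    hd1 d (mem_sdiff.2 ⟨mem_nb.2 hd1', hd2⟩)⟩

theorem claim_four (Δ : ℕ) : Claim Δ 4 := by
  refine ⟨0, 0, ?_⟩
  intro V _ _ G W0 W c n hW hc h1 h3 hfar hs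
  have h := (not_win_deg hs c).1
  exact ⟨G, Rch.refl _ _, hs, by omega⟩

theorem claim_succ (Δ h : ℕ) (hc : Claim Δ h) : Claim Δ (h + 1) := by
  obtain ⟨Rp, Tp, hprep⟩ := prep Δ h hc
  have key : ∀ s : ℕ, ∃ R T : ℕ, ∀ (V : Type) [Fintype V] [DecidableEq V]
      (G : SimpleGraph V) (W0 W : Finset V) (c : V) (n : ℕ), W0 ⊆ W → c ∉ W → 1 ≤ dg G c →
      (nb G c ∩ W).card ≤ 3 → Far G W c R → ¬ Win Δ W0 (n + T) G → h + 1 ≤ dg G c + s →
      ∃ G' : SimpleGraph V, Rch W {c} T G G' ∧ ¬ Win Δ W0 n G' ∧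
        (dg G' c = 3 ∨ h + 1 ≤ dg G' c) := by
    intro s
    induction s with
    | zero =>
      refine ⟨0, 0, ?_⟩
      intro V _ _ G W0 W c n hW hc h1 h3 hfar hs hsum
      exact ⟨G, Rch.refl _ _, hs, Or.inr (by omega)⟩
    | succ s ih =>
      obtain ⟨Rs, Ts, hs0⟩ := ih
      refine ⟨max Rp (2 ^ (Tp + 1) * (Rs + 1)), Tp + (Ts + 1 + h), ?_⟩
      intro V _ _ G W0 W c n hW hc h1 h3 hfar hs hsum
      have hdeg := (not_win_deg hs c).1
      by_cases hd3 : dg G c = 3
      · exact ⟨G, Rch.refl _ _, G3_not_win_mono hs (by omega), Or.inl hd3⟩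
      by_cases hdh : h + 1 ≤ dg G c
      · exact ⟨G, Rch.refl _ _, G3_not_win_mono hs (by omega), Or.inr hdh⟩
      have hsp : ¬ Win Δ W0 ((n + (Ts + 1 + h)) + Tp) G := G3_not_win_mono hs (by omega)
      obtain ⟨H, hr, hsH, hch⟩ := hprep V G W0 W c (n + (Ts + 1 + h)) hW hc
        (G3_far_mono hfar (le_max_left _ _)) hsp
      have hnb : nb H c = nb G c := hr.nb_eq (mem_insert_self _ _) subset_union_left
      have hrc : Rch W {c} Tp G H := by
        refine hr.weaken (subset_insert _ _) ?_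
        intro v hv
        rw [mem_singleton] at hv
        subst hv
        exact mem_union_right _ (mem_insert_self _ _)
      have hdgH : dg H c = dg G c := by unfold dg; rw [hnb]
      classical
      set B := (nb G c \ W).filter (fun d => h ≤ dg H d) with hB
      have hCcard : (nb G c).card ≤ (nb G c \ W).card + 3 := by
        have h5 := card_sdiff_add_card_inter (nb G c) W
        omega
      by_cases hBc : dg G c ≤ B.card + 3
      · obtain ⟨G', hg1, hg2, hg3⟩ := G3_drop hW hc h (dg G c) n H B hdgH (by omega)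
          (by
            rw [hnb, hB]
            exact (filter_subset _ _).trans sdiff_subset)
          (by
            intro d hd
            rw [hB, mem_filter, mem_sdiff] at hd
            exact ⟨hd.1.2, hd.2⟩)
          hBc (G3_not_win_mono hsH (by omega))
        exact ⟨G', (hrc.trans hg1).mono (by omega), hg2, hg3⟩
      · -- there is a child of degree 3
        have hex : ∃ d ∈ nb G c \ W, d ∉ B := by
          by_contra hcon
          push Not at hcon
          have := card_le_card (fun d hd => hcon d hd : nb G c \ W ⊆ B)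
          unfold dg at hBc
          omega
        obtain ⟨d, hd, hdB⟩ := hex
        rw [mem_sdiff, mem_nb] at hd
        have hdd : dg H d = 3 := by
          rcases hch d hd.1 hd.2 with h5 | h5
          · exact h5
          · exact absurd (by rw [hB, mem_filter, mem_sdiff, mem_nb]; exact ⟨hd, h5⟩) hdB
        have hHcd : H.Adj c d := by
          rw [← mem_nb, hnb, mem_nb]
          exact hd.1
        obtain ⟨hs1, hdg1, hr1⟩ := G3_absorb (n := n + (Ts + h)) hW hc hd.2 hHcd hdd
          (G3_not_win_mono hsH (by omega))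
        have hr2 : Rch W {c} (Tp + 1) G (scon H c d) := hrc.trans hr1
        obtain ⟨hfar2, hint2⟩ := hr2.far (R := Rs) (mem_singleton_self _) hc
          (G3_far_mono hfar (le_max_right _ _))
        obtain ⟨G', hg1, hg2, hg3⟩ := hs0 V (scon H c d) W0 W c n hW hc (by omega)
          (by rw [hint2]; exact h3) hfar2 (G3_not_win_mono hs1 (by omega)) (by omega)
        exact ⟨G', (hr2.trans hg1).mono (by omega), hg2, hg3⟩
  obtain ⟨R, T, hk⟩ := key (h + 1)
  refine ⟨R, T, ?_⟩
  intro V _ _ G W0 W c n hW hc h1 h3 hfar hs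
  exact hk V G W0 W c n hW hc h1 h3 hfar hs (by omega)

theorem G3_claim_all (Δ k : ℕ) : Claim Δ (4 + k) := by
  induction k with
  | zero => exact claim_four Δ
  | succ k ih => exact claim_succ Δ (4 + k) ih

theorem game_far (Δ : ℕ) : ∃ R T : ℕ, ∀ (V : Type) [Fintype V] [DecidableEq V]
    (G : SimpleGraph V) (W : Finset V) (c : V), c ∉ W → 1 ≤ dg G c → nb G c ∩ W = ∅ →
    Far G W c R → Win Δ W T G := by
  obtain ⟨Rp, Tp, hprep⟩ := prep Δ (4 + Δ) (G3_claim_all Δ Δ)
  have key : ∀ s : ℕ, ∃ R T : ℕ, ∀ (V : Type) [Fintype V] [DecidableEq V]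
      (G : SimpleGraph V) (W : Finset V) (c : V), c ∉ W → 1 ≤ dg G c → nb G c ∩ W = ∅ →
      Far G W c R → Δ < dg G c + s → Win Δ W T G := by
    intro s
    induction s with
    | zero =>
      refine ⟨0, 0, ?_⟩
      intro V _ _ G W c hc h1 hint hfar hsum
      exact Or.inr ⟨c, by omega⟩
    | succ s ih =>
      obtain ⟨Rs, Ts, hs0⟩ := ih
      refine ⟨max Rp (2 ^ (Tp + 1) * (Rs + 1)), Ts + 1 + Tp, ?_⟩
      intro V _ _ G W c hc h1 hint hfar hsum
      by_contra hs
      obtain ⟨H, hr, hsH, hch⟩ := hprep V G W W c (Ts + 1) (Subset.refl _) hc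
        (G3_far_mono hfar (le_max_left _ _)) hs
      have hnb : nb H c = nb G c := hr.nb_eq (mem_insert_self _ _) subset_union_left
      have hrc : Rch W {c} Tp G H := by
        refine hr.weaken (subset_insert _ _) ?_
        intro v hv
        rw [mem_singleton] at hv
        subst hv
        exact mem_union_right _ (mem_insert_self _ _)
      have hdgH : dg H c = dg G c := by unfold dg; rw [hnb]
      obtain ⟨d, hd⟩ : (nb G c).Nonempty := card_pos.1 h1
      have hdW : d ∉ W := by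
        intro h
        have : d ∈ nb G c ∩ W := mem_inter.2 ⟨hd, h⟩
        rw [hint] at this
        simp at this
      have hdd : dg H d = 3 := by
        rcases hch d (mem_nb.1 hd) hdW with h5 | h5
        · exact h5
        · have := (not_win_deg hsH d).2
          omega
      have hHcd : H.Adj c d := by
        rw [← mem_nb, hnb]
        exact hd
      obtain ⟨hs1, hdg1, hr1⟩ := G3_absorb (n := Ts) (Subset.refl W) hc hdW hHcd hdd hsH
      have hr2 : Rch W {c} (Tp + 1) G (scon H c d) := hrc.trans hr1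
      obtain ⟨hfar2, hint2⟩ := hr2.far (R := Rs) (mem_singleton_self _) hc
        (G3_far_mono hfar (le_max_right _ _))
      exact hs1 (hs0 V (scon H c d) W c hc (by omega) (by rw [hint2]; exact hint) hfar2
        (by omega))
  obtain ⟨R, T, hk⟩ := key (Δ + 1)
  refine ⟨R, T, ?_⟩
  intro V _ _ G W c hc h1 hint hfar
  exact hk V G W c hc h1 hint hfar (by omega)

theorem game_simple (Δ t : ℕ) : ∃ N T : ℕ, ∀ (V : Type) [Fintype V] [DecidableEq V]
    (G : SimpleGraph V) (W : Finset V), W.card ≤ t →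
    N ≤ (Finset.univ.filter (fun v => 1 ≤ dg G v)).card → Win Δ W T G := by
  obtain ⟨R, T, hgf⟩ := game_far Δ
  refine ⟨t * (Δ + 1) ^ (R + 2) + 1, T, ?_⟩
  intro V _ _ G W hWt hN
  classical
  by_cases hbig : ∃ v, Δ < dg G v
  · exact win_mono (Nat.zero_le T) (show Win Δ W 0 G from Or.inr hbig)
  push Not at hbig
  set Bad : Finset V := W.biUnion (fun w => univ.filter (fun u => Near G ∅ (R + 2) w u)) with hBad
  have hBadc : Bad.card ≤ t * (Δ + 1) ^ (R + 2) := by
    refine card_biUnion_le.trans ?_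
    calc ∑ w ∈ W, (univ.filter (fun u => Near G ∅ (R + 2) w u)).card
        ≤ ∑ w ∈ W, (Δ + 1) ^ (R + 2) := by
          refine sum_le_sum fun w _ => ?_
          exact near_card hbig w _ (fun b hb => (mem_filter.1 hb).2)
      _ = W.card * (Δ + 1) ^ (R + 2) := by simp
      _ ≤ t * (Δ + 1) ^ (R + 2) := Nat.mul_le_mul_right _ hWt
  have hex : ∃ c ∈ Finset.univ.filter (fun v => 1 ≤ dg G v), c ∉ Bad := by
    by_contra hcon
    push Not at hcon
    have := card_le_card (fun c hc => hcon c hc : Finset.univ.filter (fun v => 1 ≤ dg G v) ⊆ Bad)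
    omega
  obtain ⟨c, hc1, hc2⟩ := hex
  rw [mem_filter] at hc1
  have hbad : ∀ w ∈ W, ¬ Near G ∅ (R + 2) w c := by
    intro w hw h
    apply hc2
    rw [hBad, mem_biUnion]
    exact ⟨w, hw, mem_filter.2 ⟨mem_univ _, h⟩⟩
  refine hgf V G W c ?_ hc1.2 ?_ ?_
  · intro h
    exact hbad c h (G3_near_refl _ _ _ _)
  · rw [eq_empty_iff_forall_notMem]
    intro w hw
    rw [mem_inter, mem_nb] at hw
    exact hbad w hw.2 (Or.inr ⟨c, by simp, hw.1.symm, G3_near_refl _ _ _ _⟩)
  · intro u huc hnear w hw huw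
    have h1 : Near G ∅ R c u := hnear.mono (le_refl _) (empty_subset _)
    have h2 : Near G ∅ R u c := h1.symm (by simp)
    exact hbad w hw (Or.inr ⟨u, by simp, huw.symm, h2.mono (by omega) (Subset.refl _)⟩)

end Pool.Agent.H194R2.JS
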