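import Pool.Agent.H194R2.JS.GameOf
import Pool.Agent.H194R2.JS.GClaim

namespace Pool.Agent.H194R2.JS

open Finset

/-! ### Module C: the game on labelled 2-connected graphs -/

theorem game (j : ℕ) : ∃ m : ℕ, ∀ (V E : Type) [Fintype V] [DecidableEq V] [Fintype E]
    [DecidableEq E] (r : E) (C W : St V E → Prop),
    (∀ σ e, C σ → C (σ.del e)) →
    (∀ σ e x y, C σ → C (σ.con e x y)) →
    (∀ σ A g x y, C σ → TC σ.en σ.S → r ∈ σ.S → A ⊆ σ.S → r ∉ A → 2 ≤ A.card →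
      2 ≤ (σ.S \ A).card → g ∈ A → x ≠ y → vs σ.en A ∩ vs σ.en (σ.S \ A) = {x, y} →
      ∃ w, C (σ.comp A g x y w) ∧ (W (σ.comp A g x y w) → W σ)) →
    (∀ σ e x y, C σ → TC σ.en σ.S → N2 σ.en σ.S → 4 ≤ σ.S.card → r ∈ σ.S → e ∈ σ.S → e ≠ r →
      (σ.en e = (x, y) ∨ σ.en e = (y, x)) → W (σ.del e) → W (σ.con e x y) → W σ) →
    (∀ σ, C σ → TC σ.en σ.S → r ∈ σ.S → 3 ≤ σ.S.card → (∃ e ∈ σ.S, e ≠ r ∧ j ≤ σ.lab e) →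
      W σ) →
    ∀ σ, C σ → TC σ.en σ.S → r ∈ σ.S → 3 ≤ σ.S.card → (∀ e ∈ σ.S, e ≠ r → 1 ≤ σ.lab e) →
      m ≤ ∑ e ∈ σ.S.erase r, σ.lab e → W σ :=
  game_of game_simple j

end Pool.Agent.H194R2.JS
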