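import Pool.Agent.H194R2.JS.Defs

/-!
# Module B: structure of 2-connected / 3-connected multigraphs (MP_58ca84_co Q2)
-/

namespace Pool.Agent.H194R2.JS

open Finset

set_option linter.unusedSectionVars false
set_option linter.unusedVariables false

section Multi

variable {V E : Type} [DecidableEq V] [DecidableEq E]
variable {en : E → V × V} {S : Finset E}

theorem B_mem_vs {A : Finset E} {v : V} :
    v ∈ vs en A ↔ ∃ e ∈ A, (en e).1 = v ∨ (en e).2 = v := by
  unfold vs
  simp only [mem_union, mem_image]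
  constructor
  · rintro (⟨e, he, h⟩ | ⟨e, he, h⟩)
    · exact ⟨e, he, Or.inl h⟩
    · exact ⟨e, he, Or.inr h⟩
  · rintro ⟨e, he, h | h⟩
    · exact Or.inl ⟨e, he, h⟩
    · exact Or.inr ⟨e, he, h⟩

theorem B_vs_mono {A B : Finset E} (h : A ⊆ B) : vs en A ⊆ vs en B := by
  intro v hv
  obtain ⟨e, he, h1⟩ := B_mem_vs.1 hv
  exact B_mem_vs.2 ⟨e, h he, h1⟩

theorem B_vs_union (A B : Finset E) : vs en (A ∪ B) = vs en A ∪ vs en B := by
  ext v
  simp only [mem_union, B_mem_vs]
  constructor
  · rintro ⟨e, he | he, h⟩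
    · exact Or.inl ⟨e, he, h⟩
    · exact Or.inr ⟨e, he, h⟩
  · rintro (⟨e, he, h⟩ | ⟨e, he, h⟩)
    · exact ⟨e, Or.inl he, h⟩
    · exact ⟨e, Or.inr he, h⟩

theorem B_vs_singleton (e : E) : vs en {e} = {(en e).1, (en e).2} := by
  ext v
  simp only [B_mem_vs, mem_singleton, mem_insert]
  constructor
  · rintro ⟨f, rfl, h | h⟩
    · exact Or.inl h.symm
    · exact Or.inr h.symm
  · rintro (h | h)
    · exact ⟨e, rfl, Or.inl h.symm⟩
    · exact ⟨e, rfl, Or.inr h.symm⟩

theorem B_vs_insert (e : E) (A : Finset E) :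
    vs en (insert e A) = {(en e).1, (en e).2} ∪ vs en A := by
  rw [Finset.insert_eq, B_vs_union, B_vs_singleton]

theorem B_vs_congr {en' : E → V × V} {A : Finset E} (h : ∀ e ∈ A, en' e = en e) :
    vs en' A = vs en A := by
  ext v
  simp only [B_mem_vs]
  constructor
  · rintro ⟨e, he, h1⟩
    exact ⟨e, he, by rwa [h e he] at h1⟩
  · rintro ⟨e, he, h1⟩
    exact ⟨e, he, by rwa [h e he]⟩

theorem B_pair_card (a b : V) : ({a, b} : Finset V).card ≤ 2 := Finset.card_le_two

theorem B_noloop (hT : TC en S) {e : E} (he : e ∈ S) : (en e).1 ≠ (en e).2 := by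
  intro h
  have h1 := hT.2 {e} (by simpa using he) ⟨e, by simp⟩ (by
    intro h2
    have := hT.1
    rw [← h2] at this
    simp at this)
  have h2 : (vs en {e} ∩ vs en (S \ {e})).card ≤ (vs en {e}).card :=
    card_le_card inter_subset_left
  rw [B_vs_singleton, ← h] at h2
  simp at h2
  rw [B_vs_singleton, ← h] at h1
  simp at h1
  omega

theorem B_star_card {D : Finset E} {v : V} (hD : ∀ e ∈ D, (en e).1 = v ∨ (en e).2 = v) :
    ((vs en D).erase v).card ≤ D.card := by
  have h1 : (vs en D).erase v ⊆ D.biUnion (fun e => (vs en {e}).erase v) := by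
    intro u hu
    rw [mem_erase] at hu
    obtain ⟨e, he, h⟩ := B_mem_vs.1 hu.2
    rw [mem_biUnion]
    refine ⟨e, he, ?_⟩
    rw [mem_erase]
    exact ⟨hu.1, B_mem_vs.2 ⟨e, by simp, h⟩⟩
  refine (card_le_card h1).trans ?_
  refine (card_biUnion_le).trans ?_
  calc ∑ e ∈ D, ((vs en {e}).erase v).card ≤ ∑ e ∈ D, 1 := by
        refine sum_le_sum fun e he => ?_
        rw [B_vs_singleton]
        have hv : v ∈ ({(en e).1, (en e).2} : Finset V) := by
          rcases hD e he with h | h <;> simp [h]
        rw [card_erase_of_mem hv]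
        have := B_pair_card (en e).1 (en e).2
        omega
    _ = D.card := by simp

theorem simple_of_N2 (hT : TC en S) (hN : N2 en S) (h4 : 4 ≤ S.card) {e f : E} (he : e ∈ S)
    (hf : f ∈ S) (hef : e ≠ f) (x y : V) (h1 : en e = (x, y) ∨ en e = (y, x)) :
    ¬ (en f = (x, y) ∨ en f = (y, x)) := by
  intro h2
  have hA : ({e, f} : Finset E) ⊆ S := by
    intro g hg
    simp only [mem_insert, mem_singleton] at hg
    rcases hg with rfl | rfl <;> assumption
  have hc : ({e, f} : Finset E).card = 2 := card_pair hef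
  have h3 := hN {e, f} hA hc.ge (by rw [card_sdiff_of_subset hA, hc]; omega)
  have h5 : vs en {e, f} ⊆ {x, y} := by
    intro v hv
    obtain ⟨g, hg, h⟩ := B_mem_vs.1 hv
    simp only [mem_insert, mem_singleton] at hg ⊢
    rcases hg with rfl | rfl
    · rcases h1 with h1 | h1 <;> rw [h1] at h <;> rcases h with h | h <;> simp_all
    · rcases h2 with h2 | h2 <;> rw [h2] at h <;> rcases h with h | h <;> simp_all
  have h6 := card_le_card (inter_subset_left.trans h5 : vs en {e, f} ∩ vs en (S \ {e, f}) ⊆ _)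
  have h7 := B_pair_card x y
  omega

theorem deg_of_N2 (hT : TC en S) (hN : N2 en S) (h4 : 4 ≤ S.card) {v : V} (hv : v ∈ vs en S) :
    3 ≤ (S.filter (fun e => (en e).1 = v ∨ (en e).2 = v)).card := by
  by_contra hlt
  set D := S.filter (fun e => (en e).1 = v ∨ (en e).2 = v) with hD
  have hDS : D ⊆ S := filter_subset _ _
  have hDn : D.Nonempty := by
    obtain ⟨e, he, h⟩ := B_mem_vs.1 hv
    exact ⟨e, by rw [hD, mem_filter]; exact ⟨he, h⟩⟩
  have hDm : ∀ e ∈ D, (en e).1 = v ∨ (en e).2 = v := by
    intro e he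
    rw [hD, mem_filter] at he
    exact he.2
  have hv' : v ∉ vs en (S \ D) := by
    intro h
    obtain ⟨e, he, h⟩ := B_mem_vs.1 h
    rw [mem_sdiff] at he
    exact he.2 (by rw [hD, mem_filter]; exact ⟨he.1, h⟩)
  have hcS : (S \ D).card = S.card - D.card := card_sdiff_of_subset hDS
  have hint : vs en D ∩ vs en (S \ D) ⊆ (vs en D).erase v := by
    intro u hu
    rw [mem_inter] at hu
    rw [mem_erase]
    refine ⟨?_, hu.1⟩
    rintro rfl
    exact hv' hu.2
  have h1 := card_le_card hint
  have h2 := B_star_card hDm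
  have h0 : 0 < D.card := hDn.card_pos
  have hTC := hT.2 D hDS hDn (by
    intro h
    rw [h] at hlt
    omega)
  by_cases h3 : D.card = 2
  · have := hN D hDS h3.ge (by omega)
    omega
  · omega

theorem exists_sep (hT : TC en S) (hN : ¬ N2 en S) {r : E} (hr : r ∈ S) :
    ∃ A ⊆ S, r ∉ A ∧ 2 ≤ A.card ∧ 2 ≤ (S \ A).card ∧
      ∃ x y, x ≠ y ∧ vs en A ∩ vs en (S \ A) = {x, y} := by
  unfold N2 at hN
  push Not at hN
  obtain ⟨A, hA, h1, h2, h3⟩ := hN
  have hne : A ≠ S := by
    rintro rfl
    simp at h2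
  have h4 := hT.2 A hA (card_pos.1 (by omega)) hne
  obtain ⟨x, y, hxy, h5⟩ := card_eq_two.1 (by omega : (vs en A ∩ vs en (S \ A)).card = 2)
  by_cases hrA : r ∈ A
  · refine ⟨S \ A, sdiff_subset, by simp [hrA], h2, ?_, x, y, hxy, ?_⟩
    · rwa [Finset.sdiff_sdiff_eq_self hA]
    · rw [Finset.sdiff_sdiff_eq_self hA, inter_comm]
      exact h5
  · exact ⟨A, hA, hrA, h1, h2, x, y, hxy, h5⟩

theorem B_other_edge (hT : TC en S) (hN : N2 en S) (h4 : 4 ≤ S.card) {v : V} (hv : v ∈ vs en S)
    (e : E) : v ∈ vs en (S.erase e) := by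
  have h := deg_of_N2 hT hN h4 hv
  have h1 : (S.filter (fun e => (en e).1 = v ∨ (en e).2 = v)).erase e ≠ ∅ := by
    intro h2
    have := Finset.pred_card_le_card_erase
      (s := S.filter (fun e => (en e).1 = v ∨ (en e).2 = v)) (a := e)
    rw [h2] at this
    simp at this
    omega
  obtain ⟨f, hf⟩ := nonempty_of_ne_empty h1
  rw [mem_erase, mem_filter] at hf
  exact B_mem_vs.2 ⟨f, by rw [mem_erase]; exact ⟨hf.1, hf.2.1⟩, hf.2.2⟩

/-- bookkeeping: `S.erase e = A ∪ B` implies `S \ A = insert e B` -/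
theorem B_sdiff {A : Finset E} {e : E} (he : e ∈ S) (hA : A ⊆ S.erase e) :
    S \ A = insert e (S.erase e \ A) := by
  ext f
  simp only [mem_sdiff, mem_insert, mem_erase]
  constructor
  · rintro ⟨h1, h2⟩
    by_cases h : f = e
    · exact Or.inl h
    · exact Or.inr ⟨⟨h, h1⟩, h2⟩
  · rintro (rfl | ⟨⟨_, h2⟩, h3⟩)
    · refine ⟨he, fun h => ?_⟩
      have := hA h
      simp at this
    · exact ⟨h2, h3⟩

theorem B_sdiff' {A : Finset E} {e : E} :
    S \ (insert e A) = S.erase e \ A := by
  ext f
  simp only [mem_sdiff, mem_insert, mem_erase]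
  tauto

/-- one symmetric half of `tc_del` -/
theorem B_del_aux (hN : N2 en S) {e : E} (he : e ∈ S) {A : Finset E}
    (hA : A ⊆ S.erase e) (hA2 : 2 ≤ A.card) (hB : (S.erase e \ A).Nonempty)
    (hab : ¬ ((en e).1 ∈ vs en A ∧ (en e).2 ∈ vs en A))
    (hsm : (vs en A ∩ vs en (S.erase e \ A)).card ≤ 1) : False := by
  have hAS : A ⊆ S := hA.trans (erase_subset _ _)
  have h1 := hN A hAS hA2 (by
    rw [B_sdiff he hA, card_insert_of_notMem (by simp)]
    have := hB.card_pos
    omega)
  rw [B_sdiff he hA, B_vs_insert, inter_union_distrib_left] at h1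
  have h2 := card_union_le (vs en A ∩ {(en e).1, (en e).2}) (vs en A ∩ vs en (S.erase e \ A))
  have h3 : (vs en A ∩ {(en e).1, (en e).2}).card ≤ 1 := by
    by_cases ha : (en e).1 ∈ vs en A
    · have hb : (en e).2 ∉ vs en A := fun h => hab ⟨ha, h⟩
      have : vs en A ∩ {(en e).1, (en e).2} ⊆ {(en e).1} := by
        intro u hu
        simp only [mem_inter, mem_insert, mem_singleton] at hu ⊢
        rcases hu.2 with h | h
        · exact h
        · rw [h] at hu
          exact absurd hu.1 hb
      exact (card_le_card this).trans (by simp)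
    · have : vs en A ∩ {(en e).1, (en e).2} ⊆ {(en e).2} := by
        intro u hu
        simp only [mem_inter, mem_insert, mem_singleton] at hu ⊢
        rcases hu.2 with h | h
        · rw [h] at hu
          exact absurd hu.1 ha
        · exact h
      exact (card_le_card this).trans (by simp)
  omega

theorem B_del_aux2 (hT : TC en S) {e : E} (he : e ∈ S) {A : Finset E}
    (hA : A ⊆ S.erase e) (hB : (S.erase e \ A).Nonempty)
    (hsm : (vs en A ∩ vs en (S.erase e \ A)).card ≤ 1) :
    ¬ ((en e).1 ∈ vs en A ∧ (en e).2 ∈ vs en A) := by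
  rintro ⟨ha, hb⟩
  have h1 := hT.2 (insert e A) (by
      intro f hf
      rw [mem_insert] at hf
      rcases hf with rfl | hf
      · exact he
      · exact (erase_subset _ _) (hA hf)) (insert_nonempty _ _) (by
      intro h
      have h2 := @B_sdiff' _ _ S A e
      rw [h] at h2
      rw [← h2] at hB
      simp at hB)
  rw [B_sdiff', B_vs_insert] at h1
  have h2 : ({(en e).1, (en e).2} : Finset V) ∪ vs en A = vs en A := by
    rw [union_eq_right]
    intro u hu
    simp only [mem_insert, mem_singleton] at hu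
    rcases hu with rfl | rfl <;> assumption
  rw [h2] at h1
  omega

theorem B_compl_compl {A : Finset E} {e : E} (hA : A ⊆ S.erase e) :
    S.erase e \ (S.erase e \ A) = A := Finset.sdiff_sdiff_eq_self hA

theorem tc_del (hT : TC en S) (hN : N2 en S) (h4 : 4 ≤ S.card) {e : E} (he : e ∈ S) :
    TC en (S.erase e) ∧ vs en (S.erase e) = vs en S := by
  have hc : (S.erase e).card = S.card - 1 := card_erase_of_mem he
  refine ⟨⟨by omega, ?_⟩, ?_⟩
  · intro A hA hAn hAne
    by_contra hlt
    have hsm : (vs en A ∩ vs en (S.erase e \ A)).card ≤ 1 := by omega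
    have hBn : (S.erase e \ A).Nonempty := by
      rw [sdiff_nonempty]
      intro h
      exact hAne (Subset.antisymm hA h)
    have hcB : (S.erase e \ A).card = (S.erase e).card - A.card := card_sdiff_of_subset hA
    have hsm' : (vs en (S.erase e \ A) ∩ vs en (S.erase e \ (S.erase e \ A))).card ≤ 1 := by
      rw [B_compl_compl hA, inter_comm]
      exact hsm
    by_cases h2 : 2 ≤ A.card
    · exact B_del_aux hN he hA h2 hBn (B_del_aux2 hT he hA hBn hsm) hsm
    · refine B_del_aux hN he (A := S.erase e \ A) sdiff_subset (by omega) ?_ ?_ hsm'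
      · rwa [B_compl_compl hA]
      · refine B_del_aux2 hT he sdiff_subset ?_ hsm'
        rwa [B_compl_compl hA]
  · refine Subset.antisymm (B_vs_mono (erase_subset _ _)) ?_
    intro v hv
    exact B_other_edge hT hN h4 hv e

/-- the vertices after redirection -/
theorem B_vs_red {x y : V} (A : Finset E) {v : V} :
    v ∈ vs (red x y en) A ↔ ∃ u ∈ vs en A, (if u = y then x else u) = v := by
  simp only [B_mem_vs, red]
  constructor
  · rintro ⟨e, he, h | h⟩
    · exact ⟨(en e).1, ⟨e, he, Or.inl rfl⟩, h⟩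
    · exact ⟨(en e).2, ⟨e, he, Or.inr rfl⟩, h⟩
  · rintro ⟨u, ⟨e, he, h | h⟩, h'⟩
    · exact ⟨e, he, Or.inl (by rw [h]; exact h')⟩
    · exact ⟨e, he, Or.inr (by rw [h]; exact h')⟩

theorem B_vs_red_of {x y : V} {A : Finset E} {v : V} (hv : v ∈ vs en A) (hy : v ≠ y) :
    v ∈ vs (red x y en) A := by
  rw [B_vs_red]
  exact ⟨v, hv, by rw [if_neg hy]⟩

theorem B_con_aux (hT : TC en S) {e : E} (he : e ∈ S) {x y : V}
    (hxy : en e = (x, y) ∨ en e = (y, x)) {A : Finset E} (hA : A ⊆ S.erase e) (hAn : A.Nonempty)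
    (hsm : (vs (red x y en) A ∩ vs (red x y en) (S.erase e \ A)).card ≤ 1) :
    x ∈ vs (red x y en) A := by
  by_contra hx
  have hxA : x ∉ vs en A := by
    intro h
    apply hx
    rw [B_vs_red]
    refine ⟨x, h, ?_⟩
    split_ifs <;> rfl
  have hyA : y ∉ vs en A := by
    intro h
    apply hx
    rw [B_vs_red]
    exact ⟨y, h, by simp⟩
  have hAS : A ⊆ S := hA.trans (erase_subset _ _)
  have h1 := hT.2 A hAS hAn (by
    rintro rfl
    have := hA he
    simp at this)
  rw [B_sdiff he hA, B_vs_insert] at h1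
  have h2 : vs en A ∩ ({(en e).1, (en e).2} ∪ vs en (S.erase e \ A)) ⊆
      vs (red x y en) A ∩ vs (red x y en) (S.erase e \ A) := by
    intro v hv
    rw [mem_inter, mem_union] at hv
    obtain ⟨hvA, hv2⟩ := hv
    have hvy : v ≠ y := by
      rintro rfl
      exact hyA hvA
    have hvx : v ≠ x := by
      rintro rfl
      exact hxA hvA
    rw [mem_inter]
    refine ⟨B_vs_red_of hvA hvy, ?_⟩
    rcases hv2 with h | h
    · exfalso
      simp only [mem_insert, mem_singleton] at h
      rcases hxy with hxy | hxy <;> rw [hxy] at h <;> rcases h with h | h <;> simp_all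
    · exact B_vs_red_of h hvy
  have h3 := card_le_card h2
  omega

theorem B_con_aux2 (hN : N2 en S) {e : E} (he : e ∈ S) {x y : V}
    (hxy : en e = (x, y) ∨ en e = (y, x)) {A : Finset E} (hA : A ⊆ S.erase e) (hA2 : 2 ≤ A.card)
    (hB : (S.erase e \ A).Nonempty)
    (hsm : (vs (red x y en) A ∩ vs (red x y en) (S.erase e \ A)).card ≤ 1)
    (hxm : x ∈ vs (red x y en) A ∩ vs (red x y en) (S.erase e \ A)) : False := by
  have hAS : A ⊆ S := hA.trans (erase_subset _ _)
  have h1 := hN A hAS hA2 (by
    rw [B_sdiff he hA, card_insert_of_notMem (by simp)]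
    have := hB.card_pos
    omega)
  rw [B_sdiff he hA, B_vs_insert] at h1
  have h2 : vs en A ∩ ({(en e).1, (en e).2} ∪ vs en (S.erase e \ A)) ⊆ {x, y} := by
    intro v hv
    rw [mem_inter, mem_union] at hv
    obtain ⟨hvA, hv2⟩ := hv
    rcases hv2 with h | h
    · simp only [mem_insert, mem_singleton] at h ⊢
      rcases hxy with hxy | hxy <;> rw [hxy] at h <;> rcases h with h | h <;> simp_all
    · simp only [mem_insert, mem_singleton]
      by_cases hvy : v = y
      · exact Or.inr hvy
      · left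
        have h3 : v ∈ vs (red x y en) A ∩ vs (red x y en) (S.erase e \ A) := by
          rw [mem_inter]
          exact ⟨B_vs_red_of hvA hvy, B_vs_red_of h hvy⟩
        exact card_le_one.1 hsm v h3 x hxm
  have h3 := card_le_card h2
  have h4 := B_pair_card x y
  omega

theorem tc_con (hT : TC en S) (hN : N2 en S) (h4 : 4 ≤ S.card) {e : E} (he : e ∈ S) {x y : V}
    (hxy : en e = (x, y) ∨ en e = (y, x)) :
    x ≠ y ∧ TC (red x y en) (S.erase e) ∧ vs (red x y en) (S.erase e) = (vs en S).erase y := by
  have hne : x ≠ y := by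
    have h := B_noloop hT he
    rcases hxy with hxy | hxy <;> rw [hxy] at h
    · exact h
    · exact fun h' => h h'.symm
  have hc : (S.erase e).card = S.card - 1 := card_erase_of_mem he
  refine ⟨hne, ⟨by omega, ?_⟩, ?_⟩
  · intro A hA hAn hAne
    by_contra hlt
    have hsm : (vs (red x y en) A ∩ vs (red x y en) (S.erase e \ A)).card ≤ 1 := by omega
    have hBn : (S.erase e \ A).Nonempty := by
      rw [sdiff_nonempty]
      intro h
      exact hAne (Subset.antisymm hA h)
    have hcB : (S.erase e \ A).card = (S.erase e).card - A.card := card_sdiff_of_subset hA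
    have hsm' : (vs (red x y en) (S.erase e \ A) ∩
        vs (red x y en) (S.erase e \ (S.erase e \ A))).card ≤ 1 := by
      rw [B_compl_compl hA, inter_comm]
      exact hsm
    have hx1 := B_con_aux hT he hxy hA hAn hsm
    have hx2 := B_con_aux hT he hxy (A := S.erase e \ A) sdiff_subset hBn hsm'
    by_cases h2 : 2 ≤ A.card
    · exact B_con_aux2 hN he hxy hA h2 hBn hsm (mem_inter.2 ⟨hx1, hx2⟩)
    · refine B_con_aux2 hN he hxy (A := S.erase e \ A) sdiff_subset (by omega) ?_ hsm' ?_
      · rwa [B_compl_compl hA]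
      · rw [B_compl_compl hA]
        exact mem_inter.2 ⟨hx2, hx1⟩
  · ext v
    rw [B_vs_red, mem_erase]
    constructor
    · rintro ⟨u, hu, h⟩
      have huS : u ∈ vs en S := B_vs_mono (erase_subset _ _) hu
      split_ifs at h with h1
      · subst h
        refine ⟨hne, B_mem_vs.2 ⟨e, he, ?_⟩⟩
        rcases hxy with hxy | hxy <;> rw [hxy] <;> simp
      · subst h
        exact ⟨h1, huS⟩
    · rintro ⟨hvy, hv⟩
      exact ⟨v, B_other_edge hT hN h4 hv e, by rw [if_neg hvy]⟩

theorem B_comp_aux {A : Finset E} (hT : TC en S) (hA : A ⊆ S) (hA0 : A.Nonempty)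
    {x y : V} (hbd : vs en A ∩ vs en (S \ A) = {x, y}) {g : E}
    (hg : g ∈ A) {P Q : Finset E} (hP : P ⊆ S \ A) (hQ : Q ⊆ S \ A) (hPQ : S \ A ⊆ P ∪ Q)
    (hd : Disjoint P Q) (hQn : Q.Nonempty) :
    2 ≤ (vs (Function.update en g (x, y)) (insert g P) ∩
      vs (Function.update en g (x, y)) Q).card := by
  have hgn : ∀ f ∈ S \ A, Function.update en g (x, y) f = en f := by
    intro f hf
    rw [Function.update_of_ne]
    rintro rfl
    rw [mem_sdiff] at hf
    exact hf.2 hg
  have h1 : vs (Function.update en g (x, y)) Q = vs en Q :=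
    B_vs_congr fun f hf => hgn f (hQ hf)
  have h2 : vs (Function.update en g (x, y)) (insert g P) = {x, y} ∪ vs en P := by
    rw [B_vs_insert, Function.update_self, B_vs_congr fun f hf => hgn f (hP hf)]
  rw [h1, h2]
  have hSPQ : S \ (P ∪ A) = Q := by
    ext f
    simp only [mem_sdiff, mem_union, not_or]
    constructor
    · rintro ⟨h3, h4, h5⟩
      have := hPQ (mem_sdiff.2 ⟨h3, h5⟩)
      rw [mem_union] at this
      tauto
    · intro h
      have h3 := mem_sdiff.1 (hQ h)
      exact ⟨h3.1, fun h4 => (disjoint_left.1 hd) h4 h, h3.2⟩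
  have h3 := hT.2 (P ∪ A) (by
      intro f hf
      rw [mem_union] at hf
      rcases hf with hf | hf
      · exact (mem_sdiff.1 (hP hf)).1
      · exact hA hf) (by
      obtain ⟨a, ha⟩ := hA0
      exact ⟨a, mem_union_right _ ha⟩) (by
      intro h
      rw [h, sdiff_self] at hSPQ
      rw [← hSPQ] at hQn
      simp at hQn)
  rw [hSPQ, B_vs_union] at h3
  have h4 : (vs en P ∪ vs en A) ∩ vs en Q ⊆ ({x, y} ∪ vs en P) ∩ vs en Q := by
    intro v hv
    rw [mem_inter, mem_union] at hv
    rw [mem_inter, mem_union]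
    refine ⟨?_, hv.2⟩
    rcases hv.1 with h | h
    · exact Or.inr h
    · left
      rw [← hbd, mem_inter]
      exact ⟨h, B_vs_mono hQ hv.2⟩
  exact h3.trans (card_le_card h4)

theorem tc_comp {A : Finset E} (hT : TC en S) (hA : A ⊆ S) (hA0 : A.Nonempty)
    (hB0 : (S \ A).Nonempty) {x y : V} (hbd : vs en A ∩ vs en (S \ A) = {x, y}) {g : E}
    (hg : g ∈ A) :
    TC (Function.update en g (x, y)) (insert g (S \ A)) ∧
      vs (Function.update en g (x, y)) (insert g (S \ A)) = vs en (S \ A) := by
  have hgn : ∀ f ∈ S \ A, Function.update en g (x, y) f = en f := by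
    intro f hf
    rw [Function.update_of_ne]
    rintro rfl
    rw [mem_sdiff] at hf
    exact hf.2 hg
  have hgB : g ∉ S \ A := by
    rw [mem_sdiff]
    exact fun h => h.2 hg
  refine ⟨⟨?_, ?_⟩, ?_⟩
  · rw [card_insert_of_notMem hgB]
    have := hB0.card_pos
    omega
  · intro P hP hPn hPne
    have hQn : (insert g (S \ A) \ P).Nonempty := by
      rw [sdiff_nonempty]
      intro h
      exact hPne (Subset.antisymm hP h)
    by_cases hgP : g ∈ P
    · have h := B_comp_aux hT hA hA0 hbd hg (P := P.erase g) (Q := insert g (S \ A) \ P)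
        (by
          intro f hf
          rw [mem_erase] at hf
          have := hP hf.2
          rw [mem_insert] at this
          tauto)
        (by
          intro f hf
          rw [mem_sdiff, mem_insert] at hf
          rcases hf.1 with rfl | h
          · exact absurd hgP hf.2
          · exact h)
        (by
          intro f hf
          rw [mem_union, mem_erase, mem_sdiff, mem_insert]
          by_cases hfP : f ∈ P
          · left
            refine ⟨?_, hfP⟩
            rintro rfl
            exact hgB hf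
          · exact Or.inr ⟨Or.inr hf, hfP⟩)
        (by
          rw [disjoint_left]
          intro f hf hf'
          rw [mem_erase] at hf
          rw [mem_sdiff] at hf'
          exact hf'.2 hf.2)
        hQn
      rwa [insert_erase hgP] at h
    · have hgQ : g ∈ insert g (S \ A) \ P := by
        rw [mem_sdiff]
        exact ⟨mem_insert_self _ _, hgP⟩
      have h := B_comp_aux hT hA hA0 hbd hg (P := (insert g (S \ A) \ P).erase g) (Q := P)
        (by
          intro f hf
          rw [mem_erase, mem_sdiff, mem_insert] at hf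
          tauto)
        (by
          intro f hf
          have := hP hf
          rw [mem_insert] at this
          rcases this with rfl | h
          · exact absurd hf hgP
          · exact h)
        (by
          intro f hf
          rw [mem_union, mem_erase, mem_sdiff, mem_insert]
          by_cases hfP : f ∈ P
          · exact Or.inr hfP
          · left
            refine ⟨?_, Or.inr hf, hfP⟩
            rintro rfl
            exact hgB hf)
        (by
          rw [disjoint_left]
          intro f hf hf'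
          rw [mem_erase, mem_sdiff] at hf
          exact hf.2.2 hf')
        hPn
      rw [insert_erase hgQ] at h
      rwa [inter_comm] at h
  · rw [B_vs_insert, Function.update_self, B_vs_congr hgn, union_eq_right, ← hbd]
    exact inter_subset_right

theorem exists_off (hT : TC en S) (hN : N2 en S) (h4 : 4 ≤ S.card) (r : E) (z : V) :
    ∃ e ∈ S, e ≠ r ∧ (en e).1 ≠ z ∧ (en e).2 ≠ z := by
  by_contra hcon
  push Not at hcon
  obtain ⟨e0, he0⟩ : S.Nonempty := card_pos.1 (by omega)
  obtain ⟨u, hu, huz⟩ : ∃ u ∈ vs en S, u ≠ z := by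
    by_cases h : (en e0).1 = z
    · refine ⟨(en e0).2, B_mem_vs.2 ⟨e0, he0, Or.inr rfl⟩, ?_⟩
      intro h'
      exact B_noloop hT he0 (h.trans h'.symm)
    · exact ⟨(en e0).1, B_mem_vs.2 ⟨e0, he0, Or.inl rfl⟩, h⟩
  have hdeg := deg_of_N2 hT hN h4 hu
  have h1 : 1 < ((S.filter (fun e => (en e).1 = u ∨ (en e).2 = u)).erase r).card := by
    have := Finset.pred_card_le_card_erase
      (s := S.filter (fun e => (en e).1 = u ∨ (en e).2 = u)) (a := r)
    omega
  obtain ⟨e, he, f, hf, hef⟩ := one_lt_card.1 h1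
  have key : ∀ g, g ∈ (S.filter (fun e => (en e).1 = u ∨ (en e).2 = u)).erase r →
      g ∈ S ∧ (en g = (u, z) ∨ en g = (z, u)) := by
    intro g hg
    rw [mem_erase, mem_filter] at hg
    refine ⟨hg.2.1, ?_⟩
    have h2 := hcon g hg.2.1 hg.1
    rcases hg.2.2 with h3 | h3
    · left
      have h5 : (en g).1 ≠ z := by rw [h3]; exact huz
      exact Prod.ext h3 (h2 h5)
    · right
      by_cases h5 : (en g).1 = z
      · exact Prod.ext h5 h3
      · have := h2 h5
        rw [h3] at this
        exact absurd this huz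
  obtain ⟨heS, he'⟩ := key e he
  obtain ⟨hfS, hf'⟩ := key f hf
  exact simple_of_N2 hT hN h4 heS hfS hef u z he' hf'

end Multi

end Pool.Agent.H194R2.JS
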