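import Pool.Agent.H194R2.JS.Defs
import Pool.Agent.H194R2.JS.Struct

/-!
# Module C: the game on labelled 2-connected graphs
-/

namespace Pool.Agent.H194R2.JS

open Finset

set_option linter.unusedSectionVars false

section C

variable {V E : Type} [DecidableEq V] [DecidableEq E]

/-- hypotheses of the game -/
structure CHyp (j : ℕ) (r : E) (C W : St V E → Prop) : Prop where
  hdel : ∀ σ e, C σ → C (σ.del e)
  hcon : ∀ σ e x y, C σ → C (σ.con e x y)
  hsep : ∀ σ A g x y, C σ → TC σ.en σ.S → r ∈ σ.S → A ⊆ σ.S → r ∉ A → 2 ≤ A.card →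
      2 ≤ (σ.S \ A).card → g ∈ A → x ≠ y → vs σ.en A ∩ vs σ.en (σ.S \ A) = {x, y} →
      ∃ w, C (σ.comp A g x y w) ∧ (W (σ.comp A g x y w) → W σ)
  hmed : ∀ σ e x y, C σ → TC σ.en σ.S → N2 σ.en σ.S → 4 ≤ σ.S.card → r ∈ σ.S → e ∈ σ.S → e ≠ r →
      (σ.en e = (x, y) ∨ σ.en e = (y, x)) → W (σ.del e) → W (σ.con e x y) → W σ
  hheavy : ∀ σ, C σ → TC σ.en σ.S → r ∈ σ.S → 3 ≤ σ.S.card →
      (∃ e ∈ σ.S, e ≠ r ∧ j ≤ σ.lab e) → W σ

/-- a position of the game -/
structure CGood (r : E) (C : St V E → Prop) (σ : St V E) : Prop where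
  c : C σ
  tc : TC σ.en σ.S
  r : r ∈ σ.S
  three : 3 ≤ σ.S.card

variable {j l : ℕ} {r : E} {C W : St V E → Prop} {σ : St V E}

theorem CGood.heavy (h : CGood r C σ) (H : CHyp j r C W) {e : E} (he : e ∈ σ.S) (her : e ≠ r)
    (hj : j ≤ σ.lab e) : W σ :=
  H.hheavy σ h.c h.tc h.r h.three ⟨e, he, her, hj⟩

theorem CGood.del (h : CGood r C σ) (H : CHyp j r C W) (hN : N2 σ.en σ.S) (h4 : 4 ≤ σ.S.card)
    {e : E} (he : e ∈ σ.S) (her : e ≠ r) : CGood r C (σ.del e) where
  c := H.hdel σ e h.c
  tc := (tc_del h.tc hN h4 he).1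
  r := mem_erase.2 ⟨her.symm, h.r⟩
  three := by
    have : (σ.del e).S.card + 1 = σ.S.card := card_erase_add_one he
    omega

theorem CGood.con (h : CGood r C σ) (H : CHyp j r C W) (hN : N2 σ.en σ.S) (h4 : 4 ≤ σ.S.card)
    {e : E} (he : e ∈ σ.S) (her : e ≠ r) {x y : V}
    (hxy : σ.en e = (x, y) ∨ σ.en e = (y, x)) : CGood r C (σ.con e x y) where
  c := H.hcon σ e x y h.c
  tc := (tc_con h.tc hN h4 he hxy).2.1
  r := mem_erase.2 ⟨her.symm, h.r⟩
  three := by
    have : (σ.con e x y).S.card + 1 = σ.S.card := card_erase_add_one he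
    omega

theorem C_four {en : E → V × V} {S : Finset E} (hN : ¬ N2 en S) : 4 ≤ S.card := by
  unfold N2 at hN
  push Not at hN
  obtain ⟨A, hA, h1, h2, _⟩ := hN
  have := card_sdiff_add_card_eq_card hA
  omega

theorem C_sep (H : CHyp j r C W) (h : CGood r C σ) (hN : ¬ N2 σ.en σ.S) :
    ∃ (A : Finset E) (g : E) (x y : V) (w : ℝ), A ⊆ σ.S ∧ r ∉ A ∧ 2 ≤ A.card ∧ g ∈ A ∧
      vs σ.en A ∩ vs σ.en (σ.S \ A) = {x, y} ∧ CGood r C (σ.comp A g x y w) ∧
      (W (σ.comp A g x y w) → W σ) ∧ (σ.comp A g x y w).S.card + A.card = σ.S.card + 1 := by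
  obtain ⟨A, hA, hrA, h2, h2', x, y, hxy, hbd⟩ := exists_sep h.tc hN h.r
  obtain ⟨g, hg⟩ : A.Nonempty := card_pos.1 (by omega)
  obtain ⟨w, hw1, hw2⟩ := H.hsep σ A g x y h.c h.tc h.r hA hrA h2 h2' hg hxy hbd
  have hgB : g ∉ σ.S \ A := by simp [hg]
  have hc : (σ.comp A g x y w).S.card = (σ.S \ A).card + 1 := card_insert_of_notMem hgB
  have hc' := card_sdiff_add_card_eq_card hA
  refine ⟨A, g, x, y, w, hA, hrA, h2, hg, hbd, ⟨hw1, ?_, ?_, ?_⟩, hw2, ?_⟩
  · exact (tc_comp h.tc hA ⟨g, hg⟩ (card_pos.1 (by omega)) hbd hg).1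
  · exact mem_insert_of_mem (mem_sdiff.2 ⟨h.r, hrA⟩)
  · omega
  · omega

theorem C_sum_comp {S A : Finset E} {g : E} (hA : A ⊆ S) (hr : r ∉ A) (hg : g ∈ A)
    (f f' : E → ℕ) (hf : ∀ e ∈ S \ A, f' e = f e) :
    ∑ e ∈ (insert g (S \ A)).erase r, f' e + ∑ e ∈ A, f e = ∑ e ∈ S.erase r, f e + f' g := by
  have hgr : g ≠ r := fun h => hr (h ▸ hg)
  have h1 : (insert g (S \ A)).erase r = insert g ((S \ A).erase r) := by
    rw [erase_insert_of_ne hgr]
  have h2 : S.erase r = A ∪ (S \ A).erase r := by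
    ext e
    simp only [mem_erase, mem_union, mem_sdiff]
    constructor
    · rintro ⟨h, h'⟩
      by_cases hh : e ∈ A
      · exact Or.inl hh
      · exact Or.inr ⟨h, h', hh⟩
    · rintro (h | ⟨h, h', _⟩)
      · exact ⟨fun h' => hr (h' ▸ h), hA h⟩
      · exact ⟨h, h'⟩
  have h3 : Disjoint A ((S \ A).erase r) := by
    rw [Finset.disjoint_left]
    intro e he he'
    simp only [mem_erase, mem_sdiff] at he'
    exact he'.2.2 he
  rw [h1, h2, sum_insert, sum_union h3,
    sum_congr rfl (fun e he => hf e (mem_of_mem_erase he))]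
  · ring
  · simp [hg]

theorem C_sum_split {S A : Finset E} (hA : A ⊆ S) (hr : r ∉ A) (f : E → ℕ) :
    ∑ e ∈ S.erase r, f e = ∑ e ∈ A, f e + ∑ e ∈ (S \ A).erase r, f e := by
  have h2 : S.erase r = A ∪ (S \ A).erase r := by
    ext e
    simp only [mem_erase, mem_union, mem_sdiff]
    constructor
    · rintro ⟨h, h'⟩
      by_cases hh : e ∈ A
      · exact Or.inl hh
      · exact Or.inr ⟨h, h', hh⟩
    · rintro (h | ⟨h, h', _⟩)
      · exact ⟨fun h' => hr (h' ▸ h), hA h⟩
      · exact ⟨h, h'⟩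
  have h3 : Disjoint A ((S \ A).erase r) := by
    rw [Finset.disjoint_left]
    intro e he he'
    simp only [mem_erase, mem_sdiff] at he'
    exact he'.2.2 he
  rw [h2, sum_union h3]

theorem C_sum_erase {S : Finset E} {e : E} (he : e ∈ S) (her : e ≠ r) (f : E → ℕ) :
    ∑ a ∈ (S.erase e).erase r, f a + f e = ∑ a ∈ S.erase r, f a := by
  rw [erase_right_comm]
  exact sum_erase_add _ _ (mem_erase.2 ⟨her, he⟩)

/-- total label of the non-root edges at `z` -/
def Cstar (r : E) (σ : St V E) (z : V) : ℕ :=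
  ∑ e ∈ σ.S.erase r, if (σ.en e).1 = z ∨ (σ.en e).2 = z then σ.lab e else 0

/-- total label of the marked edges -/
def Cmu (l : ℕ) (r : E) (σ : St V E) : ℕ :=
  ∑ e ∈ σ.S.erase r, if l + 1 ≤ σ.lab e then σ.lab e else 0

/-- number of marked edges -/
def Cmi (l : ℕ) (r : E) (σ : St V E) : ℕ :=
  ∑ e ∈ σ.S.erase r, if l + 1 ≤ σ.lab e then 1 else 0

theorem C_comp_lab_g {A : Finset E} {g : E} {x y : V} {w : ℝ} :
    (σ.comp A g x y w).lab g = ∑ e ∈ A, σ.lab e := by
  simp [St.comp]

theorem C_comp_lab_ne {A : Finset E} {g : E} {x y : V} {w : ℝ} {e : E} (he : e ≠ g) :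
    (σ.comp A g x y w).lab e = σ.lab e := by
  simp [St.comp, he]

theorem C_comp_en_g {A : Finset E} {g : E} {x y : V} {w : ℝ} :
    (σ.comp A g x y w).en g = (x, y) := by
  simp [St.comp]

theorem C_comp_en_ne {A : Finset E} {g : E} {x y : V} {w : ℝ} {e : E} (he : e ≠ g) :
    (σ.comp A g x y w).en e = σ.en e := by
  simp [St.comp, he]

theorem C_mem_vs {en : E → V × V} {A : Finset E} {v : V} :
    v ∈ vs en A ↔ ∃ e ∈ A, (en e).1 = v ∨ (en e).2 = v := by
  simp only [vs, mem_union, mem_image]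
  constructor
  · rintro (⟨e, he, h⟩ | ⟨e, he, h⟩)
    · exact ⟨e, he, Or.inl h⟩
    · exact ⟨e, he, Or.inr h⟩
  · rintro ⟨e, he, h | h⟩
    · exact Or.inl ⟨e, he, h⟩
    · exact Or.inr ⟨e, he, h⟩

/-- if the two non-root edges of a graph with three edges have total label at least `2 j` -/
theorem C_three (H : CHyp j r C W) (h : CGood r C σ) (h3 : σ.S.card = 3)
    (hs : 2 * j ≤ ∑ e ∈ σ.S.erase r, σ.lab e) : W σ := by
  by_contra hW
  have hlt : ∀ e ∈ σ.S.erase r, σ.lab e < j ∨ j = 0 := by
    intro e he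
    rw [mem_erase] at he
    by_contra hcon
    push Not at hcon
    exact hW (h.heavy H he.2 he.1 hcon.1)
  have hc : (σ.S.erase r).card = 2 := by
    rw [card_erase_of_mem h.r, h3]
  have hne : (σ.S.erase r).Nonempty := card_pos.1 (by omega)
  obtain ⟨e, he⟩ := hne
  rcases Nat.eq_zero_or_pos j with hj | hj
  · rw [mem_erase] at he
    exact hW (h.heavy H he.2 he.1 (by omega))
  · have : ∑ e ∈ σ.S.erase r, σ.lab e < ∑ e ∈ σ.S.erase r, j := by
      apply sum_lt_sum_of_nonempty ⟨e, he⟩
      intro e he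
      rcases hlt e he with h | h
      · exact h
      · omega
    rw [sum_const, hc, smul_eq_mul] at this
    omega

/-- star retention -/
theorem C_SR (H : CHyp j r C W) (z : V) : ∀ n : ℕ, ∀ σ : St V E, σ.S.card ≤ n → CGood r C σ →
    2 * j ≤ Cstar r σ z → W σ := by
  intro n
  induction n with
  | zero =>
    intro σ hn h _
    have := h.three
    omega
  | succ n ih =>
    intro σ hn h hs
    by_cases hN : N2 σ.en σ.S
    · by_cases h4 : 4 ≤ σ.S.card
      · obtain ⟨e, he, her, he1, he2⟩ := exists_off h.tc hN h4 r z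
        have hcd : (σ.S.erase e).card + 1 = σ.S.card := card_erase_add_one he
        refine H.hmed σ e (σ.en e).1 (σ.en e).2 h.c h.tc hN h4 h.r he her (Or.inl rfl) ?_ ?_
        · refine ih _ ?_ (h.del H hN h4 he her) ?_
          · show (σ.S.erase e).card ≤ n
            omega
          · have := C_sum_erase (r := r) he her
              (fun e => if (σ.en e).1 = z ∨ (σ.en e).2 = z then σ.lab e else 0)
            simp only [he1, he2, or_self, if_false] at this
            have h' : Cstar r (σ.del e) z = Cstar r σ z := by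
              unfold Cstar
              rw [← this]
              rfl
            rw [h']
            exact hs
        · refine ih _ ?_ (h.con H hN h4 he her (Or.inl rfl)) ?_
          · show (σ.S.erase e).card ≤ n
            omega
          · have := C_sum_erase (r := r) he her
              (fun e => if (σ.en e).1 = z ∨ (σ.en e).2 = z then σ.lab e else 0)
            simp only [he1, he2, or_self, if_false] at this
            have h' : Cstar r (σ.con e (σ.en e).1 (σ.en e).2) z = Cstar r σ z := by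
              unfold Cstar
              rw [← this]
              simp only [St.con, add_zero]
              apply sum_congr rfl
              intro a _
              have hred : ((red (σ.en e).1 (σ.en e).2 σ.en a).1 = z ∨
                  (red (σ.en e).1 (σ.en e).2 σ.en a).2 = z) ↔
                  ((σ.en a).1 = z ∨ (σ.en a).2 = z) := by
                unfold red
                have key : ∀ u : V, (if u = (σ.en e).2 then (σ.en e).1 else u) = z ↔ u = z := by
                  intro u
                  split_ifs with hu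
                  · subst hu
                    exact ⟨fun h => absurd h he1, fun h => absurd h he2⟩
                  · exact Iff.rfl
                simp only [key]
              simp only [hred]
            rw [h']
            exact hs
      · have h3 : σ.S.card = 3 := by
          have := h.three
          omega
        refine C_three H h h3 (le_trans hs ?_)
        unfold Cstar
        apply sum_le_sum
        intro e _
        split_ifs <;> omega
    · obtain ⟨A, g, x, y, w, hA, hrA, h2, hg, hbd, hG, hW, hcd⟩ := C_sep H h hN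
      apply hW
      have hgr : g ≠ r := fun h => hrA (h ▸ hg)
      have hgS : g ∈ (σ.comp A g x y w).S := mem_insert_self _ _
      have hsum := C_sum_comp (r := r) hA hrA hg
        (fun e => if (σ.en e).1 = z ∨ (σ.en e).2 = z then σ.lab e else 0)
        (fun e => if ((σ.comp A g x y w).en e).1 = z ∨ ((σ.comp A g x y w).en e).2 = z then
          (σ.comp A g x y w).lab e else 0) (by
            intro e he
            have heg : e ≠ g := by
              rintro rfl
              exact (mem_sdiff.1 he).2 hg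
            simp only [C_comp_en_ne heg, C_comp_lab_ne heg])
      simp only [C_comp_en_g, C_comp_lab_g] at hsum
      have hS : ∑ e ∈ (insert g (σ.S \ A)).erase r,
          (if ((σ.comp A g x y w).en e).1 = z ∨ ((σ.comp A g x y w).en e).2 = z then
          (σ.comp A g x y w).lab e else 0) = Cstar r (σ.comp A g x y w) z := rfl
      have hS' : ∑ e ∈ σ.S.erase r, (if (σ.en e).1 = z ∨ (σ.en e).2 = z then σ.lab e else 0)
        = Cstar r σ z := rfl
      rw [hS, hS'] at hsum
      have hle : ∑ e ∈ A, (if (σ.en e).1 = z ∨ (σ.en e).2 = z then σ.lab e else 0)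
          ≤ ∑ e ∈ A, σ.lab e := by
        apply sum_le_sum
        intro e _
        split_ifs <;> omega
      by_cases hz : x = z ∨ y = z
      · rw [if_pos hz] at hsum
        exact ih _ (by omega) hG (by omega)
      · rw [if_neg hz] at hsum
        by_cases hzA : z ∈ vs σ.en A
        · have hzB : z ∉ vs σ.en (σ.S \ A) := by
            intro hzB
            have : z ∈ ({x, y} : Finset V) := by
              rw [← hbd]
              exact mem_inter.2 ⟨hzA, hzB⟩
            rw [mem_insert, mem_singleton] at this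
            rcases this with h | h
            · exact hz (Or.inl h.symm)
            · exact hz (Or.inr h.symm)
          have hsp := C_sum_split (r := r) hA hrA
            (fun e => if (σ.en e).1 = z ∨ (σ.en e).2 = z then σ.lab e else 0)
          have h0 : ∑ e ∈ (σ.S \ A).erase r,
              (if (σ.en e).1 = z ∨ (σ.en e).2 = z then σ.lab e else 0) = 0 := by
            apply sum_eq_zero
            intro e he
            rw [if_neg]
            intro hh
            exact hzB (C_mem_vs.2 ⟨e, mem_of_mem_erase he, hh⟩)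
          rw [h0, hS'] at hsp
          refine hG.heavy H hgS hgr ?_
          rw [C_comp_lab_g]
          omega
        · have h0 : ∑ e ∈ A, (if (σ.en e).1 = z ∨ (σ.en e).2 = z then σ.lab e else 0) = 0 := by
            apply sum_eq_zero
            intro e he
            rw [if_neg]
            intro hh
            exact hzA (C_mem_vs.2 ⟨e, he, hh⟩)
          rw [h0] at hsum
          exact ih _ (by omega) hG (by omega)

/-! ### marked edges -/

theorem C_mu_comp {A : Finset E} {g : E} {x y : V} {w : ℝ} (hl : 1 ≤ l) (hA : A ⊆ σ.S)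
    (hrA : r ∉ A) (hg : g ∈ A) (h2 : 2 ≤ A.card) (hlab : ∀ e ∈ σ.S, e ≠ r → l ≤ σ.lab e) :
    l + 1 ≤ ∑ e ∈ A, σ.lab e ∧
    (∀ e ∈ (σ.comp A g x y w).S, e ≠ r → l ≤ (σ.comp A g x y w).lab e) ∧
    Cmu l r (σ.comp A g x y w) + (∑ e ∈ A, if l + 1 ≤ σ.lab e then σ.lab e else 0) =
      Cmu l r σ + ∑ e ∈ A, σ.lab e ∧
    Cmi l r (σ.comp A g x y w) + (∑ e ∈ A, if l + 1 ≤ σ.lab e then 1 else 0) =
      Cmi l r σ + 1 := by
  have hsum : l + 1 ≤ ∑ e ∈ A, σ.lab e := by
    have h1 : ∑ e ∈ A, l ≤ ∑ e ∈ A, σ.lab e :=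
      sum_le_sum (fun e he => hlab e (hA he) (fun h => hrA (h ▸ he)))
    rw [sum_const, smul_eq_mul] at h1
    nlinarith
  have hne : ∀ e ∈ σ.S \ A, e ≠ g := by
    rintro e he rfl
    exact (mem_sdiff.1 he).2 hg
  refine ⟨hsum, ?_, ?_, ?_⟩
  · intro e he her
    rcases mem_insert.1 he with rfl | he
    · rw [C_comp_lab_g]
      omega
    · rw [C_comp_lab_ne (hne e he)]
      exact hlab e (mem_sdiff.1 he).1 her
  · have hs := C_sum_comp (r := r) hA hrA hg
        (fun e => if l + 1 ≤ σ.lab e then σ.lab e else 0)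
        (fun e => if l + 1 ≤ (σ.comp A g x y w).lab e then
          (σ.comp A g x y w).lab e else 0) (by
            intro e he
            simp only [C_comp_lab_ne (hne e he)])
    simp only [C_comp_lab_g, if_pos hsum] at hs
    exact hs
  · have hs := C_sum_comp (r := r) hA hrA hg
        (fun e => if l + 1 ≤ σ.lab e then 1 else 0)
        (fun e => if l + 1 ≤ (σ.comp A g x y w).lab e then 1 else 0) (by
            intro e he
            simp only [C_comp_lab_ne (hne e he)])
    simp only [C_comp_lab_g, if_pos hsum] at hs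
    exact hs

theorem C_mu_del {e : E} (he : e ∈ σ.S) (her : e ≠ r) (hl : ¬ l + 1 ≤ σ.lab e) :
    Cmu l r (σ.del e) = Cmu l r σ ∧ Cmi l r (σ.del e) = Cmi l r σ := by
  constructor
  · have := C_sum_erase (r := r) he her (fun e => if l + 1 ≤ σ.lab e then σ.lab e else 0)
    simp only [if_neg hl, add_zero] at this
    exact this
  · have := C_sum_erase (r := r) he her (fun e => if l + 1 ≤ σ.lab e then 1 else 0)
    simp only [if_neg hl, add_zero] at this
    exact this

theorem C_mu_con {e : E} {x y : V} (he : e ∈ σ.S) (her : e ≠ r) (hl : ¬ l + 1 ≤ σ.lab e) :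
    Cmu l r (σ.con e x y) = Cmu l r σ ∧ Cmi l r (σ.con e x y) = Cmi l r σ :=
  C_mu_del he her hl

/-- many marked edges -/
theorem C_MR (H : CHyp j r C W) (hl : 1 ≤ l) {n' : ℕ}
    (hP : ∀ σ, CGood r C σ → (∀ e ∈ σ.S, e ≠ r → l + 1 ≤ σ.lab e) → n' ≤ σ.S.card → W σ) :
    ∀ n : ℕ, ∀ σ : St V E, σ.S.card ≤ n → CGood r C σ → (∀ e ∈ σ.S, e ≠ r → l ≤ σ.lab e) →
    n' * j + 2 * j ≤ Cmu l r σ → W σ := by
  intro n
  induction n with
  | zero =>
    intro σ hn h _ _
    have := h.three
    omega
  | succ n ih =>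
    intro σ hn h hlab hs
    have hmule : Cmu l r σ ≤ ∑ e ∈ σ.S.erase r, σ.lab e := by
      unfold Cmu
      apply sum_le_sum
      intro e _
      split_ifs <;> omega
    by_cases hN : N2 σ.en σ.S
    · by_cases h4 : 4 ≤ σ.S.card
      · by_cases hall : ∀ e ∈ σ.S, e ≠ r → l + 1 ≤ σ.lab e
        · by_cases hbig : ∃ e ∈ σ.S, e ≠ r ∧ j ≤ σ.lab e
          · exact H.hheavy σ h.c h.tc h.r h.three hbig
          · push Not at hbig
            apply hP σ h hall
            have h1 : ∑ e ∈ σ.S.erase r, σ.lab e ≤ ∑ e ∈ σ.S.erase r, j := by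
              apply sum_le_sum
              intro e he
              rw [mem_erase] at he
              exact (hbig e he.2 he.1).le
            rw [sum_const, smul_eq_mul, card_erase_of_mem h.r] at h1
            have hjpos : 0 < j := by
              obtain ⟨e, he⟩ : (σ.S.erase r).Nonempty := by
                apply card_pos.1
                rw [card_erase_of_mem h.r]
                omega
              rw [mem_erase] at he
              have := hbig e he.2 he.1
              omega
            have h2 : n' * j ≤ (σ.S.card - 1) * j := by omega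
            have := Nat.le_of_mul_le_mul_right h2 hjpos
            omega
        · push Not at hall
          obtain ⟨e, he, her, hel⟩ := hall
          have hcd : (σ.S.erase e).card + 1 = σ.S.card := card_erase_add_one he
          refine H.hmed σ e (σ.en e).1 (σ.en e).2 h.c h.tc hN h4 h.r he her (Or.inl rfl) ?_ ?_
          · refine ih _ ?_ (h.del H hN h4 he her) ?_ ?_
            · show (σ.S.erase e).card ≤ n
              omega
            · intro a ha har
              exact hlab a (mem_of_mem_erase ha) har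
            · rw [(C_mu_del he her (by omega)).1]
              exact hs
          · refine ih _ ?_ (h.con H hN h4 he her (Or.inl rfl)) ?_ ?_
            · show (σ.S.erase e).card ≤ n
              omega
            · intro a ha har
              exact hlab a (mem_of_mem_erase ha) har
            · rw [(C_mu_con he her (by omega)).1]
              exact hs
      · have h3 : σ.S.card = 3 := by
          have := h.three
          omega
        exact C_three H h h3 (by omega)
    · obtain ⟨A, g, x, y, w, hA, hrA, h2, hg, hbd, hG, hW, hcd⟩ := C_sep H h hN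
      obtain ⟨h5, h6, h7, h8⟩ := C_mu_comp (r := r) (x := x) (y := y) (w := w) hl hA hrA hg h2 hlab
      apply hW
      refine ih _ (by omega) hG h6 ?_
      have hle : ∑ e ∈ A, (if l + 1 ≤ σ.lab e then σ.lab e else 0) ≤ ∑ e ∈ A, σ.lab e := by
        apply sum_le_sum
        intro e _
        split_ifs <;> omega
      omega

/-- the measure -/
def CM (B l : ℕ) (r : E) (σ : St V E) : ℕ := 2 * (B - Cmu l r σ) + Cmi l r σ

theorem C_mi_le_mu : Cmi l r σ ≤ Cmu l r σ := by
  unfold Cmi Cmu
  apply sum_le_sum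
  intro e _
  split_ifs <;> omega

theorem C_reduce (H : CHyp j r C W) (h : CGood r C σ) (hl : 1 ≤ l)
    (hlab : ∀ e ∈ σ.S, e ≠ r → l ≤ σ.lab e) (hN : ¬ N2 σ.en σ.S) {B : ℕ}
    (hmu : Cmu l r σ < B)
    (hQ : ∀ σ', CGood r C σ' → (∀ e ∈ σ'.S, e ≠ r → l ≤ σ'.lab e) →
      CM B l r σ' < CM B l r σ → σ.S.card ≤ σ'.S.card + j → W σ') : W σ := by
  obtain ⟨A, g, x, y, w, hA, hrA, h2, hg, hbd, hG, hW, hcd⟩ := C_sep H h hN
  obtain ⟨h5, h6, h7, h8⟩ := C_mu_comp (r := r) (x := x) (y := y) (w := w) hl hA hrA hg h2 hlab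
  apply hW
  have hgr : g ≠ r := fun h => hrA (h ▸ hg)
  have hgS : g ∈ (σ.comp A g x y w).S := mem_insert_self _ _
  by_cases hj : j ≤ ∑ e ∈ A, σ.lab e
  · refine hG.heavy H hgS hgr ?_
    rw [C_comp_lab_g]
    exact hj
  · have hAc : A.card ≤ ∑ e ∈ A, σ.lab e := by
      calc A.card = ∑ e ∈ A, 1 := by simp
        _ ≤ _ := sum_le_sum (fun e he => by
          have := hlab e (hA he) (fun h => hrA (h ▸ he))
          omega)
    refine hQ _ hG h6 ?_ (by omega)
    by_cases hall : ∀ e ∈ A, l + 1 ≤ σ.lab e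
    · have e1 : ∑ e ∈ A, (if l + 1 ≤ σ.lab e then σ.lab e else 0) = ∑ e ∈ A, σ.lab e :=
        sum_congr rfl (fun e he => if_pos (hall e he))
      have e2 : ∑ e ∈ A, (if l + 1 ≤ σ.lab e then 1 else 0) = A.card := by
        rw [sum_congr rfl (fun e he => if_pos (hall e he))]
        simp
      unfold CM
      omega
    · push Not at hall
      obtain ⟨e, he, hel⟩ := hall
      have e1 : ∑ e ∈ A, (if l + 1 ≤ σ.lab e then σ.lab e else 0) < ∑ e ∈ A, σ.lab e := by
        apply sum_lt_sum
        · intro a _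
          split_ifs <;> omega
        · refine ⟨e, he, ?_⟩
          have := hlab e (hA he) (fun h => hrA (h ▸ he))
          rw [if_neg (by omega)]
          omega
      unfold CM
      omega

/-! ### the simple graph of a position -/

/-- the underlying simple graph -/
def CG (σ : St V E) : SimpleGraph V where
  Adj a b := a ≠ b ∧ ∃ e ∈ σ.S, σ.en e = (a, b) ∨ σ.en e = (b, a)
  symm := ⟨by
    rintro a b ⟨h, e, he, h' | h'⟩
    · exact ⟨h.symm, e, he, Or.inr h'⟩
    · exact ⟨h.symm, e, he, Or.inl h'⟩⟩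
  loopless := ⟨fun a h => h.1 rfl⟩

theorem CG_adj {a b : V} :
    (CG σ).Adj a b ↔ a ≠ b ∧ ∃ e ∈ σ.S, σ.en e = (a, b) ∨ σ.en e = (b, a) := Iff.rfl

theorem CG_dg [Fintype V] (hT : TC σ.en σ.S) (hN : N2 σ.en σ.S) (h4 : 4 ≤ σ.S.card) (v : V) :
    dg (CG σ) v = (σ.S.filter (fun e => (σ.en e).1 = v ∨ (σ.en e).2 = v)).card := by
  have hloop : ∀ e ∈ σ.S, (σ.en e).1 ≠ (σ.en e).2 := fun e he =>
    (tc_con hT hN h4 he (x := (σ.en e).1) (y := (σ.en e).2) (Or.inl rfl)).1
  have himg : nb (CG σ) v = (σ.S.filter (fun e => (σ.en e).1 = v ∨ (σ.en e).2 = v)).image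
      (fun e => if (σ.en e).1 = v then (σ.en e).2 else (σ.en e).1) := by
    ext u
    rw [mem_nb, CG_adj, mem_image]
    constructor
    · rintro ⟨hvu, e, he, h | h⟩
      · exact ⟨e, mem_filter.2 ⟨he, Or.inl (by rw [h])⟩, by rw [h]; simp⟩
      · refine ⟨e, mem_filter.2 ⟨he, Or.inr (by rw [h])⟩, ?_⟩
        rw [h]
        simp only
        rw [if_neg (Ne.symm hvu)]
    · rintro ⟨e, he, rfl⟩
      rw [mem_filter] at he
      obtain ⟨he, h⟩ := he
      have hl := hloop e he
      split_ifs with h1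
      · refine ⟨by rw [← h1]; exact hl, e, he, Or.inl ?_⟩
        rw [← h1]
      · have h2 : (σ.en e).2 = v := h.resolve_left h1
        refine ⟨by rw [← h2]; exact hl.symm, e, he, Or.inr ?_⟩
        rw [← h2]
  unfold dg
  rw [himg, card_image_of_injOn]
  intro e he f hf hef
  have he' := mem_filter.1 (mem_coe.1 he)
  have hf' := mem_filter.1 (mem_coe.1 hf)
  by_contra hne
  have hends : ∀ a ∈ σ.S, ((σ.en a).1 = v ∨ (σ.en a).2 = v) →
      (σ.en a = (v, if (σ.en a).1 = v then (σ.en a).2 else (σ.en a).1) ∨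
       σ.en a = (if (σ.en a).1 = v then (σ.en a).2 else (σ.en a).1, v)) := by
    intro a _ h
    by_cases h1 : (σ.en a).1 = v
    · left
      rw [if_pos h1, ← h1]
    · right
      rw [if_neg h1, ← h.resolve_left h1]
  have h1 := hends e he'.1 he'.2
  have h2 := hends f hf'.1 hf'.2
  simp only at hef
  rw [hef] at h1
  exact simple_of_N2 hT hN h4 he'.1 hf'.1 hne _ _ h1 h2

theorem CG_del (hT : TC σ.en σ.S) (hN : N2 σ.en σ.S) (h4 : 4 ≤ σ.S.card) {e : E} (he : e ∈ σ.S)
    {x y : V} (hxy : σ.en e = (x, y) ∨ σ.en e = (y, x)) :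
    CG (σ.del e) = sdel (CG σ) x y := by
  ext a b
  show (a ≠ b ∧ ∃ f ∈ σ.S.erase e, σ.en f = (a, b) ∨ σ.en f = (b, a)) ↔
    ((a ≠ b ∧ ∃ f ∈ σ.S, σ.en f = (a, b) ∨ σ.en f = (b, a)) ∧
      ¬ ((a = x ∧ b = y) ∨ (a = y ∧ b = x)))
  constructor
  · rintro ⟨hab, f, hf, h⟩
    rw [mem_erase] at hf
    refine ⟨⟨hab, f, hf.2, h⟩, ?_⟩
    have hs := simple_of_N2 hT hN h4 he hf.2 hf.1.symm x y hxy
    rintro (⟨rfl, rfl⟩ | ⟨rfl, rfl⟩)
    · exact hs h
    · exact hs h.symm
  · rintro ⟨⟨hab, f, hf, h⟩, hn⟩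
    refine ⟨hab, f, mem_erase.2 ⟨?_, hf⟩, h⟩
    rintro rfl
    apply hn
    rcases hxy with h1 | h1 <;> rcases h with h2 | h2 <;> rw [h1] at h2 <;>
      simp only [Prod.mk.injEq] at h2
    · exact Or.inl ⟨h2.1.symm, h2.2.symm⟩
    · exact Or.inr ⟨h2.2.symm, h2.1.symm⟩
    · exact Or.inr ⟨h2.1.symm, h2.2.symm⟩
    · exact Or.inl ⟨h2.2.symm, h2.1.symm⟩

theorem CG_con (hT : TC σ.en σ.S) (hN : N2 σ.en σ.S) (h4 : 4 ≤ σ.S.card) {e : E} (he : e ∈ σ.S)
    {x y : V} (hxy : σ.en e = (x, y) ∨ σ.en e = (y, x)) :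
    CG (σ.con e x y) = scon (CG σ) x y := by
  have hloop : ∀ e ∈ σ.S, (σ.en e).1 ≠ (σ.en e).2 := fun e he =>
    (tc_con hT hN h4 he (x := (σ.en e).1) (y := (σ.en e).2) (Or.inl rfl)).1
  have hne : x ≠ y := (tc_con hT hN h4 he hxy).1
  ext a b
  show (a ≠ b ∧ ∃ f ∈ σ.S.erase e, red x y σ.en f = (a, b) ∨ red x y σ.en f = (b, a)) ↔
    (a ≠ b ∧ a ≠ y ∧ b ≠ y ∧ ((CG σ).Adj a b ∨ (a = x ∧ (CG σ).Adj y b) ∨
      (b = x ∧ (CG σ).Adj y a)))
  have key : ∀ a b, a ≠ b → ∀ f ∈ σ.S.erase e, red x y σ.en f = (a, b) →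
      a ≠ y ∧ b ≠ y ∧ ((CG σ).Adj a b ∨ (a = x ∧ (CG σ).Adj y b) ∨
      (b = x ∧ (CG σ).Adj y a)) := by
    intro a b hab f hf h
    rw [mem_erase] at hf
    have hl := hloop f hf.2
    unfold red at h
    simp only [Prod.mk.injEq] at h
    obtain ⟨ha, hb⟩ := h
    have hfs : σ.en f = ((σ.en f).1, (σ.en f).2) := rfl
    by_cases h1 : (σ.en f).1 = y
    · rw [if_pos h1] at ha
      have h2 : (σ.en f).2 ≠ y := fun h => hl (h1.trans h.symm)
      rw [if_neg h2] at hb
      subst ha
      subst hb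
      refine ⟨hne, h2, Or.inr (Or.inl ⟨rfl, ?_⟩)⟩
      exact ⟨h2.symm, f, hf.2, Or.inl (by rw [hfs, h1])⟩
    · rw [if_neg h1] at ha
      by_cases h2 : (σ.en f).2 = y
      · rw [if_pos h2] at hb
        subst ha
        subst hb
        refine ⟨h1, hne, Or.inr (Or.inr ⟨rfl, ?_⟩)⟩
        exact ⟨Ne.symm h1, f, hf.2, Or.inr (by rw [hfs, h2])⟩
      · rw [if_neg h2] at hb
        subst ha
        subst hb
        exact ⟨h1, h2, Or.inl ⟨hl, f, hf.2, Or.inl rfl⟩⟩
  constructor
  · rintro ⟨hab, f, hf, h | h⟩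
    · exact ⟨hab, key a b hab f hf h⟩
    · obtain ⟨h1, h2, h3⟩ := key b a hab.symm f hf h
      refine ⟨hab, h2, h1, ?_⟩
      rcases h3 with h3 | h3 | h3
      · exact Or.inl h3.symm
      · exact Or.inr (Or.inr h3)
      · exact Or.inr (Or.inl h3)
  · have key2 : ∀ a b, a ≠ b → a ≠ y → b ≠ y → (CG σ).Adj a b →
        ∃ f ∈ σ.S.erase e, red x y σ.en f = (a, b) ∨ red x y σ.en f = (b, a) := by
      rintro a b hab ha hb ⟨_, f, hf, h⟩
      refine ⟨f, mem_erase.2 ⟨?_, hf⟩, ?_⟩
      · rintro rfl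
        rcases hxy with h1 | h1 <;> rcases h with h2 | h2 <;> rw [h1] at h2 <;>
          simp only [Prod.mk.injEq] at h2
        · exact hb h2.2.symm
        · exact ha h2.2.symm
        · exact ha h2.1.symm
        · exact hb h2.1.symm
      · unfold red
        rcases h with h | h
        · left
          rw [h]
          simp [ha, hb]
        · right
          rw [h]
          simp [ha, hb]
    have key3 : ∀ b, b ≠ x → b ≠ y → (CG σ).Adj y b →
        ∃ f ∈ σ.S.erase e, red x y σ.en f = (x, b) ∨ red x y σ.en f = (b, x) := by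
      rintro b hb hb' ⟨_, f, hf, h⟩
      refine ⟨f, mem_erase.2 ⟨?_, hf⟩, ?_⟩
      · rintro rfl
        rcases hxy with h1 | h1 <;> rcases h with h2 | h2 <;> rw [h1] at h2 <;>
          simp only [Prod.mk.injEq] at h2
        · exact hne h2.1
        · exact hb h2.1.symm
        · exact hb h2.2.symm
        · exact hne h2.2
      · unfold red
        rcases h with h | h
        · left
          rw [h]
          simp [hb']
        · right
          rw [h]
          simp [hb']
    rintro ⟨hab, ha, hb, h | ⟨rfl, h⟩ | ⟨rfl, h⟩⟩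
    · exact ⟨hab, key2 a b hab ha hb h⟩
    · exact ⟨hab, key3 b hab.symm hb h⟩
    · obtain ⟨f, hf, h'⟩ := key3 a hab ha h
      exact ⟨hab, f, hf, h'.symm⟩

/-- a vertex of large degree -/
theorem C_bigdeg [Fintype V] (H : CHyp j r C W) (h : CGood r C σ)
    (hlab : ∀ e ∈ σ.S, e ≠ r → 1 ≤ σ.lab e)
    (hN : N2 σ.en σ.S) (h4 : 4 ≤ σ.S.card) {v : V} (hv : 2 * j < dg (CG σ) v) : W σ := by
  apply C_SR H v σ.S.card σ le_rfl h
  rw [CG_dg h.tc hN h4] at hv
  have h1 : ((σ.S.erase r).filter (fun e => (σ.en e).1 = v ∨ (σ.en e).2 = v)).card ≤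
      Cstar r σ v := by
    unfold Cstar
    rw [card_filter]
    apply sum_le_sum
    intro e he
    rw [mem_erase] at he
    have := hlab e he.2 he.1
    split_ifs <;> omega
  have h2 : (σ.S.filter (fun e => (σ.en e).1 = v ∨ (σ.en e).2 = v)).card ≤
      ((σ.S.erase r).filter (fun e => (σ.en e).1 = v ∨ (σ.en e).2 = v)).card + 1 := by
    rw [filter_erase]
    have := pred_card_le_card_erase
      (s := σ.S.filter (fun e => (σ.en e).1 = v ∨ (σ.en e).2 = v)) (a := r)
    omega
  omega

/-- many vertices of positive degree -/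
theorem C_count [Fintype V] (hT : TC σ.en σ.S) (hN : N2 σ.en σ.S) (h4 : 4 ≤ σ.S.card) {Δ N : ℕ}
    (hd : ∀ v, dg (CG σ) v ≤ Δ) (hS : Δ * N + 1 ≤ σ.S.card) :
    N ≤ (Finset.univ.filter (fun v => 1 ≤ dg (CG σ) v)).card := by
  have h1 : σ.S.card ≤ Δ * (σ.S.image (fun e => (σ.en e).1)).card := by
    apply card_le_mul_card_image
    intro v _
    refine le_trans ?_ (hd v)
    rw [CG_dg hT hN h4]
    apply card_le_card
    intro e he
    rw [mem_filter] at he ⊢
    exact ⟨he.1, Or.inl he.2⟩
  have h2 : (σ.S.image (fun e => (σ.en e).1)) ⊆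
      (Finset.univ.filter (fun v => 1 ≤ dg (CG σ) v)) := by
    intro v hv
    obtain ⟨e, he, rfl⟩ := mem_image.1 hv
    rw [mem_filter]
    refine ⟨mem_univ _, ?_⟩
    rw [CG_dg hT hN h4]
    exact card_pos.2 ⟨e, mem_filter.2 ⟨he, Or.inl rfl⟩⟩
  have h3 := card_le_card h2
  by_contra hcon
  push Not at hcon
  have h4 : (σ.S.image (fun e => (σ.en e).1)).card ≤ N := by omega
  have h5 := Nat.mul_le_mul_left Δ h4
  omega

/-- the frozen set -/
def CWs (l : ℕ) (r : E) (σ : St V E) : Finset V :=
  vs σ.en (insert r ((σ.S.erase r).filter (fun e => l + 1 ≤ σ.lab e)))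

theorem CWs_card : (CWs l r σ).card ≤ 2 * (Cmi l r σ + 1) := by
  have h1 : (insert r ((σ.S.erase r).filter (fun e => l + 1 ≤ σ.lab e))).card ≤
      Cmi l r σ + 1 := by
    refine le_trans (card_insert_le _ _) ?_
    rw [card_filter]
    rfl
  unfold CWs vs
  refine le_trans (card_union_le _ _) ?_
  have h2 := card_image_le (s := insert r ((σ.S.erase r).filter (fun e => l + 1 ≤ σ.lab e)))
    (f := fun e => (σ.en e).1)
  have h3 := card_image_le (s := insert r ((σ.S.erase r).filter (fun e => l + 1 ≤ σ.lab e)))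
    (f := fun e => (σ.en e).2)
  omega

/-- the game on the simple graph gives the game on the labelled graph -/
theorem C_link [Fintype V] (H : CHyp j r C W) (hl : 1 ≤ l) {B s Ns : ℕ}
    (hQ : ∀ σ, CGood r C σ → (∀ e ∈ σ.S, e ≠ r → l ≤ σ.lab e) → CM B l r σ < s →
      Ns ≤ σ.S.card → W σ) (W0 : Finset V) : ∀ k : ℕ, ∀ σ : St V E, CGood r C σ →
    (∀ e ∈ σ.S, e ≠ r → l ≤ σ.lab e) → N2 σ.en σ.S → Cmu l r σ < B → CM B l r σ < s + 1 →
    Ns + k + 2 * j + 4 ≤ σ.S.card →
    (∀ e ∈ σ.S, (e = r ∨ l + 1 ≤ σ.lab e) → (σ.en e).1 ∈ W0 ∧ (σ.en e).2 ∈ W0) →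
    Win (2 * j) W0 k (CG σ) → W σ := by
  have hfin : ∀ σ : St V E, CGood r C σ → (∀ e ∈ σ.S, e ≠ r → l ≤ σ.lab e) → N2 σ.en σ.S →
      4 ≤ σ.S.card → Fin0 (2 * j) (CG σ) → W σ := by
    intro σ h hlab hN h4 hF
    have hlab1 : ∀ e ∈ σ.S, e ≠ r → 1 ≤ σ.lab e := fun e he her => le_trans hl (hlab e he her)
    rcases hF with ⟨v, h1, h2⟩ | ⟨v, hv⟩
    · exfalso
      rw [CG_dg h.tc hN h4] at h1 h2
      obtain ⟨e, he⟩ := card_pos.1 h1
      rw [mem_filter] at he
      have := deg_of_N2 h.tc hN h4 (C_mem_vs.2 ⟨e, he.1, he.2⟩)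
      omega
    · exact C_bigdeg H h hlab1 hN h4 hv
  intro k
  induction k with
  | zero =>
    intro σ h hlab hN _ _ hcard _ hwin
    exact hfin σ h hlab hN (by omega) hwin
  | succ k ih =>
    intro σ h hlab hN hmu hM hcard hW0 hwin
    have h4 : 4 ≤ σ.S.card := by omega
    rcases hwin with hF | ⟨x, y, hadj, hx, hy, hdelw, hconw⟩
    · exact hfin σ h hlab hN h4 hF
    · obtain ⟨hne, e, he, hxy⟩ := hadj
      have hends : ∀ a ∈ σ.S, (a = r ∨ l + 1 ≤ σ.lab a) → (σ.en a).1 ≠ y ∧ (σ.en a).2 ≠ y := by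
        intro a ha har
        obtain ⟨h1, h2⟩ := hW0 a ha har
        exact ⟨fun h => hy (h ▸ h1), fun h => hy (h ▸ h2)⟩
      have hmark : ¬ (e = r ∨ l + 1 ≤ σ.lab e) := by
        intro hh
        obtain ⟨h1, h2⟩ := hends e he hh
        rcases hxy with h' | h'
        · rw [h'] at h2
          exact h2 rfl
        · rw [h'] at h1
          exact h1 rfl
      have her : e ≠ r := fun hh => hmark (Or.inl hh)
      have hel : ¬ l + 1 ≤ σ.lab e := fun hh => hmark (Or.inr hh)
      have hcd : (σ.S.erase e).card + 1 = σ.S.card := card_erase_add_one he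
      refine H.hmed σ e x y h.c h.tc hN h4 h.r he her hxy ?_ ?_
      · -- deletion
        obtain ⟨m1, m2⟩ := C_mu_del (r := r) he her hel
        have hG := h.del H hN h4 he her
        have hlab' : ∀ a ∈ (σ.del e).S, a ≠ r → l ≤ (σ.del e).lab a :=
          fun a ha har => hlab a (mem_of_mem_erase ha) har
        have hcd' : (σ.del e).S.card + 1 = σ.S.card := hcd
        have hM' : CM B l r (σ.del e) = CM B l r σ := by
          unfold CM
          rw [m1, m2]
        by_cases hN' : N2 (σ.del e).en (σ.del e).S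
        · refine ih _ hG hlab' hN' (by omega) (by omega) (by omega) ?_ ?_
          · intro a ha har
            exact hW0 a (mem_of_mem_erase ha) har
          · rw [CG_del h.tc hN h4 he hxy]
            exact hdelw
        · refine C_reduce H hG hl hlab' hN' (B := B) (by omega) ?_
          intro σ' hG' hlab'' hM'' hc''
          exact hQ σ' hG' hlab'' (by omega) (by omega)
      · -- contraction
        obtain ⟨m1, m2⟩ := C_mu_con (r := r) (x := x) (y := y) he her hel
        have hG := h.con H hN h4 he her hxy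
        have hlab' : ∀ a ∈ (σ.con e x y).S, a ≠ r → l ≤ (σ.con e x y).lab a :=
          fun a ha har => hlab a (mem_of_mem_erase ha) har
        have hcd' : (σ.con e x y).S.card + 1 = σ.S.card := hcd
        have hM' : CM B l r (σ.con e x y) = CM B l r σ := by
          unfold CM
          rw [m1, m2]
        by_cases hN' : N2 (σ.con e x y).en (σ.con e x y).S
        · rcases hconw with ⟨z, hxz, hyz⟩ | hconw
          · exfalso
            obtain ⟨hxz1, f, hf, hf'⟩ := hxz
            obtain ⟨hyz1, f', hf1, hf1'⟩ := hyz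
            have hfe : f ≠ e := by
              rintro rfl
              rcases hxy with h1 | h1 <;> rcases hf' with h2 | h2 <;> rw [h1] at h2 <;>
                simp only [Prod.mk.injEq] at h2
              · exact hyz1 h2.2
              · exact hxz1 h2.1
              · exact hne h2.1.symm
              · exact hyz1 h2.1
            have hfe' : f' ≠ e := by
              rintro rfl
              rcases hxy with h1 | h1 <;> rcases hf1' with h2 | h2 <;> rw [h1] at h2 <;>
                simp only [Prod.mk.injEq] at h2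
              · exact hne h2.1
              · exact hxz1 h2.1
              · exact hxz1 h2.2
              · exact hyz1 h2.1
            have hff : f ≠ f' := by
              rintro rfl
              rcases hf' with h1 | h1 <;> rcases hf1' with h2 | h2 <;> rw [h1] at h2 <;>
                simp only [Prod.mk.injEq] at h2
              · exact hne h2.1
              · exact hxz1 h2.1
              · exact hyz1 h2.1.symm
              · exact hne h2.2
            refine simple_of_N2 hG.tc hN' (by omega) (mem_erase.2 ⟨hfe, hf⟩)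
              (mem_erase.2 ⟨hfe', hf1⟩) hff x z ?_ ?_
            · show red x y σ.en f = (x, z) ∨ red x y σ.en f = (z, x)
              unfold red
              rcases hf' with h1 | h1
              · left
                rw [h1]
                simp [hne, hyz1.symm]
              · right
                rw [h1]
                simp [hne, hyz1.symm]
            · show red x y σ.en f' = (x, z) ∨ red x y σ.en f' = (z, x)
              unfold red
              rcases hf1' with h1 | h1
              · left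
                rw [h1]
                simp [hyz1.symm]
              · right
                rw [h1]
                simp [hyz1.symm]
          · refine ih _ hG hlab' hN' (by omega) (by omega) (by omega) ?_ ?_
            · intro a ha har
              have ha' := mem_of_mem_erase ha
              obtain ⟨h1, h2⟩ := hends a ha' har
              show (red x y σ.en a).1 ∈ W0 ∧ (red x y σ.en a).2 ∈ W0
              unfold red
              simp only [if_neg h1, if_neg h2]
              exact hW0 a ha' har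
            · rw [CG_con h.tc hN h4 he hxy]
              exact hconw
        · refine C_reduce H hG hl hlab' hN' (B := B) (by omega) ?_
          intro σ' hG' hlab'' hM'' hc''
          exact hQ σ' hG' hlab'' (by omega) (by omega)

end C

/-- positions all of whose labels are at least `l` are won if they have many edges -/
def CP (j l : ℕ) : Prop := ∃ n : ℕ, ∀ (V E : Type) [Fintype V] [DecidableEq V] [Fintype E]
    [DecidableEq E] (r : E) (C W : St V E → Prop), CHyp j r C W → ∀ σ, CGood r C σ →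
    (∀ e ∈ σ.S, e ≠ r → l ≤ σ.lab e) → n ≤ σ.S.card → W σ

theorem CP_top (j : ℕ) : CP j j := by
  refine ⟨3, ?_⟩
  intro V E _ _ _ _ r C W H σ h hlab _
  obtain ⟨e, he⟩ : (σ.S.erase r).Nonempty := by
    apply card_pos.1
    rw [card_erase_of_mem h.r]
    have := h.three
    omega
  rw [mem_erase] at he
  exact h.heavy H he.2 he.1 (hlab e he.2 he.1)

/-- the statement of `game_simple` -/
def GameSimple : Prop := ∀ Δ t : ℕ, ∃ N T : ℕ, ∀ (V : Type) [Fintype V] [DecidableEq V]
    (G : SimpleGraph V) (W : Finset V), W.card ≤ t →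
    N ≤ (Finset.univ.filter (fun v => 1 ≤ dg G v)).card → Win Δ W T G

theorem CP_step (hgs : GameSimple) {j l : ℕ} (hl : 1 ≤ l) (hP : CP j (l + 1)) : CP j l := by
  obtain ⟨n', hP⟩ := hP
  set B := n' * j + 2 * j with hB
  have hQ : ∀ s : ℕ, ∃ N : ℕ, ∀ (V E : Type) [Fintype V] [DecidableEq V] [Fintype E]
      [DecidableEq E] (r : E) (C W : St V E → Prop), CHyp j r C W → ∀ σ, CGood r C σ →
      (∀ e ∈ σ.S, e ≠ r → l ≤ σ.lab e) → CM B l r σ < s → N ≤ σ.S.card → W σ := by
    intro s
    induction s with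
    | zero =>
      refine ⟨0, ?_⟩
      intro V E _ _ _ _ r C W H σ h hlab hM _
      omega
    | succ s ih =>
      obtain ⟨Ns, hNs⟩ := ih
      obtain ⟨N, T, hgame⟩ := hgs (2 * j) (2 * (B + 1))
      refine ⟨Ns + T + 2 * j + 4 + 2 * j * N + 1, ?_⟩
      intro V E _ _ _ _ r C W H σ h hlab hM hcard
      by_cases hmu : B ≤ Cmu l r σ
      · exact C_MR H hl (fun σ h hlab hn => hP V E r C W H σ h hlab hn) σ.S.card σ le_rfl h hlab
          (by omega)
      · push Not at hmu
        by_cases hN : N2 σ.en σ.S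
        · have h4 : 4 ≤ σ.S.card := by omega
          by_cases hdeg : ∃ v, 2 * j < dg (CG σ) v
          · obtain ⟨v, hv⟩ := hdeg
            exact C_bigdeg H h (fun e he her => le_trans hl (hlab e he her)) hN h4 hv
          · push Not at hdeg
            have hcnt := C_count h.tc hN h4 (N := N) hdeg (by omega)
            have hmi : Cmi l r σ ≤ Cmu l r σ := C_mi_le_mu
            have hw := hgame V (CG σ) (CWs l r σ)
              (le_trans CWs_card (by omega)) hcnt
            refine C_link H hl (B := B) (s := s) (Ns := Ns)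
              (fun σ h hlab hM hc => hNs V E r C W H σ h hlab hM hc) (CWs l r σ) T σ h hlab hN
              hmu hM (by omega) ?_ hw
            intro e he her
            have hmem : e ∈ insert r ((σ.S.erase r).filter (fun e => l + 1 ≤ σ.lab e)) := by
              by_cases her' : e = r
              · rw [her']
                exact mem_insert_self _ _
              · rcases her with h' | h'
                · exact absurd h' her'
                · exact mem_insert_of_mem (mem_filter.2 ⟨mem_erase.2 ⟨her', he⟩, h'⟩)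
            exact ⟨C_mem_vs.2 ⟨e, hmem, Or.inl rfl⟩, C_mem_vs.2 ⟨e, hmem, Or.inr rfl⟩⟩
        · refine C_reduce H h hl hlab hN (B := B) hmu ?_
          intro σ' hG' hlab'' hM'' hc''
          exact hNs V E r C W H σ' hG' hlab'' (by omega) (by omega)
  obtain ⟨N, hN⟩ := hQ (3 * B + 1)
  refine ⟨N, ?_⟩
  intro V E _ _ _ _ r C W H σ h hlab hcard
  by_cases hmu : B ≤ Cmu l r σ
  · exact C_MR H hl (fun σ h hlab hn => hP V E r C W H σ h hlab hn) σ.S.card σ le_rfl h hlab
      (by omega)
  · push Not at hmu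
    have hmi : Cmi l r σ ≤ Cmu l r σ := C_mi_le_mu
    refine hN V E r C W H σ h hlab ?_ hcard
    unfold CM
    omega

theorem CP_one (hgs : GameSimple) {j : ℕ} (hj : 1 ≤ j) : CP j 1 := by
  have h : ∀ d l : ℕ, 1 ≤ l → l + d = j → CP j l := by
    intro d
    induction d with
    | zero =>
      intro l _ hd
      have : l = j := by omega
      rw [this]
      exact CP_top j
    | succ d ih =>
      intro l hl hd
      exact CP_step hgs hl (ih (l + 1) (by omega) (by omega))
  exact h (j - 1) 1 le_rfl (by omega)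

theorem game_of (hgs : GameSimple) (j : ℕ) : ∃ m : ℕ, ∀ (V E : Type) [Fintype V] [DecidableEq V] [Fintype E]
    [DecidableEq E] (r : E) (C W : St V E → Prop),
    (∀ σ e, C σ → C (σ.del e)) →
    (∀ σ e x y, C σ → C (σ.con e x y)) →
    (∀ σ A g x y, C σ → TC σ.en σ.S → r ∈ σ.S → A ⊆ σ.S → r ∉ A → 2 ≤ A.card →
      2 ≤ (σ.S \ A).card → g ∈ A → x ≠ y → vs σ.en A ∩ vs σ.en (σ.S \ A) = {x, y} →
      ∃ w, C (σ.comp A g x y w) ∧ (W (σ.comp A g x y w) → W σ)) →
    (∀ σ e x y, C σ → TC σ.en σ.S → N2 σ.en σ.S → 4 ≤ σ.S.card → r ∈ σ.S → e ∈ σ.S → e ≠ r →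
      (σ.en e = (x, y) ∨ σ.en e = (y, x)) → W (σ.del e) → W (σ.con e x y) → W σ) →
    (∀ σ, C σ → TC σ.en σ.S → r ∈ σ.S → 3 ≤ σ.S.card → (∃ e ∈ σ.S, e ≠ r ∧ j ≤ σ.lab e) →
      W σ) →
    ∀ σ, C σ → TC σ.en σ.S → r ∈ σ.S → 3 ≤ σ.S.card → (∀ e ∈ σ.S, e ≠ r → 1 ≤ σ.lab e) →
      m ≤ ∑ e ∈ σ.S.erase r, σ.lab e → W σ := by
  rcases Nat.eq_zero_or_pos j with hj | hj
  · refine ⟨0, ?_⟩
    intro V E _ _ _ _ r C W h1 h2 h3 h4 h5 σ hC hT hr h3' hlab _
    apply h5 σ hC hT hr h3'
    obtain ⟨e, he⟩ : (σ.S.erase r).Nonempty := by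
      apply card_pos.1
      rw [card_erase_of_mem hr]
      omega
    rw [mem_erase] at he
    exact ⟨e, he.2, he.1, by omega⟩
  · obtain ⟨n, hn⟩ := CP_one hgs hj
    refine ⟨n * j, ?_⟩
    intro V E _ _ _ _ r C W h1 h2 h3 h4 h5 σ hC hT hr h3' hlab hm
    by_cases hbig : ∃ e ∈ σ.S, e ≠ r ∧ j ≤ σ.lab e
    · exact h5 σ hC hT hr h3' hbig
    · push Not at hbig
      apply hn V E r C W ⟨h1, h2, h3, h4, h5⟩ σ ⟨hC, hT, hr, h3'⟩ hlab
      have h6 : ∑ e ∈ σ.S.erase r, σ.lab e ≤ ∑ e ∈ σ.S.erase r, j := by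
        apply sum_le_sum
        intro e he
        rw [mem_erase] at he
        exact (hbig e he.2 he.1).le
      rw [sum_const, smul_eq_mul, card_erase_of_mem hr] at h6
      have h7 : n * j ≤ (σ.S.card - 1) * j := by omega
      have := Nat.le_of_mul_le_mul_right h7 hj
      omega

end Pool.Agent.H194R2.JS
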