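import Pool.Agent.H194R2.JS.Defs

/-! The partition function: components, deletion-contraction. -/

namespace Pool.Agent.H194R2.JS

open Finset

section Multi

variable {V E : Type} [DecidableEq V] [DecidableEq E]
variable {en : E → V × V} {S : Finset E}

variable [Fintype V]

omit [DecidableEq V] [DecidableEq E] [Fintype V] in
theorem kk_congr {en' : E → V × V} {A : Finset E} (h : ∀ e ∈ A, en e = en' e) :
    kk en A = kk en' A := by
  unfold kk
  have : (fun u v : V => ∃ e ∈ A, en e = (u, v)) = fun u v : V => ∃ e ∈ A, en' e = (u, v) := by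
    funext u v
    apply propext
    constructor
    · rintro ⟨e, he, h1⟩; exact ⟨e, he, by rw [← h e he, h1]⟩
    · rintro ⟨e, he, h1⟩; exact ⟨e, he, by rw [h e he, h1]⟩
  rw [this]

omit [DecidableEq V] [DecidableEq E] in
theorem kk_empty : kk en (∅ : Finset E) = Fintype.card V := by
  unfold kk
  rw [← Nat.card_eq_fintype_card]
  apply Nat.card_congr
  refine ⟨fun a => Quot.lift id ?_ a, fun v => Quot.mk _ v, ?_, ?_⟩
  · rintro a b ⟨e, he, -⟩
    simp at he
  · intro a
    induction a using Quot.ind
    rfl
  · intro v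
    rfl

theorem kk_red {x y : V} (hxy : x ≠ y) (A : Finset E) {e : E}
    (he : en e = (x, y) ∨ en e = (y, x)) :
    kk (red x y en) A = kk en (insert e A) + 1 := by
  classical
  set r1 : V → V → Prop := fun u v => ∃ f ∈ A, red x y en f = (u, v) with hr1
  set r2 : V → V → Prop := fun u v => ∃ f ∈ insert e A, en f = (u, v) with hr2
  have hxyq : Quot.mk r2 x = Quot.mk r2 y := by
    rcases he with h | h
    · exact Quot.sound ⟨e, mem_insert_self _ _, h⟩
    · exact (Quot.sound (⟨e, mem_insert_self _ _, h⟩ : r2 y x)).symm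
  have hphi : ∀ a, Quot.mk r2 (if a = y then x else a) = Quot.mk r2 a := by
    intro a
    by_cases h : a = y
    · rw [if_pos h, h, hxyq]
    · rw [if_neg h]
  have hne : ∀ a, (if a = y then x else a) ≠ y := by
    intro a
    by_cases h : a = y
    · rw [if_pos h]; exact hxy
    · rw [if_neg h]; exact h
  have E1 : Quot r1 ≃ Option (Quot r2) := by
    refine ⟨fun a => Quot.lift (fun v => if v = y then none else some (Quot.mk r2 v)) ?_ a,
      fun b => b.elim (Quot.mk r1 y)
        (fun c => Quot.lift (fun v => Quot.mk r1 (if v = y then x else v)) ?_ c), ?_, ?_⟩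
    · rintro u v ⟨f, hf, hfe⟩
      unfold red at hfe
      simp only [Prod.mk.injEq] at hfe
      obtain ⟨h1, h2⟩ := hfe
      have hu : u ≠ y := by rw [← h1]; exact hne _
      have hv : v ≠ y := by rw [← h2]; exact hne _
      simp only [if_neg hu, if_neg hv, Option.some.injEq]
      rw [← h1, ← h2, hphi, hphi]
      exact Quot.sound ⟨f, mem_insert_of_mem hf, rfl⟩
    · rintro u v ⟨f, hf, hfe⟩
      rcases mem_insert.1 hf with h | h
      · subst h
        rcases he with h | h <;> rw [h] at hfe <;> simp only [Prod.mk.injEq] at hfe <;>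
          obtain ⟨rfl, rfl⟩ := hfe <;> simp [hxy]
      · apply Quot.sound
        exact ⟨f, h, by unfold red; rw [hfe]⟩
    · intro a
      induction a using Quot.ind with
      | mk v =>
        by_cases h : v = y
        · simp [h]
        · simp [h]
    · intro b
      rcases b with _ | c
      · simp
      · induction c using Quot.ind with
        | mk v =>
          simp only [Option.elim_some]
          rw [if_neg (hne v), hphi]
  have hfin : Finite (Quot r2) := Quot.finite _
  have : Nat.card (Quot r1) = Nat.card (Quot r2) + 1 := by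
    rw [Nat.card_congr E1, Finite.card_option]
  exact this

omit [DecidableEq V] [Fintype V] in
theorem F_split {q : ℝ} {wt : E → ℝ} {T : Finset E} {e : E} (he : e ∈ S) :
    F q en wt T S = F q en wt T (S.erase e) + wt e * F q en wt (insert e T) (S.erase e) := by
  unfold F
  conv_lhs => rw [← insert_erase he]
  rw [sum_powerset_insert (notMem_erase e S), mul_sum]
  congr 1
  apply sum_congr rfl
  intro A hA
  have heA : e ∉ A := fun h => notMem_erase e S (mem_powerset.1 hA h)
  rw [prod_insert heA, insert_union, union_insert]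
  ring

theorem F_con {q : ℝ} {wt : E → ℝ} {T : Finset E} {e : E} {x y : V} (hxy : x ≠ y)
    (he : en e = (x, y) ∨ en e = (y, x)) :
    q * F q en wt (insert e T) S = F q (red x y en) wt T S := by
  unfold F
  rw [mul_sum]
  apply sum_congr rfl
  intro A hA
  rw [insert_union, kk_red hxy (T ∪ A) he, pow_succ]
  ring

theorem aa_dc {q : ℝ} (hq : q ≠ 0) {wt : E → ℝ} {e r : E} (he : e ∈ S) (her : e ≠ r) {x y : V}
    (hxy : x ≠ y) (hen : en e = (x, y) ∨ en e = (y, x)) :
    aa q en wt r S = aa q en wt r (S.erase e) + wt e / q * aa q (red x y en) wt r (S.erase e) := by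
  unfold aa
  have h1 : e ∈ S.erase r := mem_erase.2 ⟨her, he⟩
  rw [F_split (T := ∅) h1, F_split (T := {r}) h1, erase_right_comm,
    ← F_con (T := ∅) hxy hen, ← F_con (T := {r}) hxy hen]
  field_simp
  ring

theorem bb_dc {q : ℝ} (hq : q ≠ 0) {wt : E → ℝ} {e r : E} (he : e ∈ S) (her : e ≠ r) {x y : V}
    (hxy : x ≠ y) (hen : en e = (x, y) ∨ en e = (y, x)) :
    bb q en wt r S = bb q en wt r (S.erase e) + wt e / q * bb q (red x y en) wt r (S.erase e) := by
  unfold bb
  have h1 : e ∈ S.erase r := mem_erase.2 ⟨her, he⟩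
  rw [F_split (T := ∅) h1, F_split (T := {r}) h1, erase_right_comm,
    ← F_con (T := ∅) hxy hen, ← F_con (T := {r}) hxy hen]
  field_simp
  ring

omit [DecidableEq V] [Fintype V] in
theorem F_eq {q : ℝ} (hq1 : q ≠ 1) {wt : E → ℝ} {r : E} (hr : r ∈ S) :
    F q en wt ∅ S = q * aa q en wt r S + bb q en wt r S
      + wt r * (aa q en wt r S + bb q en wt r S) := by
  have h : q - 1 ≠ 0 := sub_ne_zero.2 hq1
  rw [F_split hr]
  unfold aa bb
  have : insert r (∅ : Finset E) = {r} := rfl
  rw [this]
  field_simp
  ring

end Multi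

end Pool.Agent.H194R2.JS
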