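import Pool.Agent.H194R2.JS.Final

/-!
# Self-dual intervals for the multivariate Tutte polynomial

A positive answer to Q2 of MP_58ca84_co: for every `q` in `(0,1) ∪ (1,32/27)` there are nested
self-dual intervals `I_2 ⊆ I_3 ⊆ ...` converging to the interval between the two smaller roots of
`v³ - 2 q v - q² = 0` in the sense of the question, such that the multivariate Tutte polynomial of
every 2-connected graph with at least `m` edges and all edge weights in `I_m` is nonzero with the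
expected sign.
-/

namespace Pool.Agent.H194R2.JS.Q2

open Finset Filter Topology

/-- A finite multigraph is given by a finite type `V` of vertices, a finite type `E` of edges and
the two ends `en e` of every edge `e`. `comps en A` is the number of connected components of the
spanning subgraph `(V, A)`: the number of classes of the equivalence relation on `V` generated by
`u ~ v` if some edge in `A` has the ends `u`, `v`. -/
noncomputable def comps {V E : Type} (en : E → V × V) (A : Finset E) : ℕ :=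
  Nat.card (Quot fun u v : V => ∃ e ∈ A, en e = (u, v))

/-- The multivariate Tutte polynomial `Z(G; q, wt) = ∑_{A ⊆ E} q ^ k(A) ∏_{e ∈ A} wt e`. -/
noncomputable def Z {V E : Type} [Fintype E] (en : E → V × V) (q : ℝ) (wt : E → ℝ) : ℝ :=
  ∑ A : Finset E, q ^ comps en A * ∏ e ∈ A, wt e

/-- The underlying simple graph: two different vertices are adjacent if they are the ends of an
edge. -/
def under {V E : Type} (en : E → V × V) : SimpleGraph V :=
  SimpleGraph.fromRel fun u v => ∃ e, en e = (u, v)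

/-- 2-connected: no loops, at least two vertices, connected, and still connected after the
deletion of any one vertex (parallel edges are allowed). -/
def TwoConnected {V E : Type} (en : E → V × V) : Prop :=
  (∀ e, (en e).1 ≠ (en e).2) ∧ 2 ≤ Nat.card V ∧ (under en).Connected ∧
    ∀ x : V, ((under en).induce {x}ᶜ).Connected

/-- `v` is the middle root of `v³ - 2 q v - q² = 0`: a root between two other real roots. -/
def IsMiddleRoot (q v : ℝ) : Prop :=
  v ^ 3 - 2 * q * v - q ^ 2 = 0 ∧ (∃ u < v, u ^ 3 - 2 * q * u - q ^ 2 = 0) ∧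
    ∃ u > v, u ^ 3 - 2 * q * u - q ^ 2 = 0

/-- `α = 1` if `q < 1` and `α = 0` otherwise -/
noncomputable def alpha (q : ℝ) : ℕ := if q < 1 then 1 else 0

section Bridge

open Pool.Agent.H194R2.JS

variable {V E : Type} [Fintype V] [DecidableEq V] [Fintype E] [DecidableEq E]

omit [Fintype V] [DecidableEq V] in
theorem Z_eq (en : E → V × V) (q : ℝ) (wt : E → ℝ) : Z en q wt = F q en wt ∅ univ := by
  unfold Z F
  rw [powerset_univ]
  refine sum_congr rfl ?_
  intro A _
  rw [empty_union]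
  rfl

omit [Fintype V] [Fintype E] in
theorem mem_vs {en : E → V × V} {A : Finset E} {x : V} :
    x ∈ vs en A ↔ ∃ e ∈ A, (en e).1 = x ∨ (en e).2 = x := by
  unfold vs
  simp only [mem_union, mem_image]
  constructor
  · rintro (⟨e, he, h⟩ | ⟨e, he, h⟩)
    · exact ⟨e, he, Or.inl h⟩
    · exact ⟨e, he, Or.inr h⟩
  · rintro ⟨e, he, h | h⟩
    · exact Or.inl ⟨e, he, h⟩
    · exact Or.inr ⟨e, he, h⟩

omit [Fintype E] in
theorem exists_adj_of_two {G : SimpleGraph V} (hG : G.Connected) (h2 : 2 ≤ Nat.card V) (x : V) :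
    ∃ y, G.Adj x y := by
  have : 1 < Fintype.card V := by rw [← Nat.card_eq_fintype_card]; omega
  obtain ⟨z, hz⟩ := Fintype.exists_ne_of_one_lt_card this x
  obtain ⟨p⟩ := hG.preconnected x z
  cases p with
  | nil => exact absurd rfl hz
  | cons h _ => exact ⟨_, h⟩

theorem vs_univ {en : E → V × V} (h : TwoConnected en) : vs en univ = univ := by
  ext x
  simp only [mem_univ, iff_true, mem_vs]
  obtain ⟨y, hy⟩ := exists_adj_of_two h.2.2.1 h.2.1 x
  unfold under at hy
  rw [SimpleGraph.fromRel_adj] at hy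
  rcases hy with ⟨_, ⟨e, he⟩ | ⟨e, he⟩⟩
  · exact ⟨e, trivial, Or.inl (by rw [he])⟩
  · exact ⟨e, trivial, Or.inr (by rw [he])⟩

theorem tc_univ {en : E → V × V} (h : TwoConnected en) (h2 : 2 ≤ Fintype.card E) :
    TC en univ := by
  refine ⟨by simpa using h2, ?_⟩
  intro A _ hA0 hA1
  by_contra hlt
  have hle : (vs en A ∩ vs en (univ \ A)).card ≤ 1 := by omega
  obtain ⟨e, he⟩ := hA0
  obtain ⟨f, hf⟩ : ∃ f, f ∉ A := by
    by_contra hc
    push Not at hc
    exact hA1 (eq_univ_iff_forall.2 hc)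
  -- the common vertex
  obtain ⟨v, hv⟩ : ∃ v : V, vs en A ∩ vs en (univ \ A) ⊆ {v} := by
    rcases Finset.eq_empty_or_nonempty (vs en A ∩ vs en (univ \ A)) with h0 | ⟨v, hv⟩
    · exact ⟨(en e).1, by rw [h0]; exact empty_subset _⟩
    · refine ⟨v, ?_⟩
      intro z hz
      rw [card_le_one] at hle
      exact mem_singleton.2 (hle z hz v hv)
  have hend : ∀ g : E, ∃ a, a ≠ v ∧ ((en g).1 = a ∨ (en g).2 = a) := by
    intro g
    by_cases h1 : (en g).1 = v
    · exact ⟨(en g).2, fun h2 => h.1 g (h1.trans h2.symm), Or.inr rfl⟩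
    · exact ⟨(en g).1, h1, Or.inl rfl⟩
  obtain ⟨a, hav, ha⟩ := hend e
  obtain ⟨b, hbv, hb⟩ := hend f
  have haA : a ∈ vs en A := mem_vs.2 ⟨e, he, ha⟩
  have hbA : b ∈ vs en (univ \ A) := mem_vs.2 ⟨f, by simp [hf], hb⟩
  have hpath := (h.2.2.2 v).preconnected ⟨a, by simpa using hav⟩ ⟨b, by simpa using hbv⟩
  obtain ⟨p⟩ := hpath
  have key : ∀ (s t : ({v}ᶜ : Set V)) (p : ((under en).induce {v}ᶜ).Walk s t),
      (s : V) ∈ vs en A → (t : V) ∈ vs en A := by
    intro s t p
    induction p with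
    | nil => exact id
    | @cons s u t hadj _ ih =>
      intro hs
      apply ih
      have hsu : (under en).Adj (s : V) (u : V) := hadj
      unfold under at hsu
      rw [SimpleGraph.fromRel_adj] at hsu
      obtain ⟨g, hg1, hg2⟩ : ∃ g : E, ((en g).1 = (s : V) ∨ (en g).2 = (s : V)) ∧
          ((en g).1 = (u : V) ∨ (en g).2 = (u : V)) := by
        rcases hsu with ⟨_, ⟨g, hg⟩ | ⟨g, hg⟩⟩
        · exact ⟨g, Or.inl (by rw [hg]), Or.inr (by rw [hg])⟩
        · exact ⟨g, Or.inr (by rw [hg]), Or.inl (by rw [hg])⟩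
      by_cases hgA : g ∈ A
      · exact mem_vs.2 ⟨g, hgA, hg2⟩
      · have hs2 : (s : V) ∈ vs en (univ \ A) := mem_vs.2 ⟨g, by simp [hgA], hg1⟩
        have := hv (mem_inter.2 ⟨hs, hs2⟩)
        rw [mem_singleton] at this
        exact absurd this s.2
  have hbA' : b ∈ vs en A := key _ _ p haA
  exact hbv (mem_singleton.1 (hv (mem_inter.2 ⟨hbA', hbA⟩)))

end Bridge

/-- **Positive answer to Q2.** -/
theorem result : ∀ q : ℝ, (0 < q ∧ q < 1) ∨ (1 < q ∧ q < 32 / 27) →
    ∃ vp : ℝ, IsMiddleRoot q vp ∧ ∃ lo hi : ℕ → ℝ,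
      (∀ m, lo m < hi m ∧ ∀ v ∈ Set.Icc (lo m) (hi m), q / v ∈ Set.Icc (lo m) (hi m)) ∧
      (∀ m, Set.Icc (lo m) (hi m) ⊆ Set.Icc (lo (m + 1)) (hi (m + 1))) ∧
      Tendsto lo atTop (𝓝 (q / vp)) ∧ Tendsto hi atTop (𝓝 vp) ∧
      ∀ m, 2 ≤ m → ∀ (V E : Type) [Fintype V] [Fintype E] (en : E → V × V) (wt : E → ℝ),
        TwoConnected en → m ≤ Fintype.card E → (∀ e, wt e ∈ Set.Icc (lo m) (hi m)) →
        0 < (-1 : ℝ) ^ (Fintype.card V + alpha q) * Z en q wt := by
  intro q hq
  obtain ⟨vp, hmid, hneg, lo, hi, h1, h2, h3, h4⟩ := Pool.Agent.H194R2.JS.intervals hq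
  refine ⟨vp, hmid, lo, hi, fun m => ⟨(h1 m).1, (h1 m).2.2.2⟩, fun m =>
    Set.Icc_subset_Icc (h1 m).2.1 (h1 m).2.2.1, h2, h3, ?_⟩
  intro m hm V E _ _ en wt hT hmE hw
  classical
  have h5 := h4 m V E en univ wt (tc_univ hT (hm.trans hmE)) (by simpa using hmE)
    (fun e _ => hw e)
  rw [vs_univ hT, card_univ] at h5
  rw [Z_eq]
  exact h5

end Pool.Agent.H194R2.JS.Q2
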