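import Pool.Agent.H194R2.JS.PF

/-! Graphs with two or three edges. -/

namespace Pool.Agent.H194R2.JS

open Finset

section Multi

variable {V E : Type} [DecidableEq V] [DecidableEq E]
variable {en : E → V × V} {S : Finset E}

/-- the edge `e` joins `x` and `y` -/
def sm_J (en : E → V × V) (e : E) (x y : V) : Prop := en e = (x, y) ∨ en e = (y, x)

omit [DecidableEq V] [DecidableEq E] in
theorem sm_J_symm {e : E} {x y : V} (h : sm_J en e x y) : sm_J en e y x := Or.symm h

omit [DecidableEq E] in
theorem sm_red_loop {e : E} {x y : V} (h : sm_J en e x y) : red x y en e = (x, x) := by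
  unfold red
  rcases h with h | h <;> rw [h] <;> simp

omit [DecidableEq E] in
theorem sm_red_keep {e : E} {x y a z : V} (h : sm_J en e a z) (ha : a ≠ y) (hz : z ≠ y) :
    sm_J (red x y en) e a z := by
  unfold sm_J red
  rcases h with h | h <;> rw [h]
  · left; simp [ha, hz]
  · right; simp [ha, hz]

omit [DecidableEq E] in
theorem sm_red_move {e : E} {x y z : V} (h : sm_J en e y z) (hz : z ≠ y) :
    sm_J (red x y en) e x z := by
  unfold sm_J red
  rcases h with h | h <;> rw [h]
  · left; simp [hz]
  · right; simp [hz]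

variable [Fintype V]

omit [DecidableEq V] [Fintype V] in
theorem sm_kk_loop {T : Finset E} {e : E} {u : V} (h : en e = (u, u)) :
    kk en (insert e T) = kk en T := by
  unfold kk
  apply Nat.card_congr
  refine ⟨fun a => Quot.lift (fun v => Quot.mk _ v) ?_ a,
    fun a => Quot.lift (fun v => Quot.mk _ v) ?_ a, ?_, ?_⟩
  · rintro a b ⟨f, hf, hfe⟩
    rcases mem_insert.1 hf with h1 | h1
    · subst h1
      rw [h] at hfe
      simp only [Prod.mk.injEq] at hfe
      rw [← hfe.1, ← hfe.2]
    · exact Quot.sound ⟨f, h1, hfe⟩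
  · rintro a b ⟨f, hf, hfe⟩
    exact Quot.sound ⟨f, mem_insert_of_mem hf, hfe⟩
  · intro a
    induction a using Quot.ind
    rfl
  · intro a
    induction a using Quot.ind
    rfl

theorem sm_kk_insert {T : Finset E} {e : E} {x y : V} (hxy : x ≠ y) (h : sm_J en e x y) :
    kk en (insert e T) + 1 = kk (red x y en) T := (kk_red hxy T h).symm

theorem sm_single {e : E} {x y : V} (hxy : x ≠ y) (h : sm_J en e x y) :
    kk en {e} + 1 = Fintype.card V := by
  have := sm_kk_insert (T := ∅) hxy h
  rw [kk_empty] at this
  exact this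

theorem sm_par {e f : E} {x y : V} (hxy : x ≠ y) (h : sm_J en e x y) (h' : sm_J en f x y) :
    kk en {e, f} + 1 = Fintype.card V := by
  have h1 := sm_kk_insert (T := {f}) hxy h
  rw [h1]
  have h2 := sm_kk_loop (T := ∅) (sm_red_loop h')
  have h3 : insert f (∅ : Finset E) = {f} := rfl
  rw [h3, kk_empty] at h2
  exact h2

theorem sm_par3 {e f g : E} {x y : V} (hxy : x ≠ y) (h : sm_J en e x y) (h' : sm_J en f x y)
    (h'' : sm_J en g x y) : kk en {e, f, g} + 1 = Fintype.card V := by
  have h1 := sm_kk_insert (T := {f, g}) hxy h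
  rw [h1]
  have h2 := sm_kk_loop (T := {g}) (sm_red_loop h')
  rw [h2]
  have h4 := sm_kk_loop (T := ∅) (sm_red_loop h'')
  have h3 : insert g (∅ : Finset E) = {g} := rfl
  rw [h3, kk_empty] at h4
  exact h4

/-- two edges `xz`, `yz` -/
theorem sm_path {e f : E} {x y z : V} (hxz : x ≠ z) (hyz : y ≠ z) (hxy : x ≠ y)
    (h : sm_J en e x z) (h' : sm_J en f y z) :
    kk en {e, f} + 2 = Fintype.card V := by
  have h1 := sm_kk_insert (T := {f}) hxz h
  have h2 : sm_J (red x z en) f x y := sm_red_move (sm_J_symm h') hyz
  have h3 := sm_single hxy h2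
  omega

theorem sm_tri {r f g : E} {x y z : V} (hxz : x ≠ z) (hyz : y ≠ z) (hxy : x ≠ y)
    (hr : sm_J en r x y) (hf : sm_J en f x z) (hg : sm_J en g y z) :
    kk en {r, f, g} + 2 = Fintype.card V := by
  have h1 := sm_kk_insert (T := {f, g}) hxy hr
  have h2 : sm_J (red x y en) f x z := sm_red_keep hf hxy hyz.symm
  have h3 : sm_J (red x y en) g x z := sm_red_move hg hyz.symm
  have h4 := sm_par hxz h2 h3
  omega

omit [Fintype V] in
theorem sm_vs_single (e : E) : vs en {e} = {(en e).1, (en e).2} := by
  unfold vs
  ext v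
  simp

omit [Fintype V] in
theorem sm_vs_J {e : E} {x y : V} (h : sm_J en e x y) : vs en {e} = {x, y} := by
  rw [sm_vs_single]
  rcases h with h | h <;> rw [h]
  rw [pair_comm]

omit [Fintype V] in
/-- both ends of an edge are ends of other edges -/
theorem sm_ends (hT : TC en S) {e : E} (he : e ∈ S) :
    (en e).1 ≠ (en e).2 ∧ (en e).1 ∈ vs en (S.erase e) ∧ (en e).2 ∈ vs en (S.erase e) := by
  have h1 : ({e} : Finset E) ≠ S := by
    intro h
    have := hT.1
    rw [← h] at this
    simp at this
  have h2 := hT.2 {e} (by simpa using he) (singleton_nonempty e) h1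
  rw [sdiff_singleton_eq_erase, sm_vs_single] at h2
  have hle : ({(en e).1, (en e).2} ∩ vs en (S.erase e)).card
      ≤ ({(en e).1, (en e).2} : Finset V).card := card_le_card inter_subset_left
  have hne : (en e).1 ≠ (en e).2 := by
    intro h
    rw [← h] at hle
    simp at hle
    rw [← h] at h2
    have : ({(en e).1, (en e).1} : Finset V) = {(en e).1} := by simp
    rw [this] at h2
    omega
  have hc : ({(en e).1, (en e).2} : Finset V).card = 2 := card_pair hne
  have heq : {(en e).1, (en e).2} ∩ vs en (S.erase e) = {(en e).1, (en e).2} :=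
    eq_of_subset_of_card_le inter_subset_left (by omega)
  refine ⟨hne, ?_, ?_⟩
  · have : (en e).1 ∈ ({(en e).1, (en e).2} : Finset V) := by simp
    rw [← heq] at this
    exact (mem_inter.1 this).2
  · have : (en e).2 ∈ ({(en e).1, (en e).2} : Finset V) := by simp
    rw [← heq] at this
    exact (mem_inter.1 this).2

omit [Fintype V] in
theorem sm_mem_vs {A : Finset E} {v : V} :
    v ∈ vs en A ↔ ∃ e ∈ A, (en e).1 = v ∨ (en e).2 = v := by
  unfold vs
  simp only [mem_union, mem_image]
  constructor
  · rintro (⟨e, he, h⟩ | ⟨e, he, h⟩)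
    · exact ⟨e, he, Or.inl h⟩
    · exact ⟨e, he, Or.inr h⟩
  · rintro ⟨e, he, h | h⟩
    · exact Or.inl ⟨e, he, h⟩
    · exact Or.inr ⟨e, he, h⟩

omit [DecidableEq V] [DecidableEq E] [Fintype V] in
theorem sm_J_of_ends {e : E} {x y : V} (hxy : x ≠ y) (hx : (en e).1 = x ∨ (en e).2 = x)
    (hy : (en e).1 = y ∨ (en e).2 = y) : sm_J en e x y := by
  unfold sm_J
  rcases hx with h | h <;> rcases hy with h' | h'
  · exact absurd (h.symm.trans h') hxy
  · left; rw [← h, ← h']
  · right; rw [← h, ← h']
  · exact absurd (h.symm.trans h') hxy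

omit [DecidableEq V] [DecidableEq E] [Fintype V] in
theorem sm_F_empty {q : ℝ} {wt : E → ℝ} [DecidableEq E] {T : Finset E} :
    F q en wt T ∅ = q ^ kk en T := by
  unfold F
  simp

omit [DecidableEq V] [Fintype V] in
theorem sm_F1 {q : ℝ} {wt : E → ℝ} {T : Finset E} {f : E} :
    F q en wt T {f} = q ^ kk en T + wt f * q ^ kk en (insert f T) := by
  rw [F_split (mem_singleton_self f), erase_singleton, sm_F_empty, sm_F_empty]

omit [DecidableEq V] [Fintype V] in
theorem sm_F2 {q : ℝ} {wt : E → ℝ} {T : Finset E} {f g : E} (hfg : f ≠ g) :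
    F q en wt T {f, g} = q ^ kk en T + wt g * q ^ kk en (insert g T)
      + wt f * (q ^ kk en (insert f T) + wt g * q ^ kk en (insert g (insert f T))) := by
  rw [F_split (mem_insert_self f {g}), erase_insert (by simpa using hfg), sm_F1, sm_F1]

theorem small2 {q : ℝ} (hq : q ≠ 0) (hq1 : q ≠ 1) {wt : E → ℝ} (hT : TC en S)
    {r f : E} (hfr : f ≠ r) (hS : S = {r, f}) :
    aa q en wt r S = q ^ (Fintype.card V - 1) ∧
    bb q en wt r S = q ^ (Fintype.card V - 1) * wt f ∧ (vs en S).card = 2 := by
  have hrS : r ∈ S := by rw [hS]; simp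
  have hfS : f ∈ S := by rw [hS]; simp
  obtain ⟨hne, h1, h2⟩ := sm_ends hT hrS
  have he : S.erase r = {f} := by
    rw [hS, erase_insert (by simpa using hfr.symm)]
  rw [he, sm_mem_vs] at h1 h2
  simp only [mem_singleton, exists_eq_left] at h1 h2
  have hJf : sm_J en f (en r).1 (en r).2 := sm_J_of_ends hne h1 h2
  have hJr : sm_J en r (en r).1 (en r).2 := Or.inl rfl
  have k1 := sm_single hne hJf
  have k2 := sm_single hne hJr
  have k3 := sm_par hne hJf hJr
  have h10 : q - 1 ≠ 0 := sub_ne_zero.2 hq1
  have hn : q ^ Fintype.card V = q * q ^ (Fintype.card V - 1) := by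
    rw [← pow_succ']; congr 1; omega
  have c1 : kk en {f} = Fintype.card V - 1 := by omega
  have c2 : kk en {r} = Fintype.card V - 1 := by omega
  have c3 : kk en {f, r} = Fintype.card V - 1 := by omega
  have hi : insert f (∅ : Finset E) = {f} := rfl
  refine ⟨?_, ?_, ?_⟩
  · unfold aa
    rw [he, sm_F1, sm_F1, kk_empty, hi, c1, c2, c3, hn]
    field_simp
    ring
  · unfold bb
    rw [he, sm_F1, sm_F1, kk_empty, hi, c1, c2, c3, hn]
    field_simp
    ring
  · have : vs en S = {(en r).1, (en r).2} := by
      ext v
      rw [sm_mem_vs, hS]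
      simp only [mem_insert, mem_singleton, exists_eq_or_imp, exists_eq_left]
      constructor
      · rintro ((h | h) | h)
        · left; exact h.symm
        · right; exact h.symm
        · have := sm_vs_J hJf
          have h3 : v ∈ vs en {f} := sm_mem_vs.2 ⟨f, mem_singleton_self _, h⟩
          rw [this] at h3
          simpa using h3
      · rintro (h | h)
        · left; left; exact h.symm
        · left; right; exact h.symm
    rw [this, card_pair hne]

theorem sm_small3_par {q : ℝ} (hq : q ≠ 0) (hq1 : q ≠ 1) {wt : E → ℝ}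
    {r f g : E} (hfr : f ≠ r) (hgr : g ≠ r) (hfg : f ≠ g) (hS : S = {r, f, g}) {x y : V}
    (hxy : x ≠ y) (hr : sm_J en r x y) (hf : sm_J en f x y) (hg : sm_J en g x y) :
    aa q en wt r S = q ^ (Fintype.card V - 1) ∧
      bb q en wt r S = q ^ (Fintype.card V - 1) * ((1 + wt f) * (1 + wt g) - 1) ∧
      (vs en S).card = 2 := by
  have he : S.erase r = {f, g} := by
    rw [hS, erase_insert (by simp [hfr.symm, hgr.symm])]
  have k1 := sm_single hxy hf
  have k2 := sm_single hxy hg
  have k3 := sm_single hxy hr
  have k4 := sm_par hxy hg hf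
  have k5 := sm_par hxy hf hr
  have k6 := sm_par hxy hg hr
  have k7 := sm_par3 hxy hg hf hr
  have h10 : q - 1 ≠ 0 := sub_ne_zero.2 hq1
  have hn : q ^ Fintype.card V = q * q ^ (Fintype.card V - 1) := by
    rw [← pow_succ']; congr 1; omega
  have c1 : kk en {f} = Fintype.card V - 1 := by omega
  have c2 : kk en {g} = Fintype.card V - 1 := by omega
  have c3 : kk en {r} = Fintype.card V - 1 := by omega
  have c4 : kk en {g, f} = Fintype.card V - 1 := by omega
  have c5 : kk en {f, r} = Fintype.card V - 1 := by omega
  have c6 : kk en {g, r} = Fintype.card V - 1 := by omega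
  have c7 : kk en {g, f, r} = Fintype.card V - 1 := by omega
  have hi : insert f (∅ : Finset E) = {f} := rfl
  have hi' : insert g (∅ : Finset E) = {g} := rfl
  refine ⟨?_, ?_, ?_⟩
  · unfold aa
    rw [he, sm_F2 hfg, sm_F2 hfg, kk_empty, hi, hi', c1, c2, c3, c4, c5, c6, c7, hn]
    field_simp
    ring
  · unfold bb
    rw [he, sm_F2 hfg, sm_F2 hfg, kk_empty, hi, hi', c1, c2, c3, c4, c5, c6, c7, hn]
    field_simp
    ring
  · have : vs en S = {x, y} := by
      ext v
      rw [sm_mem_vs, hS]
      have e1 : ((en r).1 = v ∨ (en r).2 = v) ↔ v ∈ ({x, y} : Finset V) := by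
        rw [← sm_vs_J hr, sm_mem_vs]; simp
      have e2 : ((en f).1 = v ∨ (en f).2 = v) ↔ v ∈ ({x, y} : Finset V) := by
        rw [← sm_vs_J hf, sm_mem_vs]; simp
      have e3 : ((en g).1 = v ∨ (en g).2 = v) ↔ v ∈ ({x, y} : Finset V) := by
        rw [← sm_vs_J hg, sm_mem_vs]; simp
      simp only [mem_insert, mem_singleton, exists_eq_or_imp, exists_eq_left] at e1 e2 e3 ⊢
      rw [e1, e2, e3]
      constructor
      · rintro (h | h | h) <;> exact h
      · intro h; exact Or.inl h
    rw [this, card_pair hxy]

theorem sm_small3_tri {q : ℝ} (hq : q ≠ 0) (hq1 : q ≠ 1) {wt : E → ℝ}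
    {r f g : E} (hfr : f ≠ r) (hgr : g ≠ r) (hfg : f ≠ g) (hS : S = {r, f, g}) {x y z : V}
    (hxy : x ≠ y) (hxz : x ≠ z) (hyz : y ≠ z)
    (hr : sm_J en r x y) (hf : sm_J en f x z) (hg : sm_J en g y z) :
    aa q en wt r S = q ^ (Fintype.card V - 2) * (q + wt f + wt g) ∧
      bb q en wt r S = q ^ (Fintype.card V - 2) * (wt f * wt g) ∧
      (vs en S).card = 3 := by
  have he : S.erase r = {f, g} := by
    rw [hS, erase_insert (by simp [hfr.symm, hgr.symm])]
  have k1 := sm_single hxz hf
  have k2 := sm_single hyz hg
  have k3 := sm_single hxy hr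
  have k4 := sm_path hyz hxz hxy.symm hg hf
  have k5 : kk en {f, r} + 2 = Fintype.card V :=
    sm_path hxz.symm hxy.symm hyz.symm (sm_J_symm hf) (sm_J_symm hr)
  have k6 : kk en {g, r} + 2 = Fintype.card V :=
    sm_path hyz.symm hxy hxz.symm (sm_J_symm hg) hr
  have k7 : kk en {g, f, r} + 2 = Fintype.card V := by
    have := sm_tri hxz hyz hxy hr hf hg
    have h : ({g, f, r} : Finset E) = {r, f, g} := by ext e; simp; tauto
    rw [h]; exact this
  have h10 : q - 1 ≠ 0 := sub_ne_zero.2 hq1
  have hn : q ^ Fintype.card V = q ^ 2 * q ^ (Fintype.card V - 2) := by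
    rw [← pow_add]; congr 1; omega
  have hn1 : q ^ (Fintype.card V - 1) = q * q ^ (Fintype.card V - 2) := by
    rw [← pow_succ']; congr 1; omega
  have c1 : kk en {f} = Fintype.card V - 1 := by omega
  have c2 : kk en {g} = Fintype.card V - 1 := by omega
  have c3 : kk en {r} = Fintype.card V - 1 := by omega
  have c4 : kk en {g, f} = Fintype.card V - 2 := by omega
  have c5 : kk en {f, r} = Fintype.card V - 2 := by omega
  have c6 : kk en {g, r} = Fintype.card V - 2 := by omega
  have c7 : kk en {g, f, r} = Fintype.card V - 2 := by omega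
  have hi : insert f (∅ : Finset E) = {f} := rfl
  have hi' : insert g (∅ : Finset E) = {g} := rfl
  refine ⟨?_, ?_, ?_⟩
  · unfold aa
    rw [he, sm_F2 hfg, sm_F2 hfg, kk_empty, hi, hi', c1, c2, c3, c4, c5, c6, c7, hn, hn1]
    field_simp
    ring
  · unfold bb
    rw [he, sm_F2 hfg, sm_F2 hfg, kk_empty, hi, hi', c1, c2, c3, c4, c5, c6, c7, hn, hn1]
    field_simp
    ring
  · have : vs en S = {x, y, z} := by
      ext v
      rw [sm_mem_vs, hS]
      have e1 : ((en r).1 = v ∨ (en r).2 = v) ↔ v ∈ ({x, y} : Finset V) := by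
        rw [← sm_vs_J hr, sm_mem_vs]; simp
      have e2 : ((en f).1 = v ∨ (en f).2 = v) ↔ v ∈ ({x, z} : Finset V) := by
        rw [← sm_vs_J hf, sm_mem_vs]; simp
      have e3 : ((en g).1 = v ∨ (en g).2 = v) ↔ v ∈ ({y, z} : Finset V) := by
        rw [← sm_vs_J hg, sm_mem_vs]; simp
      simp only [mem_insert, mem_singleton, exists_eq_or_imp, exists_eq_left] at e1 e2 e3 ⊢
      rw [e1, e2, e3]
      constructor
      · rintro ((h | h) | (h | h) | (h | h))
        · exact Or.inl h
        · exact Or.inr (Or.inl h)
        · exact Or.inl h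
        · exact Or.inr (Or.inr h)
        · exact Or.inr (Or.inl h)
        · exact Or.inr (Or.inr h)
      · rintro (h | h | h)
        · exact Or.inl (Or.inl h)
        · exact Or.inl (Or.inr h)
        · exact Or.inr (Or.inl (Or.inr h))
    rw [this, card_insert_of_notMem (by simp [hxy, hxz]), card_pair hyz]

theorem small3 {q : ℝ} (hq : q ≠ 0) (hq1 : q ≠ 1) {wt : E → ℝ} (hT : TC en S)
    {r f g : E} (hfr : f ≠ r) (hgr : g ≠ r) (hfg : f ≠ g) (hS : S = {r, f, g}) :
    (aa q en wt r S = q ^ (Fintype.card V - 1) ∧
      bb q en wt r S = q ^ (Fintype.card V - 1) * ((1 + wt f) * (1 + wt g) - 1) ∧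
      (vs en S).card = 2) ∨
    (aa q en wt r S = q ^ (Fintype.card V - 2) * (q + wt f + wt g) ∧
      bb q en wt r S = q ^ (Fintype.card V - 2) * (wt f * wt g) ∧
      (vs en S).card = 3) := by
  have hrS : r ∈ S := by rw [hS]; simp
  have hfS : f ∈ S := by rw [hS]; simp
  have hgS : g ∈ S := by rw [hS]; simp
  have her : S.erase r = {f, g} := by
    rw [hS, erase_insert (by simp [hfr.symm, hgr.symm])]
  have hef : S.erase f = {r, g} := by
    rw [hS]; ext e; simp only [mem_erase, mem_insert, mem_singleton]
    constructor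
    · rintro ⟨h1, h | h | h⟩
      · left; exact h
      · exact absurd h h1
      · right; exact h
    · rintro (h | h)
      · subst h; exact ⟨hfr.symm, Or.inl rfl⟩
      · subst h; exact ⟨hfg.symm, Or.inr (Or.inr rfl)⟩
  have heg : S.erase g = {r, f} := by
    rw [hS]; ext e; simp only [mem_erase, mem_insert, mem_singleton]
    constructor
    · rintro ⟨h1, h | h | h⟩
      · left; exact h
      · right; exact h
      · exact absurd h h1
    · rintro (h | h)
      · subst h; exact ⟨hgr.symm, Or.inl rfl⟩
      · subst h; exact ⟨hfg, Or.inr (Or.inl rfl)⟩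
  obtain ⟨nr, r1, r2⟩ := sm_ends hT hrS
  obtain ⟨nf, f1, f2⟩ := sm_ends hT hfS
  obtain ⟨ng, g1, g2⟩ := sm_ends hT hgS
  rw [her, sm_mem_vs] at r1 r2
  rw [hef, sm_mem_vs] at f1 f2
  rw [heg, sm_mem_vs] at g1 g2
  simp only [mem_insert, mem_singleton, exists_eq_or_imp, exists_eq_left] at r1 r2 f1 f2 g1 g2
  -- name the ends
  obtain ⟨x, hx⟩ : ∃ x, x = (en r).1 := ⟨_, rfl⟩
  obtain ⟨y, hy⟩ : ∃ y, y = (en r).2 := ⟨_, rfl⟩
  have hxy : x ≠ y := by rw [hx, hy]; exact nr
  have hJr : sm_J en r x y := Or.inl (by rw [hx, hy])
  obtain ⟨a, ha⟩ : ∃ a, a = (en f).1 := ⟨_, rfl⟩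
  obtain ⟨b, hb⟩ : ∃ b, b = (en f).2 := ⟨_, rfl⟩
  have hab : a ≠ b := by rw [ha, hb]; exact nf
  have hJf : sm_J en f a b := Or.inl (by rw [ha, hb])
  obtain ⟨c, hc⟩ : ∃ c, c = (en g).1 := ⟨_, rfl⟩
  obtain ⟨d, hd⟩ : ∃ d, d = (en g).2 := ⟨_, rfl⟩
  have hcd : c ≠ d := by rw [hc, hd]; exact ng
  have hJg : sm_J en g c d := Or.inl (by rw [hc, hd])
  simp only [← hx, ← hy, ← ha, ← hb, ← hc, ← hd] at r1 r2 f1 f2 g1 g2
  -- general step: an edge joining u to w for f and g
  have key : ∀ u v : V, u ≠ v → sm_J en r u v → sm_J en f u v → sm_J en g u v →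
      (aa q en wt r S = q ^ (Fintype.card V - 1) ∧
      bb q en wt r S = q ^ (Fintype.card V - 1) * ((1 + wt f) * (1 + wt g) - 1) ∧
      (vs en S).card = 2) := fun u v h1 h2 h3 h4 => sm_small3_par hq hq1 hfr hgr hfg hS h1 h2 h3 h4
  have key2 : ∀ u v w : V, u ≠ v → u ≠ w → v ≠ w → sm_J en r u v → sm_J en f u w →
      sm_J en g v w → (aa q en wt r S = q ^ (Fintype.card V - 2) * (q + wt f + wt g) ∧
      bb q en wt r S = q ^ (Fintype.card V - 2) * (wt f * wt g) ∧
      (vs en S).card = 3) := fun u v w h1 h2 h3 h4 h5 h6 =>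
        sm_small3_tri hq hq1 hfr hgr hfg hS h1 h2 h3 h4 h5 h6
  by_cases hax : a = x
  · subst hax
    by_cases hby : b = y
    · subst hby
      left
      refine key a b hab hJr hJf ?_
      rcases g1 with h | h <;> rcases g2 with h' | h' <;>
        rcases h with h | h <;> rcases h' with h' | h' <;>
        first
          | (exfalso; exact hcd (h.symm.trans h'))
          | (subst h; subst h'; exact hJg)
          | (subst h; subst h'; exact sm_J_symm hJg)
    · -- f = a b with b not y, so g = y b
      right
      have hbc : c = b ∨ d = b := by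
        rcases f2 with (h | h) | (h | h)
        · exact absurd h hab
        · exact absurd h.symm hby
        · exact Or.inl h
        · exact Or.inr h
      have hyc : c = y ∨ d = y := by
        rcases r2 with (h | h) | (h | h)
        · exact absurd h hxy
        · exact absurd h hby
        · exact Or.inl h
        · exact Or.inr h
      have hJ : sm_J en g y b := by
        rcases hbc with h | h <;> rcases hyc with h' | h'
        · exact absurd (h.symm.trans h') hby
        · rw [← h, ← h']; exact sm_J_symm hJg
        · rw [← h, ← h']; exact hJg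
        · exact absurd (h.symm.trans h') hby
      exact key2 a y b hxy hab (fun h => hby h.symm) hJr hJf hJ
  · by_cases hay : a = y
    · subst hay
      by_cases hbx : b = x
      · subst hbx
        left
        refine key b a hxy hJr (sm_J_symm hJf) ?_
        rcases g1 with h | h <;> rcases g2 with h' | h' <;>
          rcases h with h | h <;> rcases h' with h' | h' <;>
          first
            | (exfalso; exact hcd (h.symm.trans h'))
            | (subst h; subst h'; exact hJg)
            | (subst h; subst h'; exact sm_J_symm hJg)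
      · right
        have hbc : c = b ∨ d = b := by
          rcases f2 with (h | h) | (h | h)
          · exact absurd h.symm hbx
          · exact absurd h hab
          · exact Or.inl h
          · exact Or.inr h
        have hxc : c = x ∨ d = x := by
          rcases r1 with (h | h) | (h | h)
          · exact absurd h hax
          · exact absurd h hbx
          · exact Or.inl h
          · exact Or.inr h
        have hJ : sm_J en g x b := by
          rcases hbc with h | h <;> rcases hxc with h' | h'
          · exact absurd (h.symm.trans h') hbx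
          · rw [← h, ← h']; exact sm_J_symm hJg
          · rw [← h, ← h']; exact hJg
          · exact absurd (h.symm.trans h') hbx
        exact key2 a x b hxy.symm hab (fun h => hbx h.symm) (sm_J_symm hJr) hJf hJ
    · -- a is neither x nor y, so b is x or y
      have hac : c = a ∨ d = a := by
        rcases f1 with (h | h) | (h | h)
        · exact absurd h.symm hax
        · exact absurd h.symm hay
        · exact Or.inl h
        · exact Or.inr h
      by_cases hbx : b = x
      · subst hbx
        right
        have hyc : c = y ∨ d = y := by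
          rcases r2 with (h | h) | (h | h)
          · exact absurd h hay
          · exact absurd h hxy
          · exact Or.inl h
          · exact Or.inr h
        have hJ : sm_J en g y a := by
          rcases hac with h | h <;> rcases hyc with h' | h'
          · exact absurd (h.symm.trans h') hay
          · rw [← h, ← h']; exact sm_J_symm hJg
          · rw [← h, ← h']; exact hJg
          · exact absurd (h.symm.trans h') hay
        exact key2 b y a hxy hab.symm (fun h => hay h.symm) hJr (sm_J_symm hJf) hJ
      · by_cases hby : b = y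
        · subst hby
          right
          have hxc : c = x ∨ d = x := by
            rcases r1 with (h | h) | (h | h)
            · exact absurd h hax
            · exact absurd h hbx
            · exact Or.inl h
            · exact Or.inr h
          have hJ : sm_J en g x a := by
            rcases hac with h | h <;> rcases hxc with h' | h'
            · exact absurd (h.symm.trans h') hax
            · rw [← h, ← h']; exact sm_J_symm hJg
            · rw [← h, ← h']; exact hJg
            · exact absurd (h.symm.trans h') hax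
          exact key2 b x a hxy.symm hab.symm (fun h => hax h.symm) (sm_J_symm hJr)
            (sm_J_symm hJf) hJ
        · -- impossible: x and y must both be ends of g, but also a is
          exfalso
          have hxc : c = x ∨ d = x := by
            rcases r1 with (h | h) | (h | h)
            · exact absurd h hax
            · exact absurd h hbx
            · exact Or.inl h
            · exact Or.inr h
          have hyc : c = y ∨ d = y := by
            rcases r2 with (h | h) | (h | h)
            · exact absurd h hay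
            · exact absurd h hby
            · exact Or.inl h
            · exact Or.inr h
          rcases hac with h | h <;> rcases hxc with h' | h' <;> rcases hyc with h'' | h''
          · exact hax (h.symm.trans h')
          · exact hax (h.symm.trans h')
          · exact hay (h.symm.trans h'')
          · exact hxy (h'.symm.trans h'')
          · exact hxy (h'.symm.trans h'')
          · exact hay (h.symm.trans h'')
          · exact hax (h.symm.trans h')
          · exact hax (h.symm.trans h')

end Multi

end Pool.Agent.H194R2.JS
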