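import Pool.Agent.H194R2.JS.PF

/-! Substitution of a subnetwork by an edge (module A2). -/

namespace Pool.Agent.H194R2.JS

open Finset

namespace SubNet

section Multi

variable {V E : Type}

theorem card_quot {r r' : V → V → Prop} (h : ∀ u v, r u v → Quot.mk r' u = Quot.mk r' v)
    (h' : ∀ u v, r' u v → Quot.mk r u = Quot.mk r v) : Nat.card (Quot r) = Nat.card (Quot r') := by
  refine Nat.card_congr ⟨Quot.lift (Quot.mk r') h, Quot.lift (Quot.mk r) h', ?_, ?_⟩
  · rintro ⟨a⟩; rfl
  · rintro ⟨a⟩; rfl

variable [DecidableEq V] [DecidableEq E]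

omit [DecidableEq V] in
theorem kk_loop {en : E → V × V} {e : E} {a : V} (he : en e = (a, a)) (X : Finset E) :
    kk en (insert e X) = kk en X := by
  unfold kk
  apply card_quot
  · rintro u v ⟨f, hf, hfe⟩
    rcases mem_insert.1 hf with h | h
    · subst h
      rw [he] at hfe
      simp only [Prod.mk.injEq] at hfe
      rw [← hfe.1, ← hfe.2]
    · exact Quot.sound ⟨f, h, hfe⟩
  · rintro u v ⟨f, hf, hfe⟩
    exact Quot.sound ⟨f, mem_insert_of_mem hf, hfe⟩

omit [DecidableEq V] in
theorem kk_par {en : E → V × V} {e g : E} {x y : V} (hg : en g = (x, y))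
    (he : en e = (x, y) ∨ en e = (y, x)) (X : Finset E) :
    kk en (insert e X) = kk en (insert g X) := by
  unfold kk
  apply card_quot
  · rintro u v ⟨f, hf, hfe⟩
    rcases mem_insert.1 hf with h | h
    · subst h
      rcases he with he | he
      · exact Quot.sound ⟨g, mem_insert_self _ _, by rw [hg, ← he, hfe]⟩
      · rw [he] at hfe
        simp only [Prod.mk.injEq] at hfe
        obtain ⟨rfl, rfl⟩ := hfe
        exact (Quot.sound ⟨g, mem_insert_self _ _, hg⟩).symm
    · exact Quot.sound ⟨f, mem_insert_of_mem h, hfe⟩
  · rintro u v ⟨f, hf, hfe⟩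
    rcases mem_insert.1 hf with h | h
    · subst h
      rw [hg] at hfe
      simp only [Prod.mk.injEq] at hfe
      obtain ⟨rfl, rfl⟩ := hfe
      rcases he with he | he
      · exact Quot.sound ⟨e, mem_insert_self _ _, he⟩
      · exact (Quot.sound ⟨e, mem_insert_self _ _, he⟩).symm
    · exact Quot.sound ⟨f, mem_insert_of_mem h, hfe⟩

omit [DecidableEq V] in
theorem F_congr {q : ℝ} {en en' : E → V × V} {wt wt' : E → ℝ} {T S : Finset E}
    (h : ∀ e ∈ T ∪ S, en e = en' e) (h' : ∀ e ∈ S, wt e = wt' e) :
    F q en wt T S = F q en' wt' T S := by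
  unfold F
  refine sum_congr rfl fun A hA => ?_
  rw [mem_powerset] at hA
  congr 1
  · congr 1
    apply kk_congr
    intro e he
    apply h
    rcases mem_union.1 he with h1 | h1
    · exact mem_union_left _ h1
    · exact mem_union_right _ (hA h1)
  · exact prod_congr rfl fun e he => h' e (hA he)

omit [DecidableEq V] in
theorem F_loop {q : ℝ} {en : E → V × V} {wt : E → ℝ} {T S : Finset E} {e : E} {a : V}
    (he : en e = (a, a)) : F q en wt (insert e T) S = F q en wt T S := by
  unfold F
  refine sum_congr rfl fun A _ => ?_
  rw [insert_union, kk_loop he]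

omit [DecidableEq V] in
theorem F_par {q : ℝ} {en : E → V × V} {wt : E → ℝ} {T S : Finset E} {e g : E} {x y : V}
    (hg : en g = (x, y)) (he : en e = (x, y) ∨ en e = (y, x)) :
    F q en wt (insert e T) S = F q en wt (insert g T) S := by
  unfold F
  refine sum_congr rfl fun A _ => ?_
  rw [insert_union, insert_union, kk_par hg he]

omit [DecidableEq E] in
theorem vs_mono {en : E → V × V} {A B : Finset E} (h : A ⊆ B) : vs en A ⊆ vs en B := by
  unfold vs
  exact union_subset_union (image_subset_image h) (image_subset_image h)

omit [DecidableEq E] in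
theorem mem_vs {en : E → V × V} {A : Finset E} {u : V} :
    u ∈ vs en A ↔ ∃ e ∈ A, (en e).1 = u ∨ (en e).2 = u := by
  unfold vs
  rw [mem_union, mem_image, mem_image]
  constructor
  · rintro (⟨e, he, h⟩ | ⟨e, he, h⟩)
    · exact ⟨e, he, Or.inl h⟩
    · exact ⟨e, he, Or.inr h⟩
  · rintro ⟨e, he, h | h⟩
    · exact Or.inl ⟨e, he, h⟩
    · exact Or.inr ⟨e, he, h⟩

omit [DecidableEq E] in
theorem red_eq {en : E → V × V} {u v : V} {e : E} (h1 : (en e).1 ≠ u) (h2 : (en e).2 ≠ u) :
    red v u en e = en e := by
  unfold red
  rw [if_neg h1, if_neg h2]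

omit [DecidableEq E] in
theorem vs_red {en : E → V × V} {u v : V} {A : Finset E} {w : V} (h : w ∈ vs (red v u en) A) :
    w ∈ vs en A ∨ w = v := by
  rw [mem_vs] at h
  obtain ⟨e, he, h⟩ := h
  unfold red at h
  simp only at h
  rcases h with h | h
  · split_ifs at h with hc
    · exact Or.inr h.symm
    · exact Or.inl (mem_vs.2 ⟨e, he, Or.inl h⟩)
  · split_ifs at h with hc
    · exact Or.inr h.symm
    · exact Or.inl (mem_vs.2 ⟨e, he, Or.inr h⟩)

variable [Fintype V]

/-- the key lemma: a subnetwork attached at `x`, `y` acts like a combination of no edge and a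
contracted edge `g0 = xy` -/
theorem key {q : ℝ} (hq : q ≠ 0) (wt : E → ℝ) {x y : V} (g0 : E) :
    ∀ (n : ℕ) (A : Finset E), A.card = n → g0 ∉ A → ∀ en : E → V × V, ∃ al be : ℝ,
      ∀ en' : E → V × V, (∀ e ∈ A, en' e = en e) → en' g0 = (x, y) → ∀ T B : Finset E,
        Disjoint A (T ∪ B) → vs en' A ∩ vs en' (T ∪ B) ⊆ {x, y} →
        F q en' wt T (A ∪ B) = al * F q en' wt T B + be * F q en' wt (insert g0 T) B := by
  intro n
  induction n with
  | zero =>
    intro A hA _ en
    rw [card_eq_zero] at hA
    subst hA
    refine ⟨1, 0, fun en' _ _ T B _ _ => ?_⟩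
    rw [empty_union, one_mul, zero_mul, add_zero]
  | succ n ih =>
    intro A hA hgA en
    have hne : A.Nonempty := by rw [← card_pos]; omega
    obtain ⟨e, heA⟩ := hne
    set A0 := A.erase e with hA0
    have hA0c : A0.card = n := by rw [hA0, card_erase_of_mem heA]; omega
    have hgA0 : g0 ∉ A0 := fun h => hgA (mem_of_mem_erase h)
    have hsub : A0 ⊆ A := erase_subset _ _
    have heg : e ≠ g0 := fun h => hgA (h ▸ heA)
    -- common splitting
    have hsplit : ∀ (en' : E → V × V) (T B : Finset E), Disjoint A (T ∪ B) →
        F q en' wt T (A ∪ B) = F q en' wt T (A0 ∪ B) + wt e * F q en' wt (insert e T) (A0 ∪ B) := by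
      intro en' T B hd
      have heB : e ∉ B := fun h => (disjoint_left.1 hd heA) (mem_union_right _ h)
      rw [F_split (mem_union_left B heA), erase_union_distrib, erase_eq_of_notMem heB]
    have hd0 : ∀ T B : Finset E, Disjoint A (T ∪ B) → Disjoint A0 (T ∪ B) := fun T B h =>
      disjoint_of_subset_left hsub h
    have hv0 : ∀ (en' : E → V × V) (T B : Finset E), vs en' A ∩ vs en' (T ∪ B) ⊆ {x, y} →
        vs en' A0 ∩ vs en' (T ∪ B) ⊆ {x, y} := fun en' T B h =>
      (inter_subset_inter_right (vs_mono hsub)).trans h
    obtain ⟨al0, be0, h0⟩ := ih A0 hA0c hgA0 en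
    -- the case of an end outside {x, y}
    have hcase : ∀ u v : V, u ≠ v → u ≠ x → u ≠ y → (en e = (v, u) ∨ en e = (u, v)) →
        ∃ al be : ℝ, ∀ en' : E → V × V, (∀ e ∈ A, en' e = en e) → en' g0 = (x, y) →
          ∀ T B : Finset E, Disjoint A (T ∪ B) → vs en' A ∩ vs en' (T ∪ B) ⊆ {x, y} →
          F q en' wt T (A ∪ B) = al * F q en' wt T B + be * F q en' wt (insert g0 T) B := by
      intro u v huv hux huy hen
      obtain ⟨al1, be1, h1⟩ := ih A0 hA0c hgA0 (red v u en)
      refine ⟨al0 + wt e / q * al1, be0 + wt e / q * be1, ?_⟩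
      intro en' hag hg T B hd hv
      have hen' : en' e = (v, u) ∨ en' e = (u, v) := by rw [hag e heA]; exact hen
      have huA : u ∈ vs en' A := by
        rw [mem_vs]
        rcases hen' with h | h
        · exact ⟨e, heA, Or.inr (by rw [h])⟩
        · exact ⟨e, heA, Or.inl (by rw [h])⟩
      have hvA : v ∈ vs en' A := by
        rw [mem_vs]
        rcases hen' with h | h
        · exact ⟨e, heA, Or.inl (by rw [h])⟩
        · exact ⟨e, heA, Or.inr (by rw [h])⟩
      have huTB : u ∉ vs en' (T ∪ B) := by
        intro h
        have h2 := hv (mem_inter.2 ⟨huA, h⟩)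
        rw [mem_insert, mem_singleton] at h2
        rcases h2 with h2 | h2
        · exact hux h2
        · exact huy h2
      have hfix : ∀ f ∈ T ∪ B, red v u en' f = en' f := by
        intro f hf
        apply red_eq
        · intro hc; exact huTB (mem_vs.2 ⟨f, hf, Or.inl hc⟩)
        · intro hc; exact huTB (mem_vs.2 ⟨f, hf, Or.inr hc⟩)
      have hg1 : red v u en' g0 = (x, y) := by
        rw [red_eq, hg]
        · rw [hg]; exact hux.symm
        · rw [hg]; exact huy.symm
      have hag1 : ∀ f ∈ A0, red v u en' f = red v u en f := by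
        intro f hf
        unfold red
        rw [hag f (hsub hf)]
      have hvs1 : vs (red v u en') (T ∪ B) = vs en' (T ∪ B) := by
        unfold vs
        congr 1
        · exact image_congr fun f hf => by rw [hfix f hf]
        · exact image_congr fun f hf => by rw [hfix f hf]
      have hv1 : vs (red v u en') A0 ∩ vs (red v u en') (T ∪ B) ⊆ {x, y} := by
        intro w hw
        rw [mem_inter, hvs1] at hw
        apply hv
        rw [mem_inter]
        refine ⟨?_, hw.2⟩
        rcases vs_red hw.1 with h2 | h2
        · exact vs_mono hsub h2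
        · rw [h2]; exact hvA
      have e1 := h0 en' (fun f hf => hag f (hsub hf)) hg T B (hd0 T B hd) (hv0 en' T B hv)
      have e2 := h1 (red v u en') hag1 hg1 T B (hd0 T B hd) hv1
      have e3 : F q (red v u en') wt T B = F q en' wt T B :=
        F_congr hfix (fun _ _ => rfl)
      have e4 : F q (red v u en') wt (insert g0 T) B = F q en' wt (insert g0 T) B := by
        apply F_congr _ (fun _ _ => rfl)
        intro f hf
        rw [insert_union, mem_insert] at hf
        rcases hf with hf | hf
        · rw [hf, hg1, hg]
        · exact hfix f hf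
      have e5 := F_con (q := q) (wt := wt) (T := T) (S := A0 ∪ B) (e := e) (en := en') huv.symm hen'
      rw [e2, e3, e4] at e5
      have e6 : F q en' wt (insert e T) (A0 ∪ B) =
          (al1 * F q en' wt T B + be1 * F q en' wt (insert g0 T) B) / q := by
        rw [eq_div_iff hq, mul_comm]
        exact e5
      rw [hsplit en' T B hd, e1, e6]
      ring
    rcases hab : en e with ⟨a, b⟩
    by_cases hloop : a = b
    · -- loop
      subst hloop
      refine ⟨(1 + wt e) * al0, (1 + wt e) * be0, ?_⟩
      intro en' hag hg T B hd hv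
      have e1 := h0 en' (fun f hf => hag f (hsub hf)) hg T B (hd0 T B hd) (hv0 en' T B hv)
      have he' : en' e = (a, a) := by rw [hag e heA]; exact hab
      rw [hsplit en' T B hd, F_loop he', e1]
      ring
    · by_cases ha : a ≠ x ∧ a ≠ y
      · exact hcase a b hloop ha.1 ha.2 (Or.inr hab)
      · by_cases hb : b ≠ x ∧ b ≠ y
        · exact hcase b a (Ne.symm hloop) hb.1 hb.2 (Or.inl hab)
        · -- parallel to xy
          have hpar : en e = (x, y) ∨ en e = (y, x) := by
            have ha' : a = x ∨ a = y := by
              by_contra hc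
              push Not at hc
              exact ha hc
            have hb' : b = x ∨ b = y := by
              by_contra hc
              push Not at hc
              exact hb hc
            rcases ha' with rfl | rfl <;> rcases hb' with rfl | rfl
            · exact absurd rfl hloop
            · exact Or.inl hab
            · exact Or.inr hab
            · exact absurd rfl hloop
          refine ⟨al0, be0 + wt e * (al0 + be0), ?_⟩
          intro en' hag hg T B hd hv
          have e1 := h0 en' (fun f hf => hag f (hsub hf)) hg T B (hd0 T B hd) (hv0 en' T B hv)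
          have he' : en' e = (x, y) ∨ en' e = (y, x) := by rw [hag e heA]; exact hpar
          have hd1 : Disjoint A0 (insert g0 T ∪ B) := by
            rw [insert_union, disjoint_insert_right]
            exact ⟨hgA0, hd0 T B hd⟩
          have hv1 : vs en' A0 ∩ vs en' (insert g0 T ∪ B) ⊆ {x, y} := by
            intro w hw
            rw [mem_inter] at hw
            rw [insert_union] at hw
            obtain ⟨f, hf, hf2⟩ := mem_vs.1 hw.2
            rcases mem_insert.1 hf with hf1 | hf1
            · rw [hf1, hg] at hf2
              rw [mem_insert, mem_singleton]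
              rcases hf2 with h2 | h2
              · exact Or.inl h2.symm
              · exact Or.inr h2.symm
            · exact hv0 en' T B hv (mem_inter.2 ⟨hw.1, mem_vs.2 ⟨f, hf1, hf2⟩⟩)
          have e2 := h0 en' (fun f hf => hag f (hsub hf)) hg (insert g0 T) B hd1 hv1
          rw [insert_eq_of_mem (mem_insert_self g0 T)] at e2
          rw [hsplit en' T B hd, F_par hg he', e1, e2]
          ring

/-! ### the extended graph -/

/-- the ends of the edges of `E ∪ {xy}` -/
def ex (x y : V) (en : E → V × V) : Option E → V × V
  | none => (x, y)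
  | some e => en e

/-- weights -/
def ew (wt : E → ℝ) : Option E → ℝ
  | none => 0
  | some e => wt e

omit [DecidableEq V] [DecidableEq E] [Fintype V] in
theorem kk_ex (x y : V) (en : E → V × V) (X : Finset E) :
    kk (ex x y en) (X.map Function.Embedding.some) = kk en X := by
  unfold kk
  apply card_quot
  · rintro u v ⟨f, hf, hfe⟩
    rw [mem_map] at hf
    obtain ⟨e, he, rfl⟩ := hf
    exact Quot.sound ⟨e, he, hfe⟩
  · rintro u v ⟨f, hf, hfe⟩
    exact Quot.sound ⟨some f, mem_map.2 ⟨f, hf, rfl⟩, hfe⟩

omit [DecidableEq V] [Fintype V] in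
theorem kk_ex' (x y : V) (en : E → V × V) (X : Finset E) {g : E} (hg : g ∉ X) :
    kk (ex x y en) (insert none (X.map Function.Embedding.some)) =
      kk (Function.update en g (x, y)) (insert g X) := by
  unfold kk
  apply card_quot
  · rintro u v ⟨f, hf, hfe⟩
    rw [mem_insert, mem_map] at hf
    rcases hf with rfl | ⟨e, he, rfl⟩
    · exact Quot.sound ⟨g, mem_insert_self _ _, by rw [Function.update_self]; exact hfe⟩
    · refine Quot.sound ⟨e, mem_insert_of_mem he, ?_⟩
      rw [Function.update_of_ne]
      · exact hfe
      · rintro rfl; exact hg he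
  · rintro u v ⟨f, hf, hfe⟩
    rw [mem_insert] at hf
    rcases hf with rfl | hf
    · rw [Function.update_self] at hfe
      exact Quot.sound ⟨none, mem_insert_self _ _, hfe⟩
    · rw [Function.update_of_ne (by rintro rfl; exact hg hf)] at hfe
      exact Quot.sound ⟨some f, mem_insert_of_mem (mem_map.2 ⟨f, hf, rfl⟩), hfe⟩

omit [DecidableEq V] [Fintype V] in
theorem sum_map (q : ℝ) (en : Option E → V × V) (wt : E → ℝ) (T : Finset (Option E))
    (S : Finset E) :
    F q en (ew wt) T (S.map Function.Embedding.some) =
      ∑ A ∈ S.powerset, q ^ kk en (T ∪ A.map Function.Embedding.some) * ∏ e ∈ A, wt e := by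
  unfold F
  symm
  refine sum_bij (fun A _ => A.map Function.Embedding.some) ?_ ?_ ?_ ?_
  · intro A hA
    rw [mem_powerset] at hA ⊢
    exact map_subset_map.2 hA
  · intro A _ B _ h
    exact map_injective _ h
  · intro B hB
    rw [mem_powerset] at hB
    obtain ⟨A, hA, rfl⟩ := subset_map_iff.1 hB
    exact ⟨A, mem_powerset.2 hA, rfl⟩
  · intro A _
    rw [prod_map]
    rfl

omit [DecidableEq V] [Fintype V] in
theorem F_ex (q : ℝ) (x y : V) (en : E → V × V) (wt : E → ℝ) (T S : Finset E) :
    F q (ex x y en) (ew wt) (T.map Function.Embedding.some) (S.map Function.Embedding.some) =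
      F q en wt T S := by
  rw [sum_map]
  unfold F
  refine sum_congr rfl fun A _ => ?_
  rw [← map_union, kk_ex]

omit [DecidableEq V] [Fintype V] in
theorem F_ex' (q : ℝ) (x y : V) (en : E → V × V) (wt wt' : E → ℝ) (T S : Finset E) {g : E}
    (hg : g ∉ T ∪ S) (hwt : ∀ e ∈ S, wt' e = wt e) :
    F q (ex x y en) (ew wt) (insert none (T.map Function.Embedding.some))
      (S.map Function.Embedding.some) =
      F q (Function.update en g (x, y)) wt' (insert g T) S := by
  rw [sum_map]
  unfold F
  refine sum_congr rfl fun A hA => ?_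
  rw [mem_powerset] at hA
  rw [insert_union, insert_union, ← map_union, kk_ex' x y en (T ∪ A)]
  · congr 1
    exact prod_congr rfl fun e he => (hwt e (hA he)).symm
  · intro h
    apply hg
    rcases mem_union.1 h with h | h
    · exact mem_union_left _ h
    · exact mem_union_right _ (hA h)

theorem kk_one {en : E → V × V} {e : E} {x y : V} (hxy : x ≠ y) (he : en e = (x, y)) :
    kk en {e} + 1 = Fintype.card V := by
  have h := kk_red hxy ∅ (Or.inl he : en e = (x, y) ∨ en e = (y, x))
  rw [kk_empty] at h
  exact h.symm

omit [DecidableEq E] [Fintype V] in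
theorem vs_ex (x y : V) (en : E → V × V) (X : Finset E) :
    vs (ex x y en) (X.map Function.Embedding.some) = vs en X := by
  ext w
  rw [mem_vs, mem_vs]
  constructor
  · rintro ⟨f, hf, hfe⟩
    rw [mem_map] at hf
    obtain ⟨e, he, rfl⟩ := hf
    exact ⟨e, he, hfe⟩
  · rintro ⟨f, hf, hfe⟩
    exact ⟨some f, mem_map.2 ⟨f, hf, rfl⟩, hfe⟩

omit [DecidableEq V] [Fintype V] in
theorem F_empty (q : ℝ) (en : E → V × V) (wt : E → ℝ) (T : Finset E) :
    F q en wt T ∅ = q ^ kk en T := by
  unfold F
  rw [powerset_empty, sum_singleton, union_empty, prod_empty, mul_one]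

end Multi

end SubNet

open SubNet in
theorem subst_net {V E : Type} [DecidableEq V] [DecidableEq E] {en : E → V × V} {S : Finset E}
    [Fintype V] {q : ℝ} (hq : q ≠ 0) (hq1 : q ≠ 1) {wt : E → ℝ} {A : Finset E} (hA : A ⊆ S)
    {r : E} (hr : r ∈ S) (hrA : r ∉ A) {x y : V} (hxy : x ≠ y)
    (hbd : vs en A ∩ vs en (S \ A) ⊆ {x, y}) {g : E} (hg : g ∈ A)
    (h0 : aa q (Function.update en r (x, y)) wt r (insert r A) ≠ 0) :
    aa q en wt r S = aa q (Function.update en r (x, y)) wt r (insert r A)
        / q ^ (Fintype.card V - 1)
      * aa q (Function.update en g (x, y))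
          (Function.update wt g (ww q (Function.update en r (x, y)) wt r (insert r A)))
          r (insert g (S \ A)) ∧
    bb q en wt r S = aa q (Function.update en r (x, y)) wt r (insert r A)
        / q ^ (Fintype.card V - 1)
      * bb q (Function.update en g (x, y))
          (Function.update wt g (ww q (Function.update en r (x, y)) wt r (insert r A)))
          r (insert g (S \ A)) := by
  have hq1' : q - 1 ≠ 0 := sub_ne_zero.2 hq1
  obtain ⟨al, be, hk⟩ := key (x := x) (y := y) hq (ew wt) none (A.map Function.Embedding.some).card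
    (A.map Function.Embedding.some) rfl (by simp) (ex x y en)
  -- the key lemma for the original edges
  have K : ∀ en' : E → V × V, (∀ e ∈ A, en' e = en e) → ∀ T B : Finset E, Disjoint A (T ∪ B) →
      vs en' A ∩ vs en' (T ∪ B) ⊆ {x, y} → F q en' wt T (A ∪ B) = al * F q en' wt T B +
        be * F q (ex x y en') (ew wt) (insert none (T.map Function.Embedding.some))
          (B.map Function.Embedding.some) := by
    intro en' hag T B hd hv
    have h1 := hk (ex x y en') (by
        intro e he
        rw [mem_map] at he
        obtain ⟨f, hf, rfl⟩ := he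
        exact hag f hf) rfl (T.map Function.Embedding.some) (B.map Function.Embedding.some)
      (by rw [← map_union, disjoint_map]; exact hd)
      (by rw [← map_union, vs_ex, vs_ex]; exact hv)
    rw [← map_union, F_ex, F_ex] at h1
    exact h1
  obtain ⟨n, hn⟩ : ∃ n, Fintype.card V = n + 1 :=
    ⟨kk (Function.update en r (x, y)) {r}, (kk_one hxy (Function.update_self r (x, y) en)).symm⟩
  have hpow : q ^ Fintype.card V = q ^ n * q := by rw [hn, pow_succ]
  have hqn : q ^ n ≠ 0 := pow_ne_zero _ hq
  -- the network
  set en_r := Function.update en r (x, y) with hen_r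
  have hag_r : ∀ e ∈ A, en_r e = en e := by
    intro e he
    rw [hen_r, Function.update_of_ne]
    rintro rfl
    exact hrA he
  have her : en_r r = (x, y) := Function.update_self r (x, y) en
  have hkr : kk en_r {r} = n := by
    have := kk_one hxy her
    omega
  have hkn : kk (ex x y en_r) {none} = n := by
    have := kk_one (en := ex x y en_r) (e := none) hxy rfl
    omega
  have hknr : kk (ex x y en_r) (insert none {some r}) = n := by
    rw [kk_par (g := some r) (x := x) (y := y) her (Or.inl rfl), insert_eq_of_mem (mem_singleton_self _)]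
    have := kk_one (en := ex x y en_r) (e := some r) hxy her
    omega
  have e0 : F q en_r wt ∅ A = al * (q ^ n * q) + be * q ^ n := by
    have h1 := K en_r hag_r ∅ ∅ (by simp) (by
      intro w hw
      rw [mem_inter] at hw
      obtain ⟨f, hf, -⟩ := mem_vs.1 hw.2
      simp at hf)
    rw [union_empty, F_empty, map_empty, F_empty, kk_empty, hpow] at h1
    rw [h1]
    congr 2
    rw [← hkn]
    rfl
  have e1 : F q en_r wt {r} A = al * q ^ n + be * q ^ n := by
    have h1 := K en_r hag_r {r} ∅ (by simpa using hrA) (by
      intro w hw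
      rw [mem_inter] at hw
      obtain ⟨f, hf, hf2⟩ := mem_vs.1 hw.2
      rw [union_empty, mem_singleton] at hf
      rw [hf, her] at hf2
      rw [mem_insert, mem_singleton]
      rcases hf2 with h2 | h2
      · exact Or.inl h2.symm
      · exact Or.inr h2.symm)
    rw [union_empty, F_empty, map_empty, F_empty, hkr] at h1
    rw [h1]
    congr 2
    rw [← hknr]
    rfl
  have her' : (insert r A).erase r = A := erase_insert hrA
  have haN : aa q en_r wt r (insert r A) = al * q ^ n := by
    unfold aa
    rw [her', e0, e1]
    field_simp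
    ring
  have hbN : bb q en_r wt r (insert r A) = be * q ^ n := by
    unfold bb
    rw [her', e0, e1]
    field_simp
    ring
  have hal : al ≠ 0 := by
    intro hc
    apply h0
    rw [haN, hc, zero_mul]
  have hw : ww q en_r wt r (insert r A) = be / al := by
    unfold ww
    rw [haN, hbN]
    field_simp
  have hcoef : aa q en_r wt r (insert r A) / q ^ (Fintype.card V - 1) = al := by
    rw [haN, hn, Nat.add_sub_cancel]
    field_simp
  rw [hcoef, hw]
  -- the whole graph
  set B := (S \ A).erase r with hB
  have hrB : r ∈ S \ A := mem_sdiff.2 ⟨hr, hrA⟩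
  have hSr : S.erase r = A ∪ B := by
    ext e
    simp only [hB, mem_union, mem_erase, mem_sdiff]
    constructor
    · rintro ⟨h1, h2⟩
      by_cases h3 : e ∈ A
      · exact Or.inl h3
      · exact Or.inr ⟨h1, h2, h3⟩
    · rintro (h3 | ⟨h1, h2, _⟩)
      · exact ⟨fun hc => hrA (hc ▸ h3), hA h3⟩
      · exact ⟨h1, h2⟩
  have hgr : g ≠ r := fun hc => hrA (hc ▸ hg)
  have hSg : (insert g (S \ A)).erase r = insert g B := by
    rw [erase_insert_of_ne hgr]
  have hgT : ∀ T : Finset E, T ⊆ {r} → g ∉ T ∪ B := by
    intro T hT hc
    rcases mem_union.1 hc with h | h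
    · exact hgr (mem_singleton.1 (hT h))
    · rw [hB, mem_erase, mem_sdiff] at h
      exact h.2.2 hg
  have main : ∀ T : Finset E, T ⊆ {r} → F q en wt T (A ∪ B) =
      al * F q (Function.update en g (x, y)) (Function.update wt g (be / al)) T (insert g B) := by
    intro T hT
    have hsub : T ∪ B ⊆ S \ A := by
      apply union_subset
      · intro e he
        rw [mem_singleton.1 (hT he)]
        exact hrB
      · exact erase_subset _ _
    have h1 := K en (fun _ _ => rfl) T B (disjoint_of_subset_right hsub disjoint_sdiff)
      ((inter_subset_inter_left (vs_mono hsub)).trans hbd)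
    have hgB : g ∉ B := fun h => hgT T hT (mem_union_right _ h)
    have h2 : F q (Function.update en g (x, y)) (Function.update wt g (be / al)) T (insert g B) =
        F q (Function.update en g (x, y)) (Function.update wt g (be / al)) T B +
        be / al * F q (Function.update en g (x, y)) (Function.update wt g (be / al))
          (insert g T) B := by
      rw [F_split (mem_insert_self g B), erase_insert hgB, Function.update_self]
    have h3 : F q (Function.update en g (x, y)) (Function.update wt g (be / al)) T B =
        F q en wt T B := by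
      apply F_congr
      · intro e he
        rw [Function.update_of_ne]
        rintro rfl
        exact hgT T hT he
      · intro e he
        rw [Function.update_of_ne]
        rintro rfl
        exact hgB he
    have h4 := F_ex' q x y en wt (Function.update wt g (be / al)) T B (hgT T hT) (by
      intro e he
      rw [Function.update_of_ne]
      rintro rfl
      exact hgB he)
    rw [h1, h2, h3, ← h4]
    field_simp
  have m0 := main ∅ (empty_subset _)
  have m1 := main {r} (subset_refl _)
  constructor
  · unfold aa
    rw [hSr, hSg, m0, m1]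
    ring
  · unfold bb
    rw [hSr, hSg, m0, m1]
    ring

end Pool.Agent.H194R2.JS
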