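import Pool.Agent.H194R2.JS.Weff
import Pool.Agent.H194R2.JS.Game
import Pool.Agent.H194R2.JS.Dyn

/-! Thresholds: all large 2-connected graphs with weights in `[q/c, c]` have the right sign. -/

namespace Pool.Agent.H194R2.JS

open Finset

/-- the class of labelled graphs of level `i` -/
def Cls {V E : Type} (lo hi q : ℝ) (A : ℕ → ℝ) (j : ℕ → ℕ) (i : ℕ) (r : E) (σ : St V E) : Prop :=
  ∀ e ∈ σ.S, e ≠ r → 1 ≤ σ.lab e ∧ σ.wt e ∈ Set.Icc lo hi ∧
    ∀ i' < i, j i' ≤ σ.lab e → σ.wt e ∈ Set.Icc (A i') (q / A i')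

theorem th_sub {q a b : ℝ} (hq : 0 < q) (hab : a ≤ b) (hb : b < 0) :
    Set.Icc b (q / b) ⊆ Set.Icc a (q / a) := by
  intro z hz
  refine ⟨hab.trans hz.1, hz.2.trans ?_⟩
  have h1 : q / (-a) ≤ q / (-b) :=
    div_le_div_of_nonneg_left hq.le (by linarith) (by linarith)
  rw [div_neg, div_neg] at h1
  linarith

/-- `levels n`: thresholds for the levels up to `n` -/
def Levels (q lo hi : ℝ) (A : ℕ → ℝ) (n : ℕ) : Prop :=
  ∃ j : ℕ → ℕ, (∀ i, 1 ≤ i → 2 ≤ j i) ∧ ∀ i ≤ n, ∀ (V E : Type) [Fintype V] [DecidableEq V]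
    [Fintype E] [DecidableEq E] (r : E) (σ : St V E), Cls lo hi q A j i r σ → TC σ.en σ.S →
    r ∈ σ.S → 3 ≤ σ.S.card → j i ≤ ∑ e ∈ σ.S.erase r, σ.lab e →
    ww q σ.en σ.wt r σ.S ∈ Set.Icc (A i) (q / A i)

theorem levels_all {q lo hi : ℝ} (hK : KK q lo hi) {N : ℕ} {A : ℕ → ℝ} (hA0 : A 0 = lo)
    (hlohi : q / lo = hi)
    (hA1 : ∀ i ≤ N, A i ≤ q / A i ∧ A i < 0) (hA2 : ∀ i < N, A i ≤ A (i + 1))
    (hA3 : ∀ i < N, ∀ k ∈ Set.Icc lo hi, ∀ z ∈ Set.Icc (A i) (q / A i),
        (1 + k) * (1 + z) - 1 ∈ Set.Icc (A (i + 1)) (q / A (i + 1)) ∧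
        k * z / (q + k + z) ∈ Set.Icc (A (i + 1)) (q / A (i + 1))) :
    ∀ n ≤ N, Levels q lo hi A n := by
  have hmono : ∀ i ≤ N, A 0 ≤ A i := by
    intro i
    induction i with
    | zero => intro _; exact le_rfl
    | succ i ih => intro h; exact (ih (by omega)).trans (hA2 i (by omega))
  have hsubK : ∀ i ≤ N, Set.Icc (A i) (q / A i) ⊆ Set.Icc lo hi := by
    intro i hi
    have := th_sub hK.q0 (hmono i hi) (hA1 i hi).2
    rw [hA0, hlohi] at this
    exact this
  intro n
  induction n with
  | zero =>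
    intro _
    refine ⟨fun _ => 2, fun _ _ => le_rfl, ?_⟩
    intro i hi V E _ _ _ _ r σ hC hT hr h3 _
    have : i = 0 := by omega
    subst this
    rw [hA0, hlohi]
    exact (lemW hK hT hr (fun e he her => (hC e he her).2.1)).2
  | succ n ih =>
    intro hn
    obtain ⟨j, hj2, hj⟩ := ih (by omega)
    obtain ⟨m, hm⟩ := game (j n)
    refine ⟨fun i => if i = n + 1 then max m 2 else j i, ?_, ?_⟩
    · intro i hi
      by_cases h : i = n + 1
      · simp [h]
      · simp [h, hj2 i hi]
    intro i hin V E _ _ _ _ r σ hC hT hr h3 hsum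
    by_cases hi1 : i = n + 1
    · subst hi1
      have hC' : Cls lo hi q A j (n + 1) r σ := fun e he her =>
        ⟨(hC e he her).1, (hC e he her).2.1, fun i' hi' hle => (hC e he her).2.2 i' hi' (by
          have h : i' ≠ n + 1 := by omega
          simpa [h] using hle)⟩
      have hsum' : m ≤ ∑ e ∈ σ.S.erase r, σ.lab e := by
        have : max m 2 ≤ ∑ e ∈ σ.S.erase r, σ.lab e := by simpa using hsum
        exact (le_max_left _ _).trans this
      refine hm V E r (fun σ => Cls lo hi q A j (n + 1) r σ)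
        (fun σ => ww q σ.en σ.wt r σ.S ∈ Set.Icc (A (n + 1)) (q / A (n + 1)))
        ?_ ?_ ?_ ?_ ?_ σ hC' hT hr h3 (fun e he her => (hC' e he her).1) hsum'
      · -- deletion
        intro σ e h f hf hfr
        exact h f (mem_of_mem_erase hf) hfr
      · intro σ e x y h f hf hfr
        exact h f (mem_of_mem_erase hf) hfr
      · -- composition
        intro σ B g x y h hT hr hB hrB hB2 hB2' hg hxy hbd
        have hB0 : B.Nonempty := ⟨g, hg⟩
        obtain ⟨t1, t2⟩ := w_halves (r := r) hT hB hB0 hr hrB hbd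
        have hwB : ∀ e ∈ insert r B, e ≠ r → e ∈ B := fun e he her => by
          rcases mem_insert.1 he with h | h
          · exact absurd h her
          · exact h
        have hw : ∀ e ∈ σ.S, e ≠ r → σ.wt e ∈ Set.Icc lo hi := fun e he her => (h e he her).2.1
        refine ⟨ww q (Function.update σ.en r (x, y)) σ.wt r (insert r B), ?_, ?_⟩
        · intro e he her
          by_cases heg : e = g
          · subst heg
            simp only [St.comp, Function.update_self]
            refine ⟨?_, ?_, ?_⟩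
            · have h1 : σ.lab e ≤ ∑ e ∈ B, σ.lab e :=
                single_le_sum (f := σ.lab) (fun _ _ => Nat.zero_le _) hg
              exact (h e (hB hg) her).1.trans h1
            · exact (lemW hK t1 (mem_insert_self _ _)
                (fun f hf hfr => hw f (hB (hwB f hf hfr)) hfr)).2
            · intro i' hi' hle
              refine hj i' (by omega) V E r
                { en := Function.update σ.en r (x, y), S := insert r B, lab := σ.lab, wt := σ.wt }
                ?_ t1 (mem_insert_self _ _) ?_ ?_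
              · intro f hf hfr
                have hfB := hwB f hf hfr
                exact ⟨(h f (hB hfB) hfr).1, (h f (hB hfB) hfr).2.1, fun i'' hi'' hle' =>
                  (h f (hB hfB) hfr).2.2 i'' (by omega) hle'⟩
              · show 3 ≤ (insert r B).card
                rw [card_insert_of_notMem hrB]; omega
              · show j i' ≤ ∑ e ∈ (insert r B).erase r, σ.lab e
                rw [erase_insert hrB]; exact hle
          · have heS : e ∈ σ.S := by
              have : e ∈ insert g (σ.S \ B) := he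
              rcases mem_insert.1 this with h | h
              · exact absurd h heg
              · exact (mem_sdiff.1 h).1
            simp only [St.comp, Function.update_of_ne heg]
            exact h e heS her
        · intro hW
          have := ww_comp hK hT hr hw hB hrB hB0 hxy hbd hg
          show ww q σ.en σ.wt r σ.S ∈ _
          rw [this]
          exact hW
      · intro σ e x y h hT hN h4 hr he her hxy h1 h2
        exact mediant hK hT hN h4 hr (fun e he her => (h e he her).2.1) he her hxy h1 h2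
      · rintro σ h hT hr h3 ⟨e, he, her, hle⟩
        exact heavy hK (hsubK n (by omega)) (th_sub hK.q0 (hA2 n (by omega)) (hA1 (n + 1) hn).2)
          (fun k hk z hz => (hA3 n (by omega) k hk z hz).1)
          (fun k hk z hz => (hA3 n (by omega) k hk z hz).2) hT h3 hr
          (fun e he her => (h e he her).2.1) he her ((h e he her).2.2 n (by omega) hle)
    · have hin' : i ≤ n := by omega
      refine hj i hin' V E r σ ?_ hT hr h3 ?_
      · intro e he her
        refine ⟨(hC e he her).1, (hC e he her).2.1, fun i' hi' hle => (hC e he her).2.2 i' hi' ?_⟩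
        have h : i' ≠ n + 1 := by omega
        simpa [h] using hle
      · simpa [hi1] using hsum

/-- the sign exponent -/
noncomputable def al (q : ℝ) : ℕ := if q < 1 then 1 else 0

theorem th_sign {q : ℝ} (hq : q ≠ 1) {k : ℕ} {a w v : ℝ} (ha : 0 < (-1 : ℝ) ^ k * a)
    (hg : Good q v w) :
    0 < (-1 : ℝ) ^ (k + al q) * (q * a + w * a + v * (a + w * a)) := by
  have e : q * a + w * a + v * (a + w * a) = a * ((1 + v) * (1 + w) - (1 - q)) := by ring
  rw [e, pow_add]
  unfold al
  rcases lt_or_gt_of_ne hq with h | h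
  · rw [if_pos h]
    have := hg.1 h
    have h2 : (-1 : ℝ) ^ k * (-1) ^ 1 * (a * ((1 + v) * (1 + w) - (1 - q)))
      = ((-1 : ℝ) ^ k * a) * ((1 - q) - (1 + v) * (1 + w)) := by ring
    rw [h2]
    exact mul_pos ha (by linarith)
  · rw [if_neg (not_lt.2 h.le)]
    have := hg.2 h
    have h2 : (-1 : ℝ) ^ k * (-1) ^ 0 * (a * ((1 + v) * (1 + w) - (1 - q)))
      = ((-1 : ℝ) ^ k * a) * ((1 + v) * (1 + w) - (1 - q)) := by ring
    rw [h2]
    exact mul_pos ha (by linarith)

theorem th_pos {V E : Type} [Fintype V] [DecidableEq V] [DecidableEq E] {q lo hi : ℝ}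
    (hK : KK q lo hi) {en : E → V × V} {S : Finset E} {wt : E → ℝ} {r : E} (hT : TC en S)
    (hr : r ∈ S) (hw : ∀ e ∈ S, wt e ∈ Set.Icc lo hi) (hg : Good q (wt r) (ww q en wt r S)) :
    0 < (-1 : ℝ) ^ ((vs en S).card + al q) * F q en wt ∅ S := by
  obtain ⟨h1, h2⟩ := lemW (wt := wt) hK hT hr (fun e he _ => hw e he)
  have ha : aa q en wt r S ≠ 0 := by
    intro h; rw [h] at h1; simp at h1
  have hb : bb q en wt r S = ww q en wt r S * aa q en wt r S := by
    unfold ww; field_simp
  rw [F_eq hK.q1 hr, hb]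
  exact th_sign hK.q1 h1 hg

/-- every closed interval strictly inside `I_⋄` works for large graphs -/
theorem thresh {q c : ℝ} (hq : InR q) (hc1 : cb q ≤ c) (hc0 : c < 0)
    (hp : 0 < c ^ 3 - 2 * q * c - q ^ 2) :
    ∃ m : ℕ, ∀ (V E : Type) [Fintype V] [DecidableEq V] [Fintype E] [DecidableEq E]
      (en : E → V × V) (S : Finset E) (wt : E → ℝ), TC en S → m ≤ S.card →
      (∀ e ∈ S, wt e ∈ Set.Icc (q / c) c) →
      0 < (-1 : ℝ) ^ ((vs en S).card + al q) * F q en wt ∅ S := by
  obtain ⟨hK, N, A, hA0, hA1, hA2, hA3, hA4⟩ := dyn hq hc1 hc0 hp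
  have hlohi : q / (q / c) = c := by
    have := hK.q0.ne'
    field_simp
  obtain ⟨j, hj2, hj⟩ := levels_all hK hA0 hlohi hA1 hA2 hA3 N le_rfl
  refine ⟨j N + 3, ?_⟩
  intro V E _ _ _ _ en S wt hT hS hw
  obtain ⟨r, hr⟩ : S.Nonempty := card_pos.1 (by omega)
  refine th_pos hK hT hr hw ?_
  have hww := hj N le_rfl V E r { en := en, S := S, lab := fun _ => 1, wt := wt } ?_ hT hr
    (by show 3 ≤ S.card; omega) ?_
  · exact hA4 _ hww _ (hw r hr)
  · intro e he her
    refine ⟨le_rfl, hw e he, ?_⟩
    intro i' hi' hle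
    rcases Nat.eq_zero_or_pos i' with h0 | h0
    · subst h0
      rw [hA0, hlohi]
      exact hw e he
    · have := hj2 i' h0
      simp only at hle
      omega
  · show j N ≤ ∑ e ∈ S.erase r, 1
    rw [sum_const, card_erase_of_mem hr]
    simp only [smul_eq_mul, mul_one]
    omega

/-- the basic interval works for all 2-connected graphs -/
theorem thresh_base {q : ℝ} (hq : InR q) :
    ∀ (V E : Type) [Fintype V] [DecidableEq V] [Fintype E] [DecidableEq E]
      (en : E → V × V) (S : Finset E) (wt : E → ℝ), TC en S →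
      (∀ e ∈ S, wt e ∈ Set.Icc (q / cb q) (cb q)) →
      0 < (-1 : ℝ) ^ ((vs en S).card + al q) * F q en wt ∅ S := by
  intro V E _ _ _ _ en S wt hT hw
  obtain ⟨h0, h1, h2⟩ := dyn_base hq
  obtain ⟨hK, -⟩ := dyn hq le_rfl h0 h1
  obtain ⟨r, hr⟩ : S.Nonempty := card_pos.1 (by have := hT.1; omega)
  refine th_pos hK hT hr hw ?_
  exact h2 _ (lemW (wt := wt) hK hT hr (fun e he _ => hw e he)).2 _ (hw r hr)

end Pool.Agent.H194R2.JS
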