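import Pool.Agent.H194R2.JS.Subst
import Pool.Agent.H194R2.JS.Small
import Pool.Agent.H194R2.JS.Struct

/-! Effective weights: positivity, mediants, substitution, heavy edges. -/

namespace Pool.Agent.H194R2.JS

open Finset

section W

variable {V E : Type} [Fintype V] [DecidableEq V] [DecidableEq E]
variable {en : E → V × V} {S : Finset E} {q lo hi : ℝ} {wt : E → ℝ} {r : E}

/-- sign and value of a mediant -/
theorem w_mediant_aux {k : ℕ} (hk : 1 ≤ k) {q t a1 b1 a2 b2 l u : ℝ} (hq : 0 < q) (ht : t < 0)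
    (h1 : 0 < (-1 : ℝ) ^ k * a1) (h2 : 0 < (-1 : ℝ) ^ (k - 1) * a2)
    (hw1 : b1 / a1 ∈ Set.Icc l u) (hw2 : b2 / a2 ∈ Set.Icc l u) :
    0 < (-1 : ℝ) ^ k * (a1 + t / q * a2) ∧ (b1 + t / q * b2) / (a1 + t / q * a2) ∈ Set.Icc l u := by
  obtain ⟨k, rfl⟩ : ∃ k', k = k' + 1 := ⟨k - 1, by omega⟩
  simp only [Nat.add_sub_cancel] at h2
  have hs : (-1 : ℝ) ^ k = 1 ∨ (-1 : ℝ) ^ k = -1 := neg_one_pow_eq_or ℝ k
  set c : ℝ := -(t / q) with hc
  have hcp : 0 < c := by rw [hc]; rw [neg_pos]; exact div_neg_of_neg_of_pos ht hq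
  have htc : t / q = -c := by rw [hc]; ring
  rw [pow_succ] at h1 ⊢
  rw [htc]
  have ha1 : a1 ≠ 0 := by rintro rfl; simp at h1
  have ha2 : a2 ≠ 0 := by rintro rfl; simp at h2
  obtain ⟨w1, hw1d⟩ : ∃ w, w = b1 / a1 := ⟨_, rfl⟩
  obtain ⟨w2, hw2d⟩ : ∃ w, w = b2 / a2 := ⟨_, rfl⟩
  have hb1 : b1 = w1 * a1 := by rw [hw1d]; field_simp
  have hb2 : b2 = w2 * a2 := by rw [hw2d]; field_simp
  rw [← hw1d] at hw1
  rw [← hw2d] at hw2
  obtain ⟨l1, u1⟩ := hw1
  obtain ⟨l2, u2⟩ := hw2
  rcases hs with hs | hs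
  · rw [hs] at h1 h2 ⊢
    have e1 : a1 < 0 := by linarith
    have e2 : 0 < a2 := by linarith
    have e3 : a1 + -c * a2 < 0 := by nlinarith [mul_pos hcp e2]
    refine ⟨by linarith, ?_, ?_⟩
    · rw [le_div_iff_of_neg e3, hb1, hb2]
      nlinarith [mul_nonneg (sub_nonneg.2 l1) (neg_nonneg.2 e1.le),
        mul_nonneg (mul_nonneg hcp.le e2.le) (sub_nonneg.2 l2)]
    · rw [div_le_iff_of_neg e3, hb1, hb2]
      nlinarith [mul_nonneg (sub_nonneg.2 u1) (neg_nonneg.2 e1.le),
        mul_nonneg (mul_nonneg hcp.le e2.le) (sub_nonneg.2 u2)]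
  · rw [hs] at h1 h2 ⊢
    have e1 : 0 < a1 := by linarith
    have e2 : a2 < 0 := by linarith
    have e3 : 0 < a1 + -c * a2 := by nlinarith [mul_pos hcp (neg_pos.2 e2)]
    refine ⟨by linarith, ?_, ?_⟩
    · rw [le_div_iff₀ e3, hb1, hb2]
      nlinarith [mul_nonneg (sub_nonneg.2 l1) e1.le,
        mul_nonneg (mul_nonneg hcp.le (neg_nonneg.2 e2.le)) (sub_nonneg.2 l2)]
    · rw [div_le_iff₀ e3, hb1, hb2]
      nlinarith [mul_nonneg (sub_nonneg.2 u1) e1.le,
        mul_nonneg (mul_nonneg hcp.le (neg_nonneg.2 e2.le)) (sub_nonneg.2 u2)]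

omit [Fintype V] [DecidableEq E] in
theorem w_mem_vs {A : Finset E} {e : E} (he : e ∈ A) {x y : V}
    (hxy : en e = (x, y) ∨ en e = (y, x)) : x ∈ vs en A ∧ y ∈ vs en A := by
  unfold vs
  simp only [mem_union, mem_image]
  rcases hxy with h | h
  · exact ⟨Or.inl ⟨e, he, by rw [h]⟩, Or.inr ⟨e, he, by rw [h]⟩⟩
  · exact ⟨Or.inr ⟨e, he, by rw [h]⟩, Or.inl ⟨e, he, by rw [h]⟩⟩

/-- the data of the two halves of a 2-separation -/
theorem w_halves (hT : TC en S) {A : Finset E} (hA : A ⊆ S) (hA0 : A.Nonempty) (hr : r ∈ S)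
    (hrA : r ∉ A) {x y : V} (hbd : vs en A ∩ vs en (S \ A) = {x, y}) :
    TC (Function.update en r (x, y)) (insert r A) ∧
      vs (Function.update en r (x, y)) (insert r A) = vs en A := by
  have h1 : S \ (S \ A) = A := Finset.sdiff_sdiff_eq_self hA
  have := tc_comp (A := S \ A) hT sdiff_subset ⟨r, by simp [hr, hrA]⟩ (by rw [h1]; exact hA0)
    (x := x) (y := y) (by rw [h1, inter_comm]; exact hbd) (g := r) (by simp [hr, hrA])
  rw [h1] at this
  exact this

theorem lemW_aux (hK : KK q lo hi) : ∀ (n : ℕ) (en : E → V × V) (S : Finset E) (wt : E → ℝ),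
    S.card = n → TC en S → r ∈ S → (∀ e ∈ S, e ≠ r → wt e ∈ Set.Icc lo hi) →
    0 < (-1 : ℝ) ^ (vs en S).card * aa q en wt r S ∧ ww q en wt r S ∈ Set.Icc lo hi := by
  intro n
  induction n using Nat.strong_induction_on with
  | _ n ih =>
  intro en S wt hn hT hr hw
  have hq0 : q ≠ 0 := hK.q0.ne'
  have hwneg : ∀ e ∈ S, e ≠ r → wt e < 0 := fun e he her => lt_of_le_of_lt (hw e he her).2 hK.hi0
  have h2 : 2 ≤ S.card := hT.1
  rcases Nat.lt_or_ge S.card 3 with h3 | h3
  · -- two edges
    have hc : (S.erase r).card = 1 := by rw [card_erase_of_mem hr]; omega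
    obtain ⟨f, hf⟩ := card_eq_one.1 hc
    have hS : S = {r, f} := by rw [← insert_erase hr, hf]
    have hfS : f ∈ S := by rw [hS]; simp
    have hfr : f ≠ r := by
      intro h
      have : f ∈ S.erase r := by rw [hf]; simp
      rw [h] at this; simp at this
    obtain ⟨h4, h5, h6⟩ := small2 hq0 hK.q1 (wt := wt) hT hfr hS
    have hpos : 0 < q ^ (Fintype.card V - 1) := pow_pos hK.q0 _
    constructor
    · rw [h6, h4]; simpa using hpos
    · unfold ww
      rw [h5, h4, mul_comm, mul_div_assoc, div_self hpos.ne', mul_one]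
      exact hw f hfS hfr
  rcases Nat.lt_or_ge S.card 4 with h4 | h4
  · -- three edges
    have hc : (S.erase r).card = 2 := by rw [card_erase_of_mem hr]; omega
    obtain ⟨f, g, hfg, hf⟩ := card_eq_two.1 hc
    have hS : S = {r, f, g} := by rw [← insert_erase hr, hf]
    have hfS : f ∈ S := by rw [hS]; simp
    have hgS : g ∈ S := by rw [hS]; simp
    have hfr : f ≠ r := by
      intro h
      have : f ∈ S.erase r := by rw [hf]; simp
      rw [h] at this; simp at this
    have hgr : g ≠ r := by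
      intro h
      have : g ∈ S.erase r := by rw [hf]; simp
      rw [h] at this; simp at this
    have hwf := hw f hfS hfr
    have hwg := hw g hgS hgr
    rcases small3 hq0 hK.q1 (wt := wt) hT hfr hgr hfg hS with ⟨e1, e2, e3⟩ | ⟨e1, e2, e3⟩
    · have hpos : 0 < q ^ (Fintype.card V - 1) := pow_pos hK.q0 _
      constructor
      · rw [e3, e1]; simpa using hpos
      · unfold ww
        rw [e2, e1, mul_comm, mul_div_assoc, div_self hpos.ne', mul_one]
        exact hK.par _ hwf _ hwg
    · have hpos : 0 < q ^ (Fintype.card V - 2) := pow_pos hK.q0 _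
      have hneg : q + wt f + wt g < 0 := by have := hK.sneg; linarith [hwf.2, hwg.2]
      constructor
      · rw [e3, e1]
        have : (-1 : ℝ) ^ 3 * (q ^ (Fintype.card V - 2) * (q + wt f + wt g))
          = q ^ (Fintype.card V - 2) * (-(q + wt f + wt g)) := by ring
        rw [this]
        exact mul_pos hpos (by linarith)
      · unfold ww
        rw [e2, e1, mul_div_mul_left _ _ hpos.ne']
        exact hK.ser _ hwf _ hwg
  by_cases hN : N2 en S
  · -- no 2-separation
    obtain ⟨e, he, her⟩ : ∃ e ∈ S, e ≠ r := exists_mem_ne (by omega) r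
    have hen : en e = ((en e).1, (en e).2) ∨ en e = ((en e).2, (en e).1) := Or.inl rfl
    obtain ⟨hd1, hd2⟩ := tc_del hT hN h4 he
    obtain ⟨hxy, hc1, hc2⟩ := tc_con hT hN h4 he hen
    have hr1 : r ∈ S.erase e := mem_erase.2 ⟨her.symm, hr⟩
    have hlt : (S.erase e).card < n := by rw [card_erase_of_mem he]; omega
    have i1 := ih _ hlt en (S.erase e) wt rfl hd1 hr1 (fun f hf => hw f (mem_of_mem_erase hf))
    have i2 := ih _ hlt (red (en e).1 (en e).2 en) (S.erase e) wt rfl hc1 hr1
      (fun f hf => hw f (mem_of_mem_erase hf))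
    rw [hd2] at i1
    have hy : (en e).2 ∈ vs en S := (w_mem_vs he hen).2
    rw [hc2, card_erase_of_mem hy] at i2
    have hk : 1 ≤ (vs en S).card := card_pos.2 ⟨_, hy⟩
    have := w_mediant_aux hk hK.q0 (hwneg e he her) i1.1 i2.1 i1.2 i2.2
    rw [← aa_dc hq0 he her hxy hen, ← bb_dc hq0 he her hxy hen] at this
    exact this
  · obtain ⟨A, hA, hrA, hA2, hB2, x, y, hxy, hbd⟩ := exists_sep hT hN hr
    have hA0 : A.Nonempty := card_pos.1 (by omega)
    have hB0 : (S \ A).Nonempty := card_pos.1 (by omega)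
    obtain ⟨g, hg⟩ := hA0
    have hgS := hA hg
    have hgr : g ≠ r := fun h => hrA (h ▸ hg)
    obtain ⟨t1, t2⟩ := w_halves (r := r) hT hA ⟨g, hg⟩ hr hrA hbd
    obtain ⟨t3, t4⟩ := tc_comp hT hA ⟨g, hg⟩ hB0 hbd hg
    have hcS : A.card + (S \ A).card = S.card := by
      rw [add_comm]; exact card_sdiff_add_card_eq_card hA
    have i1 := ih (insert r A).card (by rw [card_insert_of_notMem hrA]; omega)
      (Function.update en r (x, y)) (insert r A) wt rfl t1 (mem_insert_self _ _)
      (fun f hf hfr => hw f (by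
        rcases mem_insert.1 hf with h | h
        · exact absurd h hfr
        · exact hA h) hfr)
    have hgB : g ∉ S \ A := by simp [hg]
    have hrB : r ∈ S \ A := by simp [hr, hrA]
    have i2 := ih (insert g (S \ A)).card (by rw [card_insert_of_notMem hgB]; omega)
      (Function.update en g (x, y)) (insert g (S \ A))
      (Function.update wt g (ww q (Function.update en r (x, y)) wt r (insert r A)))
      rfl t3 (mem_insert_of_mem hrB)
      (fun f hf hfr => by
        by_cases hfg : f = g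
        · subst hfg; simpa using i1.2
        · rw [Function.update_of_ne hfg]
          rcases mem_insert.1 hf with h | h
          · exact absurd h hfg
          · exact hw f (mem_sdiff.1 h).1 hfr)
    rw [t2] at i1
    rw [t4] at i2
    have hne : aa q (Function.update en r (x, y)) wt r (insert r A) ≠ 0 := by
      intro h; rw [h] at i1; simp at i1
    obtain ⟨s1, s2⟩ := subst_net hq0 hK.q1 (wt := wt) hA hr hrA hxy hbd.subset hg hne
    have hpos : 0 < q ^ (Fintype.card V - 1) := pow_pos hK.q0 _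
    have hvs : (vs en S).card + 2 = (vs en A).card + (vs en (S \ A)).card := by
      have h1 : vs en S = vs en A ∪ vs en (S \ A) := by
        ext v
        simp only [vs, mem_union, mem_image, mem_sdiff]
        constructor
        · rintro (⟨e, he, h⟩ | ⟨e, he, h⟩)
          · by_cases heA : e ∈ A
            · exact Or.inl (Or.inl ⟨e, heA, h⟩)
            · exact Or.inr (Or.inl ⟨e, ⟨he, heA⟩, h⟩)
          · by_cases heA : e ∈ A
            · exact Or.inl (Or.inr ⟨e, heA, h⟩)
            · exact Or.inr (Or.inr ⟨e, ⟨he, heA⟩, h⟩)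
        · rintro ((⟨e, he, h⟩ | ⟨e, he, h⟩) | (⟨e, he, h⟩ | ⟨e, he, h⟩))
          · exact Or.inl ⟨e, hA he, h⟩
          · exact Or.inr ⟨e, hA he, h⟩
          · exact Or.inl ⟨e, he.1, h⟩
          · exact Or.inr ⟨e, he.1, h⟩
      have h2 := card_union_add_card_inter (vs en A) (vs en (S \ A))
      rw [← h1, hbd, card_pair hxy] at h2
      exact h2
    have hsgn : (-1 : ℝ) ^ (vs en S).card
        = (-1 : ℝ) ^ (vs en A).card * (-1 : ℝ) ^ (vs en (S \ A)).card := by
      rw [← pow_add, ← hvs, pow_add]; norm_num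
    constructor
    · rw [hsgn, s1]
      have : (-1 : ℝ) ^ (vs en A).card * (-1 : ℝ) ^ (vs en (S \ A)).card *
          (aa q (Function.update en r (x, y)) wt r (insert r A) / q ^ (Fintype.card V - 1) *
            aa q (Function.update en g (x, y)) (Function.update wt g
              (ww q (Function.update en r (x, y)) wt r (insert r A))) r (insert g (S \ A)))
          = ((-1 : ℝ) ^ (vs en A).card * aa q (Function.update en r (x, y)) wt r (insert r A))
            * ((-1 : ℝ) ^ (vs en (S \ A)).card * aa q (Function.update en g (x, y))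
              (Function.update wt g (ww q (Function.update en r (x, y)) wt r (insert r A))) r
              (insert g (S \ A))) / q ^ (Fintype.card V - 1) := by ring
      rw [this]
      exact div_pos (mul_pos i1.1 i2.1) hpos
    · have hc0 : aa q (Function.update en r (x, y)) wt r (insert r A)
          / q ^ (Fintype.card V - 1) ≠ 0 := div_ne_zero hne hpos.ne'
      have : ww q en wt r S = ww q (Function.update en g (x, y)) (Function.update wt g
              (ww q (Function.update en r (x, y)) wt r (insert r A))) r (insert g (S \ A)) := by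
        conv_lhs => unfold ww
        rw [s1, s2, mul_div_mul_left _ _ hc0]
        rfl
      rw [this]
      exact i2.2

theorem lemW (hK : KK q lo hi) (hT : TC en S) (hr : r ∈ S)
    (hw : ∀ e ∈ S, e ≠ r → wt e ∈ Set.Icc lo hi) :
    0 < (-1 : ℝ) ^ (vs en S).card * aa q en wt r S ∧ ww q en wt r S ∈ Set.Icc lo hi :=
  lemW_aux hK _ en S wt rfl hT hr hw

theorem mediant (hK : KK q lo hi) (hT : TC en S) (hN : N2 en S) (h4 : 4 ≤ S.card) (hr : r ∈ S)
    (hw : ∀ e ∈ S, e ≠ r → wt e ∈ Set.Icc lo hi) {e : E} (he : e ∈ S) (her : e ≠ r) {x y : V}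
    (hxy : en e = (x, y) ∨ en e = (y, x)) {l u : ℝ}
    (h1 : ww q en wt r (S.erase e) ∈ Set.Icc l u)
    (h2 : ww q (red x y en) wt r (S.erase e) ∈ Set.Icc l u) :
    ww q en wt r S ∈ Set.Icc l u := by
  have hq0 : q ≠ 0 := hK.q0.ne'
  obtain ⟨hd1, hd2⟩ := tc_del hT hN h4 he
  obtain ⟨hne, hc1, hc2⟩ := tc_con hT hN h4 he hxy
  have hr1 : r ∈ S.erase e := mem_erase.2 ⟨her.symm, hr⟩
  have i1 := lemW (wt := wt) hK hd1 hr1 (fun f hf => hw f (mem_of_mem_erase hf))
  have i2 := lemW (wt := wt) hK hc1 hr1 (fun f hf => hw f (mem_of_mem_erase hf))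
  rw [hd2] at i1
  have hy : y ∈ vs en S := (w_mem_vs he hxy).2
  rw [hc2, card_erase_of_mem hy] at i2
  have hk : 1 ≤ (vs en S).card := card_pos.2 ⟨_, hy⟩
  have := w_mediant_aux hk hK.q0 (lt_of_le_of_lt (hw e he her).2 hK.hi0) i1.1 i2.1 h1 h2
  rw [← aa_dc hq0 he her hne hxy, ← bb_dc hq0 he her hne hxy] at this
  exact this.2

theorem ww_comp (hK : KK q lo hi) (hT : TC en S) (hr : r ∈ S)
    (hw : ∀ e ∈ S, e ≠ r → wt e ∈ Set.Icc lo hi) {A : Finset E} (hA : A ⊆ S) (hrA : r ∉ A)
    (hA0 : A.Nonempty) {x y : V} (hxy : x ≠ y) (hbd : vs en A ∩ vs en (S \ A) = {x, y})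
    {g : E} (hg : g ∈ A) :
    ww q en wt r S = ww q (Function.update en g (x, y))
      (Function.update wt g (ww q (Function.update en r (x, y)) wt r (insert r A)))
      r (insert g (S \ A)) := by
  have hq0 : q ≠ 0 := hK.q0.ne'
  obtain ⟨t1, t2⟩ := w_halves (r := r) hT hA hA0 hr hrA hbd
  have i1 := lemW (wt := wt) hK t1 (mem_insert_self r A)
    (fun f hf hfr => hw f (by
        rcases mem_insert.1 hf with h | h
        · exact absurd h hfr
        · exact hA h) hfr)
  have hne : aa q (Function.update en r (x, y)) wt r (insert r A) ≠ 0 := by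
    intro h; rw [h] at i1; simp at i1
  obtain ⟨s1, s2⟩ := subst_net hq0 hK.q1 (wt := wt) hA hr hrA hxy hbd.subset hg hne
  have hpos : 0 < q ^ (Fintype.card V - 1) := pow_pos hK.q0 _
  have hc0 : aa q (Function.update en r (x, y)) wt r (insert r A)
          / q ^ (Fintype.card V - 1) ≠ 0 := div_ne_zero hne hpos.ne'
  conv_lhs => unfold ww
  rw [s1, s2, mul_div_mul_left _ _ hc0]
  rfl

theorem heavy_aux (hK : KK q lo hi) {lx hx ly hy : ℝ} (hX : Set.Icc lx hx ⊆ Set.Icc lo hi)
    (hY : Set.Icc ly hy ⊆ Set.Icc lx hx)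
    (hpar : ∀ k ∈ Set.Icc lo hi, ∀ z ∈ Set.Icc lx hx, (1 + k) * (1 + z) - 1 ∈ Set.Icc ly hy)
    (hser : ∀ k ∈ Set.Icc lo hi, ∀ z ∈ Set.Icc lx hx, k * z / (q + k + z) ∈ Set.Icc ly hy) :
    ∀ (n : ℕ) (en : E → V × V) (S : Finset E) (wt : E → ℝ) (f : E),
    S.card = n → TC en S → 3 ≤ S.card → r ∈ S → (∀ e ∈ S, e ≠ r → wt e ∈ Set.Icc lo hi) →
    f ∈ S → f ≠ r → wt f ∈ Set.Icc lx hx → ww q en wt r S ∈ Set.Icc ly hy := by
  intro n
  induction n using Nat.strong_induction_on with
  | _ n ih =>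
  intro en S wt f hn hT h3 hr hw hf hfr hwf
  have hq0 : q ≠ 0 := hK.q0.ne'
  rcases Nat.lt_or_ge S.card 4 with h4 | h4
  · -- three edges
    have hc : ((S.erase r).erase f).card = 1 := by
      rw [card_erase_of_mem (mem_erase.2 ⟨hfr, hf⟩), card_erase_of_mem hr]; omega
    obtain ⟨g, hg⟩ := card_eq_one.1 hc
    have hgm : g ∈ (S.erase r).erase f := by rw [hg]; simp
    have hgf : g ≠ f := (mem_erase.1 hgm).1
    have hgr : g ≠ r := (mem_erase.1 (mem_erase.1 hgm).2).1
    have hgS : g ∈ S := (mem_erase.1 (mem_erase.1 hgm).2).2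
    have hS : S = {r, f, g} := by
      rw [← insert_erase hr, ← insert_erase (mem_erase.2 ⟨hfr, hf⟩ : f ∈ S.erase r), hg]
    rcases small3 hq0 hK.q1 (wt := wt) hT hfr hgr hgf.symm hS with ⟨e1, e2, e3⟩ | ⟨e1, e2, e3⟩
    · have hpos : 0 < q ^ (Fintype.card V - 1) := pow_pos hK.q0 _
      unfold ww
      rw [e2, e1, mul_comm, mul_div_assoc, div_self hpos.ne', mul_one]
      have := hpar _ (hw g hgS hgr) _ hwf
      rw [mul_comm] at this
      exact this
    · have hpos : 0 < q ^ (Fintype.card V - 2) := pow_pos hK.q0 _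
      unfold ww
      rw [e2, e1, mul_div_mul_left _ _ hpos.ne']
      have := hser _ (hw g hgS hgr) _ hwf
      have e4 : wt f * wt g / (q + wt f + wt g) = wt g * wt f / (q + wt g + wt f) := by
        rw [mul_comm, add_right_comm]
      rw [e4]
      exact this
  by_cases hN : N2 en S
  · obtain ⟨e, he, hef⟩ : ∃ e ∈ S.erase r, e ≠ f :=
      exists_mem_ne (by rw [card_erase_of_mem hr]; omega) f
    obtain ⟨her, heS⟩ := mem_erase.1 he
    have hen : en e = ((en e).1, (en e).2) ∨ en e = ((en e).2, (en e).1) := Or.inl rfl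
    obtain ⟨hd1, hd2⟩ := tc_del hT hN h4 heS
    obtain ⟨hxy, hc1, hc2⟩ := tc_con hT hN h4 heS hen
    have hr1 : r ∈ S.erase e := mem_erase.2 ⟨her.symm, hr⟩
    have hlt : (S.erase e).card < n := by rw [card_erase_of_mem heS]; omega
    have h3' : 3 ≤ (S.erase e).card := by rw [card_erase_of_mem heS]; omega
    have hf' : f ∈ S.erase e := mem_erase.2 ⟨hef.symm, hf⟩
    have i1 := ih _ hlt en (S.erase e) wt f rfl hd1 h3' hr1
      (fun f hf => hw f (mem_of_mem_erase hf)) hf' hfr hwf
    have i2 := ih _ hlt (red (en e).1 (en e).2 en) (S.erase e) wt f rfl hc1 h3' hr1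
      (fun f hf => hw f (mem_of_mem_erase hf)) hf' hfr hwf
    exact mediant hK hT hN h4 hr hw heS her hen i1 i2
  · obtain ⟨A, hA, hrA, hA2, hB2, x, y, hxy, hbd⟩ := exists_sep hT hN hr
    have hA0 : A.Nonempty := card_pos.1 (by omega)
    have hB0 : (S \ A).Nonempty := card_pos.1 (by omega)
    have hcS : A.card + (S \ A).card = S.card := by
      rw [add_comm]; exact card_sdiff_add_card_eq_card hA
    obtain ⟨t1, t2⟩ := w_halves (r := r) hT hA hA0 hr hrA hbd
    have hrB : r ∈ S \ A := by simp [hr, hrA]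
    have hwA : ∀ e ∈ insert r A, e ≠ r → wt e ∈ Set.Icc lo hi := fun f hf hfr => hw f (by
        rcases mem_insert.1 hf with h | h
        · exact absurd h hfr
        · exact hA h) hfr
    have hrAc : (insert r A).card = A.card + 1 := card_insert_of_notMem hrA
    by_cases hfA : f ∈ A
    · -- the heavy edge lies in `A`
      have i1 := ih (insert r A).card (by omega)
        (Function.update en r (x, y)) (insert r A) wt f rfl t1 (by omega)
        (mem_insert_self _ _) hwA (mem_insert_of_mem hfA) hfr hwf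
      obtain ⟨t3, t4⟩ := tc_comp hT hA hA0 hB0 hbd hfA
      have hfB : f ∉ S \ A := by simp [hfA]
      have hc' : (insert f (S \ A)).card = (S \ A).card + 1 := card_insert_of_notMem hfB
      have i2 := ih (insert f (S \ A)).card (by omega)
        (Function.update en f (x, y)) (insert f (S \ A))
        (Function.update wt f (ww q (Function.update en r (x, y)) wt r (insert r A))) f
        rfl t3 (by omega) (mem_insert_of_mem hrB)
        (fun e he her => by
          by_cases hef : e = f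
          · subst hef; simpa using hX (hY i1)
          · rw [Function.update_of_ne hef]
            rcases mem_insert.1 he with h | h
            · exact absurd h hef
            · exact hw e (mem_sdiff.1 h).1 her)
        (mem_insert_self _ _) hfr (by simpa using hY i1)
      rw [ww_comp hK hT hr hw hA hrA hA0 hxy hbd hfA]
      exact i2
    · obtain ⟨g, hg⟩ := hA0
      have hgS := hA hg
      have hgr : g ≠ r := fun h => hrA (h ▸ hg)
      have hgf : f ≠ g := fun h => hfA (h ▸ hg)
      obtain ⟨t3, t4⟩ := tc_comp hT hA ⟨g, hg⟩ hB0 hbd hg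
      have hgB : g ∉ S \ A := by simp [hg]
      have hc' : (insert g (S \ A)).card = (S \ A).card + 1 := card_insert_of_notMem hgB
      have i1 := lemW (wt := wt) hK t1 (mem_insert_self r A) hwA
      have i2 := ih (insert g (S \ A)).card (by omega)
        (Function.update en g (x, y)) (insert g (S \ A))
        (Function.update wt g (ww q (Function.update en r (x, y)) wt r (insert r A))) f
        rfl t3 (by omega) (mem_insert_of_mem hrB)
        (fun e he her => by
          by_cases hef : e = g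
          · subst hef; simpa using i1.2
          · rw [Function.update_of_ne hef]
            rcases mem_insert.1 he with h | h
            · exact absurd h hef
            · exact hw e (mem_sdiff.1 h).1 her)
        (mem_insert_of_mem (by simp [hf, hfA])) hfr
        (by rw [Function.update_of_ne hgf]; exact hwf)
      rw [ww_comp hK hT hr hw hA hrA ⟨g, hg⟩ hxy hbd hg]
      exact i2

/-- an edge whose weight lies in the smaller interval `[lx, hx]` brings the effective weight
into `[ly, hy]` -/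
theorem heavy (hK : KK q lo hi) {lx hx ly hy : ℝ} (hX : Set.Icc lx hx ⊆ Set.Icc lo hi)
    (hY : Set.Icc ly hy ⊆ Set.Icc lx hx)
    (hpar : ∀ k ∈ Set.Icc lo hi, ∀ z ∈ Set.Icc lx hx, (1 + k) * (1 + z) - 1 ∈ Set.Icc ly hy)
    (hser : ∀ k ∈ Set.Icc lo hi, ∀ z ∈ Set.Icc lx hx, k * z / (q + k + z) ∈ Set.Icc ly hy)
    (hT : TC en S) (h3 : 3 ≤ S.card) (hr : r ∈ S)
    (hw : ∀ e ∈ S, e ≠ r → wt e ∈ Set.Icc lo hi) {f : E} (hf : f ∈ S) (hfr : f ≠ r)
    (hwf : wt f ∈ Set.Icc lx hx) :
    ww q en wt r S ∈ Set.Icc ly hy :=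
  heavy_aux hK hX hY hpar hser _ en S wt f rfl hT h3 hr hw hf hfr hwf

end W

end Pool.Agent.H194R2.JS
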